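import Pool.Agent.Helper808_Irr.Setup

namespace Pool.Agent.Helper808_Irr

open Finset Function

variable {α R : Type} [Fintype α] [DecidableEq α] [Fintype R] [DecidableEq R]
variable {A : α → α → Prop} {RA : R → R → Prop} {P : Par R} {t C : ℕ}

theorem swap_left' (i i' : ℕ) : Equiv.swap i i' i = i' := Equiv.swap_apply_left i i'
theorem swap_right' (i i' : ℕ) : Equiv.swap i i' i' = i := Equiv.swap_apply_right i i'

/-- Two typical vertices of the same group. -/
theorem case_fine (G : Good A RA P t C) (hC4 : 0 < P.C4) (v : R) (J j i i' : ℕ) (hii : i < i')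
    (hu : Pt.typ v J j i' ∈ P.VV)
    (hlt : 2 * (Fintype.card α) ^ 4 * C ^ Fintype.card α *
      (2 * Fintype.card R * (P.N * P.W + 1)) < t) :
    LL A RA P (Pt.typ v J j i) < LL A RA P (Pt.typ v J j i') := by
  obtain ⟨h, hh, x0, x1, x2, hx01, hx12, hx02, hx0, hx1⟩ := G.hpath v
  have hu' := hu
  rw [Par.mem_typ] at hu'
  have hi' : i' < P.g := hu'.2.2
  have hi : i < P.g := hii.trans hi'
  have hadj : ∀ x y, (A x y ∨ A y x) → h x ≠ h y := by
    intro x y hxy
    apply G.adj_ne
    rcases hxy with hxy | hxy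
    · exact Or.inl (hh _ _ hxy)
    · exact Or.inr (hh _ _ hxy)
  have hva : v ≠ P.a v := by
    have := hadj x0 x1 hx01
    rwa [hx0, hx1] at this
  have hca : h x2 ≠ P.a v := by
    have := hadj x1 x2 hx12
    rw [hx1] at this
    exact this.symm
  have hDc := P.card_Del hC4 (P.a v) i i' hii.le
  have hinj : Function.Injective (Pt.ch (h x2)) := by
    intro l l' hl
    simpa using hl
  refine fine_lt G (P.s1 (P.a v) i i') (P.s1_VV _ _ _ hi hi') (P.s1_cl _ _ _) h hh x0 x1 x2
    hx01 hx12 hx02 (Pt.typ v J j i') (Pt.typ v J j i) (Pt.ch (P.a v) i) (Pt.ch (P.a v) i')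
    hu (by simp [hi]) (by simp [Par.f1]) hx0.symm hx1.symm rfl (by simp) (by simp)
    (by simp [hii.ne]) (P.Del (P.a v) i i')
    ((Finset.Ico (P.g - i') (P.g - i)).image (Pt.ch (h x2))) (P.col i) ?_ ?_ ?_ ?_ ?_ ?_ ?_ ?_ ?_ ?_
    ?_ ?_ ?_
  · intro p hp q hq hc h1 h2
    exact P.s1_change (P.a v) i i' hii p q hp hq (G.adj_ne (Or.inl hc)) h2 h1
  · simp [Par.f1, Par.Ex]
  · intro q hq hqB hqz hc h1 h2
    apply h1
    have hcl : P.a v ≠ q.cl := G.adj_ne hc
    rcases q with ⟨w, J', j', x⟩ | ⟨w, l⟩ | ⟨w, J', j', s⟩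
    · simp only [Par.Ex] at h2
      exfalso
      apply hqB
      rw [Par.mem_typ] at hq
      rw [Par.mem_col]
      exact ⟨h2.2.symm, hq.1, hq.2.1⟩
    · simp only [Pt.cl] at hcl
      simp only [Par.s1_apply, Par.f1, if_pos, if_neg hcl.symm, swap_right']
      exact h2
    · simp only [Par.s1_apply, Par.f1, if_pos, swap_right']
      exact h2
  · intro q hq
    rcases q with ⟨w, J', j', x⟩ | ⟨w, l⟩ | ⟨w, J', j', s⟩
    · exact absurd hq (P.not_mem_Del_typ _ _ _ _ _ _ _)
    · rw [Par.mem_Del_ch] at hq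
      simp only [Par.s1_apply, Par.f1, if_pos, if_neg hq.1, swap_left', Par.Ex]
      omega
    · rw [Par.mem_Del_sp] at hq
      simp only [Par.s1_apply, Par.f1, if_pos, swap_left', Par.Ex]
      omega
  · exact P.not_mem_Del_typ _ _ _ _ _ _ _
  · rw [Par.mem_Del_ch]; simp
  · rw [Par.mem_Del_ch]; simp
  · rw [Par.mem_col]; omega
  · simp [Par.col]
  · intro q hq
    rcases q with ⟨w, J', j', x⟩ | ⟨w, l⟩ | ⟨w, J', j', s⟩
    · exact P.not_mem_Del_typ _ _ _ _ _ _ _
    · simp [Par.col] at hq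
    · simp [Par.col] at hq
  · simp only [Par.Ex]; omega
  · intro q hq
    rw [Finset.mem_image] at hq
    obtain ⟨m, hm, rfl⟩ := hq
    rw [Finset.mem_Ico] at hm
    refine ⟨?_, ?_, rfl, ?_, ?_⟩
    · rw [Par.mem_Del_ch]; exact ⟨hca, hm.1, hm.2⟩
    · rw [Par.mem_ch]; omega
    · simp only [Par.Ex]; omega
    · simp only [Par.Ex]
      exact fun h => hca h.1.symm
  · rw [Finset.card_image_of_injective _ hinj, Nat.card_Ico]
    have e1 : P.g - i - (P.g - i') = i' - i := by omega
    rw [e1]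
    have e2 := P.card_col i
    have hpos : 0 < i' - i := by omega
    calc 2 * (Fintype.card α) ^ 4 * C ^ Fintype.card α *
          ((P.Del (P.a v) i i').card * ((P.col i).card + 1))
        ≤ 2 * (Fintype.card α) ^ 4 * C ^ Fintype.card α *
          ((2 * Fintype.card R * (i' - i)) * (P.N * P.W + 1)) := by
          gcongr
      _ = (i' - i) * (2 * (Fintype.card α) ^ 4 * C ^ Fintype.card α *
          (2 * Fintype.card R * (P.N * P.W + 1))) := by ring
      _ < (i' - i) * t := Nat.mul_lt_mul_of_pos_left hlt hpos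

/-- Two chain vertices of the same class. -/
theorem case_chain (G : Good A RA P t C) (hC4 : 0 < P.C4) (v : R) (l l' : ℕ) (hll : l < l')
    (hl' : l' < P.g)
    (hlt : 2 * (Fintype.card α) ^ 3 * C ^ Fintype.card α * (4 * Fintype.card R) < t) :
    LL A RA P (Pt.ch v l') < LL A RA P (Pt.ch v l) := by
  obtain ⟨h, hh, x0, x1, x2, hx01, hx12, hx02, hx0, hx1⟩ := G.hpath v
  have hl : l < P.g := hll.trans hl'
  have hva : v ≠ P.a v := by
    have : h x0 ≠ h x1 := by
      apply G.adj_ne
      rcases hx01 with hxy | hxy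
      · exact Or.inl (hh _ _ hxy)
      · exact Or.inr (hh _ _ hxy)
    rwa [hx0, hx1] at this
  have hDc := P.card_Del hC4 v l l' hll.le
  have hinj : Function.Injective (Pt.ch (P.a v)) := by
    intro l l' hl
    simpa using hl
  refine coarse_lt G (P.s1 v l l') (P.s1_VV _ _ _ hl hl') (P.s1_cl _ _ _) h hh x0 x1
    hx01 (Pt.ch v l) (Pt.ch v l') (by simp [hl]) (by simp [Par.f1]) hx0.symm
    ((Finset.Ico (P.g - l') (P.g - l)).image (Pt.ch (P.a v))) ∅
    (({Pt.ch v l'} ×ˢ P.Del v l l') ∪ (P.Del v l l' ×ˢ {Pt.ch v l'})) ?_ ?_ ?_ ?_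
  · intro q hq
    rw [Finset.mem_image] at hq
    obtain ⟨m, hm, rfl⟩ := hq
    rw [Finset.mem_Ico] at hm
    refine ⟨?_, hx1.symm, ?_, ?_, ?_⟩
    · rw [Par.mem_ch]; omega
    · simp [hva.symm]
    · simp only [Par.Ex]; omega
    · simp only [Par.s1_apply, Par.f1, if_neg hva.symm, Par.Ex]
      omega
  · intro q hq hc h1 h2
    exfalso
    apply h2
    have hcl : v ≠ q.cl := G.adj_ne hc
    rcases q with ⟨w, J', j', x⟩ | ⟨w, m⟩ | ⟨w, J', j', s⟩
    · simp only [Par.Ex] at h1
      obtain ⟨e1, e2⟩ := h1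
      subst e2
      simp only [Par.s1_apply, Par.f1, if_pos e1, Par.Ex, swap_left']
      exact ⟨e1, trivial⟩
    · simp only [Pt.cl] at hcl
      simp only [Par.Ex] at h1
      simp only [Par.s1_apply, Par.f1, if_neg hcl.symm, Par.Ex]
      omega
    · simp only [Par.Ex] at h1
      simp only [Par.s1_apply, Par.f1, Par.Ex]
      omega
  · intro p hp q hq hpu hqu hc h1 h2
    rw [Finset.mem_union, Finset.mem_product, Finset.mem_product, Finset.mem_singleton,
      Finset.mem_singleton]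
    rcases P.s1_change v l l' hll p q hp hq (G.adj_ne (Or.inl hc)) h1 h2 with h3 | h3
    · exact Or.inl h3
    · exact Or.inr ⟨h3.2, h3.1⟩
  · rw [Finset.card_image_of_injective _ hinj, Nat.card_Ico]
    have e1 : P.g - l - (P.g - l') = l' - l := by omega
    rw [e1]
    have hpos : 0 < l' - l := by omega
    have e3 : (({Pt.ch v l'} ×ˢ P.Del v l l') ∪ (P.Del v l l' ×ˢ {Pt.ch v l'})).card ≤
        2 * (P.Del v l l').card := by
      refine (Finset.card_union_le _ _).trans ?_
      simp only [Finset.card_product, Finset.card_singleton]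
      omega
    calc 2 * (Fintype.card α) ^ 3 * C ^ Fintype.card α *
          ((∅ : Finset (Pt R)).card * t +
            (({Pt.ch v l'} ×ˢ P.Del v l l') ∪ (P.Del v l l' ×ˢ {Pt.ch v l'})).card)
        ≤ 2 * (Fintype.card α) ^ 3 * C ^ Fintype.card α *
          (2 * (2 * Fintype.card R * (l' - l))) := by
          rw [Finset.card_empty, zero_mul, zero_add]
          gcongr
          exact e3.trans (Nat.mul_le_mul_left 2 hDc)
      _ = (l' - l) * (2 * (Fintype.card α) ^ 3 * C ^ Fintype.card α *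
          (4 * Fintype.card R)) := by ring
      _ < (l' - l) * t := Nat.mul_lt_mul_of_pos_left hlt hpos

end Pool.Agent.Helper808_Irr
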