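import Pool.Agent.Helper808_Irr.CaseA

namespace Pool.Agent.Helper808_Irr

open Finset Function

variable {α R : Type} [Fintype α] [DecidableEq α] [Fintype R] [DecidableEq R]
variable {A : α → α → Prop} {RA : R → R → Prop} {P : Par R} {t C : ℕ}

/-- Comparison by a transposition. -/
theorem case_swap (G : Good A RA P t C)
    (h : α → R) (hh : ∀ x y, A x y → RA (h x) (h y)) (x0 x1 : α) (hx : A x0 x1 ∨ A x1 x0)
    (u u' : Pt R) (hu : u ∈ P.VV) (hu' : u' ∈ P.VV) (hcu : u.cl = u'.cl)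
    (hux : u.cl = h x0) (Qm Qp : Finset (Pt R))
    (hQm : ∀ q ∈ Qm, q ∈ P.VV ∧ q.cl = h x1 ∧ ¬ P.Ex u q ∧ P.Ex u' q)
    (hQp : ∀ q ∈ P.VV, q.cl ≠ u.cl → P.Ex u q → ¬ P.Ex u' q → q ∈ Qp)
    (hlt : 2 * (Fintype.card α) ^ 3 * C ^ Fintype.card α * (Qp.card + 2) < Qm.card) :
    LL A RA P u' < LL A RA P u := by
  classical
  have hcx : h x0 ≠ h x1 := by
    apply G.adj_ne
    rcases hx with hxy | hxy
    · exact Or.inl (hh _ _ hxy)
    · exact Or.inr (hh _ _ hxy)
  have hfix : ∀ q : Pt R, q.cl ≠ u.cl → Equiv.swap u u' q = q := by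
    intro q hq
    apply Equiv.swap_apply_of_ne_of_ne
    · rintro rfl; exact hq rfl
    · rintro rfl; exact hq hcu.symm
  have hdt : 2 * P.d ≤ 2 * t := by
    have h1 := G.hdt
    have h2 := G.kpos (h x0)
    have h3 : 1 ≤ (Fintype.card α) ^ 2 := Nat.one_le_pow _ _ h2
    nlinarith
  set B := P.VV.filter (fun q => P.Ex u' q) with hB
  have hBd : B.card ≤ P.d := by
    refine le_trans (le_of_eq ?_) (P.deg_le u')
    congr
  refine coarse_lt G (Equiv.swap u u') (P.swap_VV hu hu') (Par.swap_cl hcu) h hh x0 x1 hx u u' hu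
    (Equiv.swap_apply_left _ _) hux Qm Qp (({u'} ×ˢ B) ∪ (B ×ˢ {u'})) ?_ ?_ ?_ ?_
  · intro q hq
    obtain ⟨h1, h2, h3, h4⟩ := hQm q hq
    have hne : q.cl ≠ u.cl := by rw [h2, hux]; exact hcx.symm
    refine ⟨h1, h2, ?_, h3, ?_⟩
    · rintro rfl; exact hne rfl
    · rw [hfix q hne]; exact h4
  · intro q hq hc h1 h2
    have hne : q.cl ≠ u.cl := (G.adj_ne hc).symm
    rw [hfix q hne] at h2
    exact hQp q hq hne h1 h2
  · intro p hp q hq hpu hqu hc h1 h2
    rw [Finset.mem_union, Finset.mem_product, Finset.mem_product, Finset.mem_singleton,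
      Finset.mem_singleton]
    by_cases hpu' : p = u'
    · left
      refine ⟨hpu', Finset.mem_filter.2 ⟨hq, ?_⟩⟩
      rw [← hpu']; exact h1
    · by_cases hqu' : q = u'
      · right
        refine ⟨Finset.mem_filter.2 ⟨hp, ?_⟩, hqu'⟩
        rw [← hqu']; exact P.Ex_symm _ _ h1
      · exfalso
        apply h2
        rw [Equiv.swap_apply_of_ne_of_ne hpu hpu', Equiv.swap_apply_of_ne_of_ne hqu hqu']
        exact h1
  · have e1 : (({u'} ×ˢ B) ∪ (B ×ˢ {u'})).card ≤ 2 * P.d := by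
      refine (Finset.card_union_le _ _).trans ?_
      simp only [Finset.card_product, Finset.card_singleton]
      omega
    calc 2 * (Fintype.card α) ^ 3 * C ^ Fintype.card α *
          (Qp.card * t + (({u'} ×ˢ B) ∪ (B ×ˢ {u'})).card)
        ≤ 2 * (Fintype.card α) ^ 3 * C ^ Fintype.card α * (Qp.card * t + 2 * t) := by
          gcongr
          exact e1.trans hdt
      _ = 2 * (Fintype.card α) ^ 3 * C ^ Fintype.card α * (Qp.card + 2) * t := by ring
      _ < Qm.card * t := Nat.mul_lt_mul_of_pos_right hlt G.ht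

/-- Path data at a class. -/
theorem Good.path (G : Good A RA P t C) (v : R) : ∃ h : α → R,
    (∀ x y, A x y → RA (h x) (h y)) ∧ ∃ x0 x1, (A x0 x1 ∨ A x1 x0) ∧ h x0 = v ∧
      h x1 = P.a v ∧ v ≠ P.a v := by
  obtain ⟨h, hh, x0, x1, x2, hx01, hx12, hx02, hx0, hx1⟩ := G.hpath v
  refine ⟨h, hh, x0, x1, hx01, hx0, hx1, ?_⟩
  have : h x0 ≠ h x1 := by
    apply G.adj_ne
    rcases hx01 with hxy | hxy
    · exact Or.inl (hh _ _ hxy)
    · exact Or.inr (hh _ _ hxy)
  rwa [hx0, hx1] at this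

/-- A chain vertex and a typical vertex. -/
theorem case_chain_typ (G : Good A RA P t C) (v : R) (l J j i : ℕ) (hl : l < P.g)
    (hu' : Pt.typ v J j i ∈ P.VV)
    (hlt : ∀ w, 2 * (Fintype.card α) ^ 3 * C ^ Fintype.card α *
      (Fintype.card R * P.g + P.spAll.card + P.N * P.W + 2) < P.M w * (P.g - 1)) :
    LL A RA P (Pt.typ v J j i) < LL A RA P (Pt.ch v l) := by
  obtain ⟨h, hh, x0, x1, hx, hx0, hx1, hva⟩ := G.path v
  rw [Par.mem_typ] at hu'
  have hinj : Function.Injective (fun x : ℕ × ℕ => Pt.typ (P.a v) J x.1 x.2) := by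
    rintro ⟨a, b⟩ ⟨a', b'⟩ hab
    simp only [Pt.typ.injEq] at hab
    rw [hab.2.2.1, hab.2.2.2]
  refine case_swap G h hh x0 x1 hx (Pt.ch v l) (Pt.typ v J j i) (by simp [hl]) (by simp [hu'])
    rfl hx0.symm
    ((Finset.range (P.M (P.a v)) ×ˢ (Finset.range P.g).erase l).image
      (fun x => Pt.typ (P.a v) J x.1 x.2))
    (P.chAll ∪ (P.spAll ∪ P.col l)) ?_ ?_ ?_
  · intro q hq
    rw [Finset.mem_image] at hq
    obtain ⟨⟨j1, i1⟩, hm, rfl⟩ := hq
    rw [Finset.mem_product, Finset.mem_range, Finset.mem_erase, Finset.mem_range] at hm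
    refine ⟨?_, hx1.symm, ?_, ?_⟩
    · rw [Par.mem_typ]; exact ⟨hu'.1, hm.1, hm.2.2⟩
    · simp only [Par.Ex]
      exact fun h => hm.2.1 h.2.symm
    · simp [Par.Ex]
  · intro q hq hc h1 h2
    rw [Finset.mem_union, Finset.mem_union]
    rcases q with ⟨w, J', j', x⟩ | ⟨w, m⟩ | ⟨w, J', j', s⟩
    · right; right
      simp only [Par.Ex] at h1
      rw [Par.mem_typ] at hq
      rw [Par.mem_col]
      exact ⟨h1.2.symm, hq.1, hq.2.1⟩
    · left
      rw [Par.mem_ch] at hq
      rw [Par.mem_chAll]; exact hq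
    · right; left
      rw [Par.mem_sp, ← Par.mem_spAll] at hq
      exact hq
  · rw [Finset.card_image_of_injective _ hinj, Finset.card_product, Finset.card_range,
      Finset.card_erase_of_mem (Finset.mem_range.2 hl), Finset.card_range]
    refine lt_of_le_of_lt ?_ (hlt (P.a v))
    have e1 := P.card_chAll
    have e2 := P.card_col l
    have e3 : (P.chAll ∪ (P.spAll ∪ P.col l)).card ≤
        Fintype.card R * P.g + P.spAll.card + P.N * P.W := by
      refine (Finset.card_union_le _ _).trans ?_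
      have := Finset.card_union_le P.spAll (P.col l)
      omega
    gcongr

/-- A special vertex and a typical vertex. -/
theorem case_sp_typ (G : Good A RA P t C) (v : R) (J0 j0 s0 J j i : ℕ)
    (hu : Pt.sp v J0 j0 s0 ∈ P.VV) (hu' : Pt.typ v J j i ∈ P.VV)
    (hlt : ∀ w, 2 * (Fintype.card α) ^ 3 * C ^ Fintype.card α *
      (2 * (Fintype.card R * P.g) + 2) < (P.M w - 1) * P.g) :
    LL A RA P (Pt.typ v J j i) < LL A RA P (Pt.sp v J0 j0 s0) := by
  obtain ⟨h, hh, x0, x1, hx, hx0, hx1, hva⟩ := G.path v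
  have hu1 := hu
  rw [Par.mem_typ] at hu'
  rw [Par.mem_sp] at hu
  have hinj : Function.Injective (fun x : ℕ × ℕ => Pt.typ (P.a v) J x.1 x.2) := by
    rintro ⟨a, b⟩ ⟨a', b'⟩ hab
    simp only [Pt.typ.injEq] at hab
    rw [hab.2.2.1, hab.2.2.2]
  set T := ((Finset.univ : Finset R) ×ˢ Finset.range P.g).image
      (fun x => Pt.typ x.1 J0 j0 x.2) with hT
  refine case_swap G h hh x0 x1 hx (Pt.sp v J0 j0 s0) (Pt.typ v J j i) hu1 (by simp [hu'])
    rfl hx0.symm
    (((Finset.range (P.M (P.a v))).erase j0 ×ˢ Finset.range P.g).image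
      (fun x => Pt.typ (P.a v) J x.1 x.2))
    (P.chAll ∪ T) ?_ ?_ ?_
  · intro q hq
    rw [Finset.mem_image] at hq
    obtain ⟨⟨j1, i1⟩, hm, rfl⟩ := hq
    rw [Finset.mem_product, Finset.mem_erase, Finset.mem_range, Finset.mem_range] at hm
    refine ⟨?_, hx1.symm, ?_, ?_⟩
    · rw [Par.mem_typ]; exact ⟨hu'.1, hm.1.2, hm.2⟩
    · simp only [Par.Ex]
      exact fun h => hm.1.1 h.2.2
    · simp [Par.Ex]
  · intro q hq hc h1 h2
    rw [Finset.mem_union]
    rcases q with ⟨w, J', j', x⟩ | ⟨w, m⟩ | ⟨w, J', j', s⟩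
    · right
      simp only [Par.Ex] at h1
      rw [Par.mem_typ] at hq
      obtain ⟨_, rfl, rfl⟩ := h1
      rw [hT, Finset.mem_image]
      exact ⟨(w, x), by simp [hq.2.2], rfl⟩
    · left
      rw [Par.mem_ch] at hq
      rw [Par.mem_chAll]; exact hq
    · simp only [Par.Ex] at h1
  · rw [Finset.card_image_of_injective _ hinj, Finset.card_product, Finset.card_range]
    have e0 : P.M (P.a v) - 1 ≤ ((Finset.range (P.M (P.a v))).erase j0).card := by
      have := Finset.pred_card_le_card_erase (a := j0) (s := Finset.range (P.M (P.a v)))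
      rwa [Finset.card_range] at this
    refine lt_of_lt_of_le ?_ (Nat.mul_le_mul_right _ e0)
    refine lt_of_le_of_lt ?_ (hlt (P.a v))
    have e1 := P.card_chAll
    have e2 : T.card ≤ Fintype.card R * P.g := by
      refine Finset.card_image_le.trans ?_
      simp
    have e3 : (P.chAll ∪ T).card ≤ 2 * (Fintype.card R * P.g) := by
      refine (Finset.card_union_le _ _).trans ?_
      omega
    gcongr

/-- A chain vertex and a special vertex. -/
theorem case_chain_sp (G : Good A RA P t C) (v : R) (l J0 j0 s0 km : ℕ) (hl : l < P.g)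
    (hu' : Pt.sp v J0 j0 s0 ∈ P.VV) (hkm : P.kap J0 j0 s0 ≤ km)
    (hlt : 2 * (Fintype.card α) ^ 3 * C ^ Fintype.card α *
      (Fintype.card R * (km + 1) + P.spAll.card + P.N * P.W + 2) < P.g - 1) :
    LL A RA P (Pt.sp v J0 j0 s0) < LL A RA P (Pt.ch v l) := by
  have hu1 := hu'
  rw [Par.mem_sp] at hu'
  obtain ⟨b, hb, hjb⟩ := P.exists_of_lt_Mx hu'.2.1
  obtain ⟨h, hh, x0, x1, hx, hx0, hx1, hva⟩ := G.path b
  have hinj : Function.Injective (fun x : ℕ => Pt.typ b J0 j0 x) := by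
    intro a a' hab
    simp only [Pt.typ.injEq] at hab
    exact hab.2.2.2
  set T := ((Finset.univ : Finset R) ×ˢ Finset.range (km + 1)).image
      (fun x => Pt.ch x.1 x.2) with hT
  refine case_swap G h hh x1 x0 hx.symm (Pt.ch v l) (Pt.sp v J0 j0 s0) (by simp [hl]) hu1
    rfl (by rw [hx1, hb]; rfl)
    (((Finset.range P.g).erase l).image (fun x => Pt.typ b J0 j0 x))
    (T ∪ (P.spAll ∪ P.col l)) ?_ ?_ ?_
  · intro q hq
    rw [Finset.mem_image] at hq
    obtain ⟨i1, hm, rfl⟩ := hq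
    rw [Finset.mem_erase, Finset.mem_range] at hm
    refine ⟨?_, hx0.symm, ?_, ?_⟩
    · rw [Par.mem_typ]; exact ⟨hu'.1, hjb, hm.2⟩
    · simp only [Par.Ex]
      exact fun h => hm.1 h.2.symm
    · simp [Par.Ex, hb]
  · intro q hq hc h1 h2
    rw [Finset.mem_union, Finset.mem_union]
    rcases q with ⟨w, J', j', x⟩ | ⟨w, m⟩ | ⟨w, J', j', s⟩
    · right; right
      simp only [Par.Ex] at h1
      rw [Par.mem_typ] at hq
      rw [Par.mem_col]
      exact ⟨h1.2.symm, hq.1, hq.2.1⟩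
    · left
      simp only [Par.Ex] at h2
      rw [hT, Finset.mem_image]
      refine ⟨(w, m), ?_, rfl⟩
      simp only [Finset.mem_product, Finset.mem_univ, true_and, Finset.mem_range]
      omega
    · right; left
      rw [Par.mem_sp, ← Par.mem_spAll] at hq
      exact hq
  · rw [Finset.card_image_of_injective _ hinj,
      Finset.card_erase_of_mem (Finset.mem_range.2 hl), Finset.card_range]
    refine lt_of_le_of_lt ?_ hlt
    have e1 : T.card ≤ Fintype.card R * (km + 1) := by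
      refine Finset.card_image_le.trans ?_
      simp
    have e2 := P.card_col l
    have e3 : (T ∪ (P.spAll ∪ P.col l)).card ≤
        Fintype.card R * (km + 1) + P.spAll.card + P.N * P.W := by
      refine (Finset.card_union_le _ _).trans ?_
      have := Finset.card_union_le P.spAll (P.col l)
      omega
    gcongr

end Pool.Agent.Helper808_Irr
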