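import Pool.Agent.Helper808_Irr.CaseB

namespace Pool.Agent.Helper808_Irr

open Finset Function

variable {α R : Type} [Fintype α] [DecidableEq α] [Fintype R] [DecidableEq R]
variable {A : α → α → Prop} {RA : R → R → Prop} {P : Par R} {t C : ℕ}

namespace Par

theorem mem_spB (P : Par R) (v w : R) (J J' j s : ℕ) :
    Pt.sp v J' j s ∈ P.spB w J ↔ v = w ∧ J' = J ∧ j < P.Mx w ∧ s < P.S J j := by
  simp only [spB, mem_biUnion, mem_image, mem_range, Pt.sp.injEq]
  constructor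
  · rintro ⟨j', h1, s', h2, rfl, rfl, rfl, rfl⟩
    exact ⟨rfl, rfl, h1, h2⟩
  · rintro ⟨rfl, rfl, h1, h2⟩
    exact ⟨j, h1, s, h2, rfl, rfl, rfl, rfl⟩

theorem Mx_le (P : Par R) (hMs : ∀ v, P.M v ≤ P.Ms) (v : R) : P.Mx v ≤ P.Ms := by
  unfold Mx
  exact Finset.sup_le fun b _ => hMs b

theorem card_spB (P : Par R) (hH : 1 ≤ P.H) (hMs : ∀ v, P.M v ≤ P.Ms) (v : R) (J J' : ℕ)
    (hJ : J ≤ J') : (P.spB v J).card ≤ P.Ms * (P.H ^ (J' * P.Ms) * P.H ^ P.Ms) := by
  unfold spB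
  refine Finset.card_biUnion_le.trans ?_
  refine (Finset.sum_le_card_nsmul _ _ (P.H ^ (J' * P.Ms) * P.H ^ P.Ms) ?_).trans ?_
  · intro j hj
    rw [Finset.mem_range] at hj
    refine Finset.card_image_le.trans ?_
    rw [Finset.card_range]
    unfold S
    rw [← pow_add]
    refine Nat.pow_le_pow_right hH ?_
    have := P.Mx_le hMs v
    have h2 : J * P.Ms ≤ J' * P.Ms := Nat.mul_le_mul_right _ hJ
    omega
  · rw [Finset.card_range, smul_eq_mul]
    exact Nat.mul_le_mul_right _ (P.Mx_le hMs v)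

theorem f2_zero (P : Par R) (J J' : ℕ) (b : R) (J1 j1 x : ℕ) :
    P.f2 J J' 0 0 (Pt.typ b J1 j1 x) = Pt.typ b (Equiv.swap J J' J1) j1 x := by
  simp [f2]

end Par

/-- Two typical vertices of different groups of a class. -/
theorem case_groups (G : Good A RA P t C) (v : R) (J j i J' j' i' : ℕ)
    (hu : Pt.typ v J j i ∈ P.VV) (hu' : Pt.typ v J' j' i' ∈ P.VV)
    (hMs : ∀ v, P.M v ≤ P.Ms) (hidx : J * P.Ms + j < J' * P.Ms + j') (hJ : J ≤ J')
    (hH : 4 * (2 * (Fintype.card α) ^ 3 * C ^ Fintype.card α) + 1 ≤ P.H)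
    (hN : 2 * (2 * (Fintype.card α) ^ 3 * C ^ Fintype.card α) *
      (8 * (P.W * P.g) * Fintype.card R * P.Ms * P.H ^ P.Ms + 2) < t) :
    LL A RA P (Pt.typ v J' j' i') < LL A RA P (Pt.typ v J j i) := by
  classical
  obtain ⟨h, hh, x0, x1, hx, hx0, hx1, hva⟩ := G.path v
  have hm := hu
  have hm' := hu'
  rw [Par.mem_typ] at hm hm'
  set u : Pt R := Pt.typ v J j i with hudef
  set u'' : Pt R := Pt.typ v J j' i' with hu''def
  have hu'' : u'' ∈ P.VV := by
    rw [hu''def, Par.mem_typ]; exact ⟨hm.1, hm'.2⟩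
  have hcl : u.cl = u''.cl := rfl
  set ρ : Equiv.Perm (Pt R) := (Equiv.swap u u'').trans (P.s2 J J' 0 0) with hρ
  have hρa : ∀ p, ρ p = P.f2 J J' 0 0 (Equiv.swap u u'' p) := fun p => rfl
  have hρu : ρ u = Pt.typ v J' j' i' := by
    rw [hρa, Equiv.swap_apply_left, hu''def, Par.f2_zero, swap_left']
  have hρgen : ∀ p, p ≠ u → p ≠ u'' → ρ p = P.f2 J J' 0 0 p := by
    intro p h1 h2
    rw [hρa, Equiv.swap_apply_of_ne_of_ne h1 h2]
  have hρch : ∀ w m, ρ (Pt.ch w m) = Pt.ch w m := by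
    intro w m
    rw [hρgen _ (by simp [hudef]) (by simp [hu''def])]; rfl
  have hρsp : ∀ w a b c, ρ (Pt.sp w a b c) = Pt.sp w a b c := by
    intro w a b c
    rw [hρgen _ (by simp [hudef]) (by simp [hu''def])]; rfl
  have hρtyp : ∀ b J1 j1 x, ∃ j2 x2, ρ (Pt.typ b J1 j1 x) =
      Pt.typ b (Equiv.swap J J' J1) j2 x2 := by
    intro b J1 j1 x
    by_cases h1 : Pt.typ b J1 j1 x = u
    · rw [h1, hρu]
      rw [hudef, Pt.typ.injEq] at h1
      obtain ⟨rfl, rfl, _, _⟩ := h1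
      exact ⟨j', i', by rw [swap_left']⟩
    · by_cases h2 : Pt.typ b J1 j1 x = u''
      · rw [h2, hρa, Equiv.swap_apply_right, hudef, Par.f2_zero]
        rw [hu''def, Pt.typ.injEq] at h2
        obtain ⟨rfl, rfl, _, _⟩ := h2
        exact ⟨j, i, rfl⟩
      · rw [hρgen _ h1 h2, Par.f2_zero]
        exact ⟨j1, x, rfl⟩
  set TB : Finset (Pt R) := P.blk J ∪ P.blk J' with hTB
  set SB : Finset (Pt R) := Finset.univ.biUnion (fun w => P.spB w J ∪ P.spB w J') with hSB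
  have hTC : ∀ b J1 j1 x w m, Pt.typ b J1 j1 x ≠ u →
      P.Ex (Pt.typ b J1 j1 x) (Pt.ch w m) →
      ¬ P.Ex (ρ (Pt.typ b J1 j1 x)) (ρ (Pt.ch w m)) →
      Pt.typ b J1 j1 x = u'' ∧ Pt.ch w m = Pt.ch (P.a v) i' := by
    intro b J1 j1 x w m hne h1 h2
    by_cases h3 : Pt.typ b J1 j1 x = u''
    · refine ⟨h3, ?_⟩
      rw [hu''def, Pt.typ.injEq] at h3
      obtain ⟨rfl, _, _, rfl⟩ := h3
      simp only [Par.Ex] at h1
      rw [h1.1, h1.2]
    · exfalso
      apply h2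
      rw [hρgen _ hne h3, hρch, Par.f2_zero]
      exact h1
  have hTS : ∀ b J1 j1 x w J2 j2 s, Pt.typ b J1 j1 x ∈ P.VV → Pt.sp w J2 j2 s ∈ P.VV →
      Pt.typ b J1 j1 x ≠ u →
      P.Ex (Pt.typ b J1 j1 x) (Pt.sp w J2 j2 s) →
      ¬ P.Ex (ρ (Pt.typ b J1 j1 x)) (ρ (Pt.sp w J2 j2 s)) →
      Pt.typ b J1 j1 x ∈ TB ∧ Pt.sp w J2 j2 s ∈ SB := by
    intro b J1 j1 x w J2 j2 s hp hq hne h1 h2
    have hJ1 : J1 = J ∨ J1 = J' := by
      by_contra hcon
      push Not at hcon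
      apply h2
      have h3 : Pt.typ b J1 j1 x ≠ u'' := by
        intro h3
        rw [hu''def, Pt.typ.injEq] at h3
        exact hcon.1 h3.2.1
      rw [hρgen _ hne h3, hρsp, Par.f2_zero, Equiv.swap_apply_of_ne_of_ne hcon.1 hcon.2]
      exact h1
    rw [Par.mem_typ] at hp
    rw [Par.mem_sp] at hq
    simp only [Par.Ex] at h1
    obtain ⟨_, rfl, rfl⟩ := h1
    refine ⟨?_, ?_⟩
    · rw [hTB, Finset.mem_union, Par.mem_blk, Par.mem_blk]
      rcases hJ1 with h | h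
      · exact Or.inl ⟨h, hp.2⟩
      · exact Or.inr ⟨h, hp.2⟩
    · rw [hSB, Finset.mem_biUnion]
      refine ⟨w, Finset.mem_univ _, ?_⟩
      rw [Finset.mem_union, Par.mem_spB, Par.mem_spB]
      rcases hJ1 with h | h
      · left; exact ⟨rfl, h, hq.2.1, by rw [← h]; exact hq.2.2⟩
      · right; exact ⟨rfl, h, hq.2.1, by rw [← h]; exact hq.2.2⟩
  have hinj : Function.Injective (Pt.sp (P.a v) J' j') := by
    intro a a' hab
    simp only [Pt.sp.injEq] at hab
    exact hab.2.2.2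
  refine coarse_lt G ρ ?_ ?_ h hh x0 x1 hx u (Pt.typ v J' j' i') hu hρu hx0.symm
    ((Finset.range (P.S J' j')).image (Pt.sp (P.a v) J' j'))
    ({Pt.ch (P.a v) i} ∪ (Finset.range (P.S J j)).image (Pt.sp (P.a v) J j))
    (((TB ×ˢ SB) ∪ (SB ×ˢ TB)) ∪ ({(u'', Pt.ch (P.a v) i')} ∪ {(Pt.ch (P.a v) i', u'')}))
    ?_ ?_ ?_ ?_
  · intro p
    rw [hρa]
    exact (P.s2_VV J J' 0 0 hm.1 hm'.1 _).trans (P.swap_VV hu hu'' p)
  · intro p
    rw [hρa]
    exact (P.s2_cl J J' 0 0 _).trans (Par.swap_cl hcl p)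
  · intro q hq
    rw [Finset.mem_image] at hq
    obtain ⟨s, hs, rfl⟩ := hq
    rw [Finset.mem_range] at hs
    refine ⟨?_, hx1.symm, by simp [hudef], ?_, ?_⟩
    · rw [Par.mem_sp]
      exact ⟨hm'.1, hm'.2.1.trans_le (P.le_Mx rfl), hs⟩
    · simp only [hudef, Par.Ex]
      rintro ⟨_, rfl, rfl⟩
      exact lt_irrefl _ hidx
    · rw [hρsp]; simp [Par.Ex]
  · intro q hq hc h1 h2
    rw [Finset.mem_union, Finset.mem_singleton, Finset.mem_image]
    rcases q with ⟨w, J1, j1, x⟩ | ⟨w, m⟩ | ⟨w, J1, j1, s⟩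
    · exfalso
      apply h2
      obtain ⟨j2, x2, h3⟩ := hρtyp w J1 j1 x
      rw [h3]
      simp only [hudef, Par.Ex] at h1 ⊢
      rw [← h1, swap_left']
    · left
      simp only [hudef, Par.Ex] at h1
      rw [h1.1, h1.2]
    · right
      simp only [hudef, Par.Ex] at h1
      obtain ⟨h3, rfl, rfl⟩ := h1
      rw [Par.mem_sp] at hq
      exact ⟨s, Finset.mem_range.2 hq.2.2, by rw [h3]⟩
  · intro p hp q hq hpu hqu hc h1 h2
    rw [Finset.mem_union, Finset.mem_union, Finset.mem_union, Finset.mem_product,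
      Finset.mem_product, Finset.mem_singleton, Finset.mem_singleton]
    rcases p with ⟨b, J1, j1, x⟩ | ⟨w, m⟩ | ⟨w, J1, j1, s⟩ <;>
      rcases q with ⟨b', J2, j2, x'⟩ | ⟨w', m'⟩ | ⟨w', J2, j2, s'⟩
    · exfalso
      apply h2
      obtain ⟨_, _, h3⟩ := hρtyp b J1 j1 x
      obtain ⟨_, _, h4⟩ := hρtyp b' J2 j2 x'
      rw [h3, h4]
      simp only [Par.Ex] at h1 ⊢
      rw [h1]
    · right; left
      obtain ⟨h3, h4⟩ := hTC b J1 j1 x w' m' hpu h1 h2
      rw [h3, h4]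
    · left; left
      exact hTS b J1 j1 x w' J2 j2 s' hp hq hpu h1 h2
    · right; right
      obtain ⟨h3, h4⟩ := hTC b' J2 j2 x' w m hqu (P.Ex_symm _ _ h1)
        (fun h => h2 (P.Ex_symm _ _ h))
      rw [h3, h4]
    · exfalso
      apply h2
      rw [hρch, hρch]; exact h1
    · exfalso
      apply h2
      rw [hρch, hρsp]; exact h1
    · left; right
      exact (hTS b' J2 j2 x' w J1 j1 s hq hp hqu (P.Ex_symm _ _ h1)
        (fun h => h2 (P.Ex_symm _ _ h))).symm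
    · exfalso
      apply h2
      rw [hρch, hρsp]; exact h1
    · simp only [Par.Ex] at h1
  · set Z := 2 * (Fintype.card α) ^ 3 * C ^ Fintype.card α with hZ
    have hH1 : 1 ≤ P.H := by omega
    rw [Finset.card_image_of_injective _ hinj, Finset.card_range]
    have hX : P.S J' j' = P.H ^ (J' * P.Ms + j' + 1) := rfl
    have hQc : (({Pt.ch (P.a v) i} : Finset (Pt R)) ∪
        (Finset.range (P.S J j)).image (Pt.sp (P.a v) J j)).card ≤ 2 * P.S J j := by
      refine (Finset.card_union_le _ _).trans ?_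
      have h1 : ((Finset.range (P.S J j)).image (Pt.sp (P.a v) J j)).card ≤ P.S J j := by
        refine Finset.card_image_le.trans ?_
        rw [Finset.card_range]
      have h2 : 1 ≤ P.S J j := Nat.one_le_pow _ _ hH1
      rw [Finset.card_singleton]
      omega
    have hTBc : TB.card ≤ 2 * (P.W * P.g) := by
      refine (Finset.card_union_le _ _).trans ?_
      have := P.card_blk J
      have := P.card_blk J'
      omega
    have hSBc : SB.card ≤ Fintype.card R * (2 * (P.Ms * (P.H ^ (J' * P.Ms) * P.H ^ P.Ms))) := by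
      rw [hSB]
      refine Finset.card_biUnion_le.trans ?_
      refine (Finset.sum_le_card_nsmul _ _
        (2 * (P.Ms * (P.H ^ (J' * P.Ms) * P.H ^ P.Ms))) ?_).trans ?_
      · intro w _
        refine (Finset.card_union_le _ _).trans ?_
        have h1 := P.card_spB hH1 hMs w J J' hJ
        have h2 := P.card_spB hH1 hMs w J' J' le_rfl
        omega
      · simp
    have hCc : (((TB ×ˢ SB) ∪ (SB ×ˢ TB)) ∪
        ({(u'', Pt.ch (P.a v) i')} ∪ {(Pt.ch (P.a v) i', u'')})).card ≤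
        2 * (TB.card * SB.card) + 2 := by
      refine (Finset.card_union_le _ _).trans ?_
      have h1 := Finset.card_union_le (TB ×ˢ SB) (SB ×ˢ TB)
      rw [Finset.card_product, Finset.card_product] at h1
      have h2 := Finset.card_union_le ({(u'', Pt.ch (P.a v) i')} : Finset (Pt R × Pt R))
        {(Pt.ch (P.a v) i', u'')}
      rw [Finset.card_singleton, Finset.card_singleton] at h2
      have h3 : SB.card * TB.card = TB.card * SB.card := mul_comm _ _
      omega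
    have hSS : P.H * P.S J j ≤ P.S J' j' := by
      unfold Par.S
      rw [← pow_succ']
      exact Nat.pow_le_pow_right hH1 (by omega)
    have hS0 : P.H ^ (J' * P.Ms) ≤ P.S J' j' := by
      unfold Par.S
      exact Nat.pow_le_pow_right hH1 (by omega)
    have e1 : 2 * (Z * (({Pt.ch (P.a v) i} : Finset (Pt R)) ∪
        (Finset.range (P.S J j)).image (Pt.sp (P.a v) J j)).card * t) ≤ P.S J' j' * t := by
      have : 2 * (Z * (({Pt.ch (P.a v) i} : Finset (Pt R)) ∪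
        (Finset.range (P.S J j)).image (Pt.sp (P.a v) J j)).card) ≤ P.S J' j' := by
        calc 2 * (Z * (({Pt.ch (P.a v) i} : Finset (Pt R)) ∪
              (Finset.range (P.S J j)).image (Pt.sp (P.a v) J j)).card)
            ≤ 2 * (Z * (2 * P.S J j)) := by gcongr
          _ = (4 * Z) * P.S J j := by ring
          _ ≤ P.H * P.S J j := Nat.mul_le_mul_right _ (by omega)
          _ ≤ P.S J' j' := hSS
      nlinarith [this, Nat.zero_le t]
    have e2 : 2 * (Z * (((TB ×ˢ SB) ∪ (SB ×ˢ TB)) ∪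
        ({(u'', Pt.ch (P.a v) i')} ∪ {(Pt.ch (P.a v) i', u'')})).card) < P.S J' j' * t := by
      have hp0 : 0 < P.H ^ (J' * P.Ms) := Nat.pow_pos hH1
      calc 2 * (Z * (((TB ×ˢ SB) ∪ (SB ×ˢ TB)) ∪
            ({(u'', Pt.ch (P.a v) i')} ∪ {(Pt.ch (P.a v) i', u'')})).card)
          ≤ 2 * (Z * (2 * (TB.card * SB.card) + 2)) := by gcongr
        _ ≤ 2 * (Z * (2 * ((2 * (P.W * P.g)) *
            (Fintype.card R * (2 * (P.Ms * (P.H ^ (J' * P.Ms) * P.H ^ P.Ms))))) + 2)) := by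
            gcongr
        _ ≤ 2 * (Z * (2 * ((2 * (P.W * P.g)) *
            (Fintype.card R * (2 * (P.Ms * (P.H ^ (J' * P.Ms) * P.H ^ P.Ms))))) +
              P.H ^ (J' * P.Ms) * 2)) := by
            gcongr
            omega
        _ = P.H ^ (J' * P.Ms) * (2 * Z *
            (8 * (P.W * P.g) * Fintype.card R * P.Ms * P.H ^ P.Ms + 2)) := by ring
        _ < P.H ^ (J' * P.Ms) * t := Nat.mul_lt_mul_of_pos_left hN hp0
        _ ≤ P.S J' j' * t := Nat.mul_le_mul_right _ hS0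
    have e3 : Z * ((({Pt.ch (P.a v) i} : Finset (Pt R)) ∪
        (Finset.range (P.S J j)).image (Pt.sp (P.a v) J j)).card * t +
        (((TB ×ˢ SB) ∪ (SB ×ˢ TB)) ∪
        ({(u'', Pt.ch (P.a v) i')} ∪ {(Pt.ch (P.a v) i', u'')})).card) =
        Z * (({Pt.ch (P.a v) i} : Finset (Pt R)) ∪
        (Finset.range (P.S J j)).image (Pt.sp (P.a v) J j)).card * t +
        Z * (((TB ×ˢ SB) ∪ (SB ×ˢ TB)) ∪
        ({(u'', Pt.ch (P.a v) i')} ∪ {(Pt.ch (P.a v) i', u'')})).card := by ring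
    rw [e3]
    omega

end Pool.Agent.Helper808_Irr
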