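import Pool.Agent.Helper808_Irr.CaseC

namespace Pool.Agent.Helper808_Irr

open Finset Function

variable {α R : Type} [Fintype α] [DecidableEq α] [Fintype R] [DecidableEq R]
variable {A : α → α → Prop} {RA : R → R → Prop} {P : Par R} {t C : ℕ}

/-- Common part of the comparison of two special vertices. -/
theorem case_sp_core (G : Good A RA P t C)
    (h : α → R) (hh : ∀ x y, A x y → RA (h x) (h y)) (x0 x1 : α) (hx : A x0 x1 ∨ A x1 x0)
    (v : R) (J j s J' j' s' : ℕ) (hu : Pt.sp v J j s ∈ P.VV) (hu' : Pt.sp v J' j' s' ∈ P.VV)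
    (hux : v = h x0) (Qm Qp : Finset (Pt R))
    (hQm : ∀ q ∈ Qm, q ∈ P.VV ∧ q.cl = h x1 ∧ ¬ P.Ex (Pt.sp v J j s) q ∧
      P.Ex (Pt.sp v J' j' s') (P.f2 J J' j j' q))
    (hQp : ∀ q ∈ P.VV, q.cl ≠ v → P.Ex (Pt.sp v J j s) q →
      ¬ P.Ex (Pt.sp v J' j' s') (P.f2 J J' j j' q) → q ∈ Qp)
    (hlt : 2 * (Fintype.card α) ^ 3 * C ^ Fintype.card α * (Qp.card + 2 * (P.spAll.card * C)) <
      Qm.card) :
    LL A RA P (Pt.sp v J' j' s') < LL A RA P (Pt.sp v J j s) := by
  classical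
  have hm := hu
  have hm' := hu'
  rw [Par.mem_sp] at hm hm'
  have hcx : h x0 ≠ h x1 := by
    apply G.adj_ne
    rcases hx with hxy | hxy
    · exact Or.inl (hh _ _ hxy)
    · exact Or.inr (hh _ _ hxy)
  set u : Pt R := Pt.sp v J j s with hudef
  set u' : Pt R := Pt.sp v J' j' s' with hu'def
  set ρ : Equiv.Perm (Pt R) := (Equiv.swap u u').trans (P.s2 J J' j j') with hρ
  have hρa : ∀ p, ρ p = P.f2 J J' j j' (Equiv.swap u u' p) := fun p => rfl
  have hρu : ρ u = u' := by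
    rw [hρa, Equiv.swap_apply_left]; rfl
  have hρgen : ∀ p, p ≠ u → p ≠ u' → ρ p = P.f2 J J' j j' p := by
    intro p h1 h2
    rw [hρa, Equiv.swap_apply_of_ne_of_ne h1 h2]
  have hρch : ∀ w m, ρ (Pt.ch w m) = Pt.ch w m := by
    intro w m
    rw [hρgen _ (by simp [hudef]) (by simp [hu'def])]; rfl
  have hρtyp : ∀ b J1 j1 x, ρ (Pt.typ b J1 j1 x) = P.f2 J J' j j' (Pt.typ b J1 j1 x) := by
    intro b J1 j1 x
    rw [hρgen _ (by simp [hudef]) (by simp [hu'def])]
  have hcl : u.cl = u'.cl := rfl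
  have hfix : ∀ q : Pt R, q.cl ≠ v → ρ q = P.f2 J J' j j' q := by
    intro q hq
    apply hρgen
    · rintro rfl; exact hq rfl
    · rintro rfl; exact hq rfl
  refine coarse_lt G ρ ?_ ?_ h hh x0 x1 hx u u' hu hρu hux Qm Qp
    ((P.spAll ×ˢ P.VV) ∪ (P.VV ×ˢ P.spAll)) ?_ ?_ ?_ ?_
  · intro p
    rw [hρa]
    exact (P.s2_VV J J' j j' hm.1 hm'.1 _).trans (P.swap_VV hu hu' p)
  · intro p
    rw [hρa]
    exact (P.s2_cl J J' j j' _).trans (Par.swap_cl hcl p)
  · intro q hq
    obtain ⟨h1, h2, h3, h4⟩ := hQm q hq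
    have hne : q.cl ≠ v := by rw [h2, hux]; exact hcx.symm
    refine ⟨h1, h2, ?_, h3, ?_⟩
    · rintro rfl; exact hne rfl
    · rw [hfix q hne]; exact h4
  · intro q hq hc h1 h2
    have hne : q.cl ≠ v := (G.adj_ne hc).symm
    rw [hfix q hne] at h2
    exact hQp q hq hne h1 h2
  · intro p hp q hq hpu hqu hc h1 h2
    rw [Finset.mem_union, Finset.mem_product, Finset.mem_product]
    rcases p with ⟨b, J1, j1, x⟩ | ⟨w, m⟩ | ⟨w, J1, j1, s1⟩ <;>
      rcases q with ⟨b', J2, j2, x'⟩ | ⟨w', m'⟩ | ⟨w', J2, j2, s2⟩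
    · exfalso
      apply h2
      rw [hρtyp, hρtyp]
      simp only [Par.Ex, Par.f2] at h1 ⊢
      rw [h1]
    · exfalso
      apply h2
      rw [hρtyp, hρch]
      simp only [Par.Ex, Par.f2] at h1 ⊢
      exact h1
    · right
      rw [Par.mem_sp, ← Par.mem_spAll] at hq
      exact ⟨hp, hq⟩
    · exfalso
      apply h2
      rw [hρtyp, hρch]
      simp only [Par.Ex, Par.f2] at h1 ⊢
      exact h1
    · exfalso
      apply h2
      rw [hρch, hρch]
      exact h1
    · right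
      rw [Par.mem_sp, ← Par.mem_spAll] at hq
      exact ⟨hp, hq⟩
    · left
      rw [Par.mem_sp, ← Par.mem_spAll] at hp
      exact ⟨hp, hq⟩
    · left
      rw [Par.mem_sp, ← Par.mem_spAll] at hp
      exact ⟨hp, hq⟩
    · left
      rw [Par.mem_sp, ← Par.mem_spAll] at hp
      exact ⟨hp, hq⟩
  · have e1 : ((P.spAll ×ˢ P.VV) ∪ (P.VV ×ˢ P.spAll)).card ≤
        2 * (P.spAll.card * (C * t)) := by
      refine (Finset.card_union_le _ _).trans ?_
      simp only [Finset.card_product]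
      have := Nat.mul_le_mul_left P.spAll.card G.hnC
      have h3 : P.VV.card * P.spAll.card = P.spAll.card * P.VV.card := mul_comm _ _
      omega
    calc 2 * (Fintype.card α) ^ 3 * C ^ Fintype.card α *
          (Qp.card * t + ((P.spAll ×ˢ P.VV) ∪ (P.VV ×ˢ P.spAll)).card)
        ≤ 2 * (Fintype.card α) ^ 3 * C ^ Fintype.card α *
          (Qp.card * t + 2 * (P.spAll.card * (C * t))) := by gcongr
      _ = 2 * (Fintype.card α) ^ 3 * C ^ Fintype.card α *
          (Qp.card + 2 * (P.spAll.card * C)) * t := by ring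
      _ < Qm.card * t := Nat.mul_lt_mul_of_pos_right hlt G.ht

/-- Special vertices excluded by different sets of classes. -/
theorem case_sp_one (G : Good A RA P t C) (v b0 : R) (J j s J' j' s' km : ℕ)
    (hu : Pt.sp v J j s ∈ P.VV) (hu' : Pt.sp v J' j' s' ∈ P.VV)
    (hb : P.a b0 = v) (hj' : j' < P.M b0) (hj : P.M b0 ≤ j) (hkm : P.kap J' j' s' ≤ km)
    (hlt : 2 * (Fintype.card α) ^ 3 * C ^ Fintype.card α *
      (Fintype.card R * (km + 1) + 2 * (P.spAll.card * C)) < P.g) :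
    LL A RA P (Pt.sp v J' j' s') < LL A RA P (Pt.sp v J j s) := by
  obtain ⟨h, hh, x0, x1, hx, hx0, hx1, hva⟩ := G.path b0
  have hm := hu
  have hm' := hu'
  rw [Par.mem_sp] at hm hm'
  have hinj : Function.Injective (Pt.typ b0 J j') := by
    intro a a' hab
    simp only [Pt.typ.injEq] at hab
    exact hab.2.2.2
  set T := ((Finset.univ : Finset R) ×ˢ Finset.range (km + 1)).image
      (fun x => Pt.ch x.1 x.2) with hT
  refine case_sp_core G h hh x1 x0 hx.symm v J j s J' j' s' hu hu' (by rw [hx1, hb])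
    ((Finset.range P.g).image (Pt.typ b0 J j')) T ?_ ?_ ?_
  · intro q hq
    rw [Finset.mem_image] at hq
    obtain ⟨x, hx', rfl⟩ := hq
    rw [Finset.mem_range] at hx'
    refine ⟨?_, hx0.symm, ?_, ?_⟩
    · rw [Par.mem_typ]; exact ⟨hm.1, hj', hx'⟩
    · simp only [Par.Ex]
      rintro ⟨_, _, h3⟩
      omega
    · simp only [Par.f2, swap_left']
      rw [if_neg (by omega)]
      simp only [Par.Ex]
      exact ⟨hb, trivial, trivial⟩
  · intro q hq hc h1 h2
    rcases q with ⟨w, J1, j1, x⟩ | ⟨w, m⟩ | ⟨w, J1, j1, s1⟩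
    · exfalso
      apply h2
      simp only [Par.Ex] at h1
      obtain ⟨h3, rfl, rfl⟩ := h1
      rw [Par.mem_typ] at hq
      simp only [Par.f2, swap_left']
      rw [if_pos ⟨hq.2.1, by omega⟩]
      simp only [Par.Ex]
      exact ⟨h3, trivial, trivial⟩
    · simp only [Par.Ex, Par.f2] at h2
      rw [hT, Finset.mem_image]
      refine ⟨(w, m), ?_, rfl⟩
      simp only [Finset.mem_product, Finset.mem_univ, true_and, Finset.mem_range]
      omega
    · simp only [Par.Ex] at h1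
  · rw [Finset.card_image_of_injective _ hinj, Finset.card_range]
    refine lt_of_le_of_lt ?_ hlt
    have e1 : T.card ≤ Fintype.card R * (km + 1) := by
      refine Finset.card_image_le.trans ?_
      simp
    gcongr

/-- Special vertices excluded by the same classes. -/
theorem case_sp_two (G : Good A RA P t C) (v : R) (J j s J' j' s' : ℕ)
    (hu : Pt.sp v J j s ∈ P.VV) (hu' : Pt.sp v J' j' s' ∈ P.VV)
    (hno : ∀ b, P.a b = v → j < P.M b → j' < P.M b)
    (hkap : P.kap J' j' s' < P.kap J j s) (hg : P.kap J j s < P.g)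
    (hlt : 2 * (Fintype.card α) ^ 3 * C ^ Fintype.card α *
      (2 * (P.spAll.card * C)) < P.C4) :
    LL A RA P (Pt.sp v J' j' s') < LL A RA P (Pt.sp v J j s) := by
  obtain ⟨h, hh, x0, x1, hx, hx0, hx1, hva⟩ := G.path v
  have hinj : Function.Injective (Pt.ch (P.a v)) := by
    intro a a' hab
    simpa using hab
  refine case_sp_core G h hh x0 x1 hx v J j s J' j' s' hu hu' hx0.symm
    ((Finset.Ioc (P.kap J' j' s') (P.kap J j s)).image (Pt.ch (P.a v))) ∅ ?_ ?_ ?_
  · intro q hq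
    rw [Finset.mem_image] at hq
    obtain ⟨m, hm, rfl⟩ := hq
    rw [Finset.mem_Ioc] at hm
    refine ⟨?_, hx1.symm, ?_, ?_⟩
    · rw [Par.mem_ch]; omega
    · simp only [Par.Ex]; omega
    · simp only [Par.Ex, Par.f2]; omega
  · intro q hq hc h1 h2
    exfalso
    apply h2
    rcases q with ⟨w, J1, j1, x⟩ | ⟨w, m⟩ | ⟨w, J1, j1, s1⟩
    · simp only [Par.Ex] at h1
      obtain ⟨h3, rfl, rfl⟩ := h1
      rw [Par.mem_typ] at hq
      simp only [Par.f2, swap_left']
      rw [if_pos ⟨hq.2.1, hno w h3 hq.2.1⟩]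
      simp only [Par.Ex, swap_left']
      exact ⟨h3, trivial, trivial⟩
    · simp only [Par.Ex, Par.f2] at h1 ⊢
      omega
    · simp only [Par.Ex] at h1
  · rw [Finset.card_image_of_injective _ hinj, Nat.card_Ioc, Finset.card_empty, zero_add]
    refine lt_of_lt_of_le hlt ?_
    unfold Par.kap at hkap ⊢
    rw [← Nat.mul_sub]
    have h0 : 0 < P.C4 := by
      rcases Nat.eq_zero_or_pos P.C4 with h | h
      · rw [h] at hkap; simp at hkap
      · exact h
    have h1 : Nat.pair J' (Nat.pair j' s') < Nat.pair J (Nat.pair j s) :=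
      lt_of_mul_lt_mul_left hkap (Nat.zero_le _)
    have h2 : 1 ≤ Nat.pair J (Nat.pair j s) - Nat.pair J' (Nat.pair j' s') := by omega
    calc P.C4 = P.C4 * 1 := (mul_one _).symm
      _ ≤ _ := Nat.mul_le_mul_left _ h2

/-- Two special vertices of the same class. -/
theorem case_sp (G : Good A RA P t C) (v : R) (J j s J' j' s' km : ℕ)
    (hu : Pt.sp v J j s ∈ P.VV) (hu' : Pt.sp v J' j' s' ∈ P.VV)
    (hne : Pt.sp v J j s ≠ Pt.sp v J' j' s') (hC4 : 0 < P.C4)
    (hk : P.kap J j s ≤ km) (hk' : P.kap J' j' s' ≤ km)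
    (hlt1 : 2 * (Fintype.card α) ^ 3 * C ^ Fintype.card α *
      (Fintype.card R * (km + 1) + 2 * (P.spAll.card * C)) < P.g) (hg : km < P.g)
    (hlt2 : 2 * (Fintype.card α) ^ 3 * C ^ Fintype.card α *
      (2 * (P.spAll.card * C)) < P.C4) :
    LL A RA P (Pt.sp v J j s) ≠ LL A RA P (Pt.sp v J' j' s') := by
  by_cases h1 : ∃ b, P.a b = v ∧ j' < P.M b ∧ P.M b ≤ j
  · obtain ⟨b, hb, h2, h3⟩ := h1
    exact (case_sp_one G v b J j s J' j' s' km hu hu' hb h2 h3 hk' hlt1).ne'
  by_cases h2 : ∃ b, P.a b = v ∧ j < P.M b ∧ P.M b ≤ j'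
  · obtain ⟨b, hb, h3, h4⟩ := h2
    exact (case_sp_one G v b J' j' s' J j s km hu' hu hb h3 h4 hk hlt1).ne
  push Not at h1 h2
  have hkne : P.kap J j s ≠ P.kap J' j' s' := by
    intro h
    obtain ⟨rfl, rfl, rfl⟩ := P.kap_inj hC4 h
    exact hne rfl
  rcases lt_or_gt_of_ne hkne with h | h
  · exact (case_sp_two G v J' j' s' J j s hu' hu
      (fun b hb hj => by
        by_contra hc
        have := h1 b hb hj
        omega) h (by omega) hlt2).ne
  · exact (case_sp_two G v J j s J' j' s' hu hu'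
      (fun b hb hj => by
        by_contra hc
        have := h2 b hb hj
        omega) h (by omega) hlt2).ne'

end Pool.Agent.Helper808_Irr
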