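import Pool.Agent.Helper808_Irr.Count

namespace Pool.Agent.Helper808_Irr

open Finset Function

variable {α P : Type} [Fintype α] [DecidableEq α] [DecidableEq P]

/-- Splitting of the difference of the two counts. -/
theorem L_sub (A : α → α → Prop) (VV : Finset P) (G G' : P → P → Prop) (u : P)
    (Am : Finset (α → P)) (hAm : Am ⊆ EmbAt A VV G u) (hAm' : ∀ f ∈ Am, f ∉ Emb A VV G')
    (X : Finset (α → P)) (hX : ∀ f ∈ EmbAt A VV G' u, f ∉ Emb A VV G → f ∈ X) :
    (Am.card : ℝ) - X.card ≤ (L A VV G u : ℝ) - L A VV G' u := by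
  classical
  have h1 : EmbAt A VV G' u ⊆ (EmbAt A VV G u ∩ EmbAt A VV G' u) ∪ X := by
    intro f hf
    by_cases h : f ∈ Emb A VV G
    · refine Finset.mem_union_left _ (Finset.mem_inter.2 ⟨?_, hf⟩)
      exact mem_EmbAt.2 ⟨h, (mem_EmbAt.1 hf).2⟩
    · exact Finset.mem_union_right _ (hX f hf h)
  have h2 : Disjoint Am (EmbAt A VV G u ∩ EmbAt A VV G' u) := by
    rw [Finset.disjoint_left]
    intro f hf hf'
    exact hAm' f hf (mem_EmbAt.1 (Finset.mem_inter.1 hf').2).1
  have h3 : Am ∪ (EmbAt A VV G u ∩ EmbAt A VV G' u) ⊆ EmbAt A VV G u :=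
    Finset.union_subset hAm Finset.inter_subset_left
  have h4 := Finset.card_le_card h3
  rw [Finset.card_union_of_disjoint h2] at h4
  have h5 := (Finset.card_le_card h1).trans (Finset.card_union_le _ _)
  unfold L
  have h4' : (Am.card : ℝ) + (EmbAt A VV G u ∩ EmbAt A VV G' u).card ≤
      (EmbAt A VV G u).card := by exact_mod_cast h4
  have h5' : ((EmbAt A VV G' u).card : ℝ) ≤
      (EmbAt A VV G u ∩ EmbAt A VV G' u).card + X.card := by exact_mod_cast h5
  linarith

/-- The coarse comparison. -/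
theorem coarse (A : α → α → Prop) (hA : ∀ x, ¬ A x x) (VV : Finset P) (hn : 0 < VV.card)
    (G G' : P → P → Prop) (u : P) (Qp : Finset P) (Cp : Finset (P × P))
    (hQ : ∀ q ∈ VV, (G' u q ∧ ¬ G u q) ∨ (G' q u ∧ ¬ G q u) → q ∈ Qp)
    (hC : ∀ p ∈ VV, ∀ q ∈ VV, p ≠ u → q ≠ u → G' p q → ¬ G p q → (p, q) ∈ Cp)
    (Am : Finset (α → P)) (hAm : Am ⊆ EmbAt A VV G u)
    (hAm' : ∀ f ∈ Am, f ∉ Emb A VV G') :
    (Am.card : ℝ) - ((Fintype.card α : ℝ) ^ 2 * Qp.card *
        ((VV.card : ℝ) ^ Fintype.card α / (VV.card : ℝ) ^ 2) +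
      (Fintype.card α : ℝ) ^ 3 * Cp.card *
        ((VV.card : ℝ) ^ Fintype.card α / (VV.card : ℝ) ^ 3)) ≤
      (L A VV G u : ℝ) - L A VV G' u := by
  classical
  set X := (EmbAt A VV G' u).filter (fun f => f ∉ Emb A VV G) with hXdef
  set X1 := X.filter (fun f => ∃ x y, x ≠ y ∧ f x = u ∧ f y ∈ Qp) with hX1
  set X2 := X.filter (fun f => ∃ x y z, x ≠ y ∧ z ≠ x ∧ z ≠ y ∧ f z = u ∧ (f x, f y) ∈ Cp)
    with hX2
  have hXsub : X ⊆ Fintype.piFinset fun _ => VV := by
    intro f hf
    exact Emb_sub A VV G' (mem_EmbAt.1 (Finset.mem_filter.1 hf).1).1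
  have hcov : X ⊆ X1 ∪ X2 := by
    intro f hf
    have hf' := Finset.mem_filter.1 hf
    obtain ⟨hfG', z, hz⟩ := mem_EmbAt.1 hf'.1
    obtain ⟨hV, hinj, harc⟩ := mem_Emb.1 hfG'
    have hne := hf'.2
    rw [mem_Emb] at hne
    push Not at hne
    obtain ⟨x, y, hxy, hG⟩ := hne hV hinj
    have hxy' : x ≠ y := by
      rintro rfl; exact hA _ hxy
    by_cases hx : f x = u
    · refine Finset.mem_union_left _ (Finset.mem_filter.2 ⟨hf, x, y, hxy', hx, ?_⟩)
      refine hQ _ (hV y) (Or.inl ?_)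
      rw [← hx]; exact ⟨harc x y hxy, hG⟩
    · by_cases hy : f y = u
      · refine Finset.mem_union_left _ (Finset.mem_filter.2 ⟨hf, y, x, hxy'.symm, hy, ?_⟩)
        refine hQ _ (hV x) (Or.inr ?_)
        rw [← hy]; exact ⟨harc x y hxy, hG⟩
      · refine Finset.mem_union_right _ (Finset.mem_filter.2 ⟨hf, x, y, z, hxy', ?_, ?_, hz, ?_⟩)
        · rintro rfl; exact hx hz
        · rintro rfl; exact hy hz
        · exact hC _ (hV x) _ (hV y) hx hy (harc x y hxy) hG
  have hb1 := bound2 VV hn X1 ((Finset.filter_subset _ _).trans hXsub) u Qp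
    (fun f hf => (Finset.mem_filter.1 hf).2)
  have hb2 := bound3 VV hn X2 ((Finset.filter_subset _ _).trans hXsub) u Cp
    (fun f hf => (Finset.mem_filter.1 hf).2)
  have hcard : (X.card : ℝ) ≤ X1.card + X2.card := by
    exact_mod_cast (Finset.card_le_card hcov).trans (Finset.card_union_le _ _)
  have hm := L_sub A VV G G' u Am hAm hAm' X (by
    intro f hf hf'
    exact Finset.mem_filter.2 ⟨hf, hf'⟩)
  linarith

/-- The fine comparison. -/
theorem fine (A : α → α → Prop) (hA : ∀ x, ¬ A x x) (VV : Finset P) (hn : 0 < VV.card)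
    (G G' : P → P → Prop) (u z z' : P) (hzV : z ∈ VV) (huz : u ≠ z) (huz' : u ≠ z')
    (hzz' : z ≠ z') (D Bd : Finset P)
    (h1 : ∀ p ∈ VV, ∀ q ∈ VV, G' p q → ¬ G p q → (p = z' ∧ q ∈ D) ∨ (q = z' ∧ p ∈ D))
    (h2 : ¬ G' u z' ∧ ¬ G' z' u)
    (h3 : ∀ q ∈ VV, q ∉ Bd → q ≠ z → (G' z' q → G z q) ∧ (G' q z' → G q z))
    (h4 : ∀ q ∈ D, ¬ G' z q ∧ ¬ G' q z)
    (hDu : u ∉ D) (hDz : z ∉ D) (hDz' : z' ∉ D) (hBu : u ∉ Bd) (hBz' : z' ∉ Bd)
    (hBD : ∀ q ∈ Bd, q ∉ D)
    (Am : Finset (α → P)) (hAm : Am ⊆ EmbAt A VV G u)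
    (hAm' : ∀ f ∈ Am, f ∉ Emb A VV G')
    (hAm2 : ∀ f ∈ Am, ∃ x y, (A x y ∨ A y x) ∧ f x = u ∧ f y = z) :
    (Am.card : ℝ) - (Fintype.card α : ℝ) ^ 4 * (D.card * (Bd.card + 1 : ℕ)) *
        ((VV.card : ℝ) ^ Fintype.card α / (VV.card : ℝ) ^ 4) ≤
      (L A VV G u : ℝ) - L A VV G' u := by
  classical
  set X := (EmbAt A VV G' u).filter (fun f => f ∉ Emb A VV G) with hXdef
  set Bad := X.filter (fun f => ∃ w, f w ∈ insert z Bd) with hBad
  have hXsub : X ⊆ Fintype.piFinset fun _ => VV := by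
    intro f hf
    exact Emb_sub A VV G' (mem_EmbAt.1 (Finset.mem_filter.1 hf).1).1
  -- every element of `X` uses a pair between `z'` and `D`
  have key : ∀ f ∈ X, ∃ x y, (A x y ∨ A y x) ∧ f x = z' ∧ f y ∈ D := by
    intro f hf
    have hf' := Finset.mem_filter.1 hf
    obtain ⟨hfG', z, hz⟩ := mem_EmbAt.1 hf'.1
    obtain ⟨hV, hinj, harc⟩ := mem_Emb.1 hfG'
    have hne := hf'.2
    rw [mem_Emb] at hne
    push Not at hne
    obtain ⟨x, y, hxy, hG⟩ := hne hV hinj
    rcases h1 _ (hV x) _ (hV y) (harc x y hxy) hG with h | h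
    · exact ⟨x, y, Or.inl hxy, h.1, h.2⟩
    · exact ⟨y, x, Or.inr hxy, h.1, h.2⟩
  have hbad := bound4 VV hn Bad ((Finset.filter_subset _ _).trans hXsub) u z' D (insert z Bd)
    (by
      intro f hf
      have hf1 := (Finset.mem_filter.1 hf).1
      obtain ⟨w, hw⟩ := (Finset.mem_filter.1 hf).2
      obtain ⟨x, y, _, hx, hy⟩ := key f hf1
      obtain ⟨_, a, ha⟩ := mem_EmbAt.1 (Finset.mem_filter.1 hf1).1
      refine ⟨a, x, y, w, ?_, ?_, ?_, ?_, ?_, ?_, ha, hx, hy, hw⟩
      · rintro rfl; exact huz' (ha.symm.trans hx)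
      · rintro rfl; exact hDu (ha ▸ hy)
      · rintro rfl
        rw [ha] at hw
        rcases Finset.mem_insert.1 hw with h | h
        · exact huz h
        · exact hBu h
      · rintro rfl; exact hDz' (hx ▸ hy)
      · rintro rfl
        rw [hx] at hw
        rcases Finset.mem_insert.1 hw with h | h
        · exact hzz' h.symm
        · exact hBz' h
      · rintro rfl
        rcases Finset.mem_insert.1 hw with h | h
        · exact hDz (h ▸ hy)
        · exact hBD _ h hy)
  -- the good ones are swapped into embeddings for `G`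
  let Y := ((EmbAt A VV G u).filter (fun f => f ∉ Emb A VV G')) \ Am
  let sw : (α → P) → (α → P) := fun f a => Equiv.swap z z' (f a)
  have hsw : Injective sw := by
    intro f f' h
    funext a
    have := congrFun h a
    exact (Equiv.swap z z').injective this
  have himg : ((X \ Bad).image sw) ⊆ Y := by
    intro f' hf'
    obtain ⟨f, hf, rfl⟩ := Finset.mem_image.1 hf'
    obtain ⟨hfX, hfB⟩ := Finset.mem_sdiff.1 hf
    have hgood : ∀ w, f w ∉ insert z Bd := by
      intro w hw
      exact hfB (Finset.mem_filter.2 ⟨hfX, w, hw⟩)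
    have hnz : ∀ w, f w ≠ z := fun w h => hgood w (by rw [h]; exact Finset.mem_insert_self _ _)
    have hnB : ∀ w, f w ∉ Bd := fun w h => hgood w (Finset.mem_insert_of_mem h)
    obtain ⟨hfG', a, ha⟩ := mem_EmbAt.1 (Finset.mem_filter.1 hfX).1
    obtain ⟨hV, hinj, harc⟩ := mem_Emb.1 hfG'
    have hval : ∀ w, f w ≠ z' → sw f w = f w := by
      intro w hw
      exact Equiv.swap_apply_of_ne_of_ne (hnz w) hw
    have hval' : ∀ w, f w = z' → sw f w = z := by
      intro w hw
      change Equiv.swap z z' (f w) = z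
      rw [hw]; exact Equiv.swap_apply_right _ _
    have hE : sw f ∈ Emb A VV G := by
      rw [mem_Emb]
      refine ⟨?_, ?_, ?_⟩
      · intro w
        by_cases hw : f w = z'
        · rw [hval' w hw]; exact hzV
        · rw [hval w hw]; exact hV w
      · intro x y hxy
        exact hinj ((Equiv.swap z z').injective hxy)
      · intro x y hxy
        have harc' := harc x y hxy
        by_cases hx : f x = z'
        · have hy : f y ≠ z' := by
            intro hy
            have : x = y := hinj (hx.trans hy.symm)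
            subst this
            exact hA _ hxy
          rw [hval' x hx, hval y hy]
          rw [hx] at harc'
          exact (h3 (f y) (hV y) (hnB y) (hnz y)).1 harc'
        · by_cases hy : f y = z'
          · rw [hval' y hy, hval x hx]
            rw [hy] at harc'
            exact (h3 (f x) (hV x) (hnB x) (hnz x)).2 harc'
          · rw [hval x hx, hval y hy]
            by_contra hG
            rcases h1 _ (hV x) _ (hV y) harc' hG with h | h
            · exact hx h.1
            · exact hy h.1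
    have hE' : sw f ∉ Emb A VV G' := by
      intro h
      obtain ⟨x, y, hA, hx, hy⟩ := key f hfX
      obtain ⟨_, _, harc''⟩ := mem_Emb.1 h
      have hyz : f y ≠ z' := by
        intro h'; exact hDz' (h' ▸ hy)
      rcases hA with hA | hA
      · have := harc'' x y hA
        rw [hval' x hx, hval y hyz] at this
        exact (h4 _ hy).1 this
      · have := harc'' y x hA
        rw [hval' x hx, hval y hyz] at this
        exact (h4 _ hy).2 this
    have hau : sw f a = u := by
      rw [hval a (by rw [ha]; exact huz'), ha]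
    refine Finset.mem_sdiff.2 ⟨Finset.mem_filter.2 ⟨mem_EmbAt.2 ⟨hE, a, hau⟩, hE'⟩, ?_⟩
    intro hAmf
    obtain ⟨x, y, hA, hx, hy⟩ := hAm2 _ hAmf
    have hy' : f y = z' := by
      by_contra h
      rw [hval y h] at hy
      exact hnz y hy
    have hx' : f x = u := by
      by_cases h : f x = z'
      · rw [hval' x h] at hx; exact absurd hx.symm huz
      · rw [hval x h] at hx; exact hx
    rcases hA with hA | hA
    · have := harc x y hA
      rw [hx', hy'] at this
      exact h2.1 this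
    · have := harc y x hA
      rw [hx', hy'] at this
      exact h2.2 this
  have hXY : ((X \ Bad).card : ℝ) ≤ Y.card := by
    have := Finset.card_le_card himg
    rw [Finset.card_image_of_injective _ hsw] at this
    exact_mod_cast this
  have hXc : (X.card : ℝ) ≤ (X \ Bad).card + Bad.card := by
    have : X ⊆ (X \ Bad) ∪ Bad := by
      intro f hf
      by_cases h : f ∈ Bad
      · exact Finset.mem_union_right _ h
      · exact Finset.mem_union_left _ (Finset.mem_sdiff.2 ⟨hf, h⟩)
    exact_mod_cast (Finset.card_le_card this).trans (Finset.card_union_le _ _)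
  have hm := L_sub A VV G G' u ((EmbAt A VV G u).filter (fun f => f ∉ Emb A VV G'))
    (Finset.filter_subset _ _) (fun f hf => (Finset.mem_filter.1 hf).2) X (by
    intro f hf hf'
    exact Finset.mem_filter.2 ⟨hf, hf'⟩)
  have hYc : ((((EmbAt A VV G u).filter (fun f => f ∉ Emb A VV G')).card : ℕ) : ℝ)
      = Y.card + Am.card := by
    have hsub : Am ⊆ (EmbAt A VV G u).filter (fun f => f ∉ Emb A VV G') := by
      intro f hf
      exact Finset.mem_filter.2 ⟨hAm hf, hAm' f hf⟩
    have := Finset.card_sdiff_add_card_eq_card hsub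
    rw [← this]; push_cast; rfl
  have hins : ((insert z Bd).card : ℝ) ≤ ((Bd.card + 1 : ℕ) : ℝ) := by
    exact_mod_cast Finset.card_insert_le _ _
  have hbad2 : (Bad.card : ℝ) ≤ (Fintype.card α : ℝ) ^ 4 * (D.card * (Bd.card + 1 : ℕ)) *
        ((VV.card : ℝ) ^ Fintype.card α / (VV.card : ℝ) ^ 4) := by
    refine hbad.trans ?_
    refine mul_le_mul_of_nonneg_right ?_ (by positivity)
    refine mul_le_mul_of_nonneg_left ?_ (by positivity)
    exact mul_le_mul_of_nonneg_left hins (by positivity)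
  linarith

end Pool.Agent.Helper808_Irr
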