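import Mathlib

namespace Pool.Agent.Helper808_Irr

open Finset Function

variable {α P : Type} [Fintype α] [DecidableEq α] [DecidableEq P]

open Classical in
/-- Injective maps `α → VV` which send the arcs `A` into the relation `G`. -/
noncomputable def Emb (A : α → α → Prop) (VV : Finset P) (G : P → P → Prop) :
    Finset (α → P) :=
  (Fintype.piFinset fun _ => VV).filter
    (fun f => Injective f ∧ ∀ x y, A x y → G (f x) (f y))

theorem mem_Emb {A : α → α → Prop} {VV : Finset P} {G : P → P → Prop} {f : α → P} :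
    f ∈ Emb A VV G ↔ (∀ x, f x ∈ VV) ∧ Injective f ∧ ∀ x y, A x y → G (f x) (f y) := by
  classical
  simp [Emb, Fintype.mem_piFinset]

theorem Emb_sub (A : α → α → Prop) (VV : Finset P) (G : P → P → Prop) :
    Emb A VV G ⊆ Fintype.piFinset fun _ => VV := by
  classical
  exact Finset.filter_subset _ _

open Classical in
/-- The embeddings whose image contains `u`. -/
noncomputable def EmbAt (A : α → α → Prop) (VV : Finset P) (G : P → P → Prop) (u : P) :
    Finset (α → P) :=
  (Emb A VV G).filter (fun f => ∃ x, f x = u)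

theorem mem_EmbAt {A : α → α → Prop} {VV : Finset P} {G : P → P → Prop} {u : P} {f : α → P} :
    f ∈ EmbAt A VV G u ↔ f ∈ Emb A VV G ∧ ∃ x, f x = u := by
  classical
  simp [EmbAt]

/-- Number of embeddings whose image contains `u`. -/
noncomputable def L (A : α → α → Prop) (VV : Finset P) (G : P → P → Prop) (u : P) : ℕ :=
  (EmbAt A VV G u).card

/-- Number of maps with prescribed values on `T`. -/
theorem card_fix (VV : Finset P) (X : Finset (α → P))
    (hX : X ⊆ Fintype.piFinset fun _ => VV) (T : Finset α) (g : α → P)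
    (h : ∀ f ∈ X, ∀ x ∈ T, f x = g x) :
    X.card ≤ VV.card ^ (Fintype.card α - T.card) := by
  classical
  have hsub : X ⊆ Fintype.piFinset (fun x => if x ∈ T then {g x} else VV) := by
    intro f hf
    rw [Fintype.mem_piFinset]
    intro x
    by_cases hx : x ∈ T
    · simp [hx, h f hf x hx]
    · have := Fintype.mem_piFinset.1 (hX hf) x
      simpa [hx] using this
  refine (Finset.card_le_card hsub).trans ?_
  rw [Fintype.card_piFinset]
  have : ∀ x : α, (if x ∈ T then ({g x} : Finset P) else VV).card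
      = if x ∈ T then 1 else VV.card := by
    intro x; split_ifs <;> simp
  simp only [this]
  rw [Finset.prod_ite]
  simp only [Finset.prod_const_one, one_mul, Finset.prod_const]
  have : (Finset.univ.filter (fun x => x ∉ T)).card = Fintype.card α - T.card := by
    rw [Finset.filter_not, Finset.card_sdiff]
    simp
  rw [this]

theorem pow_sub_real (n k s : ℕ) (hn : 0 < n) (hs : s ≤ k) :
    ((n ^ (k - s) : ℕ) : ℝ) = (n : ℝ) ^ k / (n : ℝ) ^ s := by
  have hn' : (n : ℝ) ≠ 0 := by exact_mod_cast hn.ne'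
  rw [eq_div_iff (pow_ne_zero _ hn')]
  push_cast
  rw [← pow_add]
  congr 1
  omega

theorem card_fix_real (VV : Finset P) (hn : 0 < VV.card) (X : Finset (α → P))
    (hX : X ⊆ Fintype.piFinset fun _ => VV) (T : Finset α) (g : α → P)
    (h : ∀ f ∈ X, ∀ x ∈ T, f x = g x) :
    (X.card : ℝ) ≤ (VV.card : ℝ) ^ Fintype.card α / (VV.card : ℝ) ^ T.card := by
  rw [← pow_sub_real VV.card (Fintype.card α) T.card hn (Finset.card_le_univ T)]
  exact_mod_cast card_fix VV X hX T g h

theorem card_le_of_fix {ι : Type} (VV : Finset P) (hn : 0 < VV.card) (X : Finset (α → P))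
    (hX : X ⊆ Fintype.piFinset fun _ => VV) (I : Finset ι) (T : ι → Finset α)
    (g : ι → α → P) (s : ℕ) (hT : ∀ i ∈ I, (T i).card = s)
    (h : ∀ f ∈ X, ∃ i ∈ I, ∀ x ∈ T i, f x = g i x) :
    (X.card : ℝ) ≤ I.card * ((VV.card : ℝ) ^ Fintype.card α / (VV.card : ℝ) ^ s) := by
  classical
  have hsub : X ⊆ I.biUnion (fun i => X.filter (fun f => ∀ x ∈ T i, f x = g i x)) := by
    intro f hf
    obtain ⟨i, hi, hfi⟩ := h f hf
    rw [Finset.mem_biUnion]
    exact ⟨i, hi, by simp [hf]; exact hfi⟩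
  have h1 : (X.card : ℝ) ≤ ∑ i ∈ I, ((X.filter (fun f => ∀ x ∈ T i, f x = g i x)).card : ℝ) := by
    have := (Finset.card_le_card hsub).trans Finset.card_biUnion_le
    exact_mod_cast this
  refine h1.trans ?_
  rw [← nsmul_eq_mul]
  refine Finset.sum_le_card_nsmul I _ _ ?_
  intro i hi
  have := card_fix_real VV hn (X.filter (fun f => ∀ x ∈ T i, f x = g i x))
    ((Finset.filter_subset _ _).trans hX) (T i) (g i) (by
      intro f hf; exact (Finset.mem_filter.1 hf).2)
  rwa [hT i hi] at this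

/-- Maps through `u` which hit `Q` at another place. -/
theorem bound2 (VV : Finset P) (hn : 0 < VV.card) (X : Finset (α → P))
    (hX : X ⊆ Fintype.piFinset fun _ => VV) (u : P) (Q : Finset P)
    (h : ∀ f ∈ X, ∃ x y, x ≠ y ∧ f x = u ∧ f y ∈ Q) :
    (X.card : ℝ) ≤ (Fintype.card α : ℝ) ^ 2 * Q.card *
      ((VV.card : ℝ) ^ Fintype.card α / (VV.card : ℝ) ^ 2) := by
  classical
  have := card_le_of_fix VV hn X hX
    (((Finset.univ : Finset (α × α)) ×ˢ Q).filter (fun i => i.1.1 ≠ i.1.2))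
    (fun i => {i.1.1, i.1.2}) (fun i a => if a = i.1.1 then u else i.2) 2
    (by
      intro i hi
      have := (Finset.mem_filter.1 hi).2
      exact Finset.card_pair this)
    (by
      intro f hf
      obtain ⟨x, y, hxy, hx, hy⟩ := h f hf
      refine ⟨((x, y), f y), by simp [hxy, hy], ?_⟩
      intro a ha
      simp only [Finset.mem_insert, Finset.mem_singleton] at ha
      rcases ha with rfl | rfl
      · simp [hx]
      · simp [Ne.symm hxy])
  refine this.trans ?_
  refine mul_le_mul_of_nonneg_right ?_ (by positivity)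
  have h2 : ((((Finset.univ : Finset (α × α)) ×ˢ Q).filter (fun i => i.1.1 ≠ i.1.2)).card : ℝ)
      ≤ (((Finset.univ : Finset (α × α)) ×ˢ Q).card : ℝ) := by
    exact_mod_cast Finset.card_filter_le _ _
  refine h2.trans ?_
  rw [Finset.card_product, Finset.card_univ, Fintype.card_prod]
  push_cast
  apply le_of_eq; ring

/-- Maps through `u` which send another pair into `C`. -/
theorem bound3 (VV : Finset P) (hn : 0 < VV.card) (X : Finset (α → P))
    (hX : X ⊆ Fintype.piFinset fun _ => VV) (u : P) (C : Finset (P × P))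
    (h : ∀ f ∈ X, ∃ x y z, x ≠ y ∧ z ≠ x ∧ z ≠ y ∧ f z = u ∧ (f x, f y) ∈ C) :
    (X.card : ℝ) ≤ (Fintype.card α : ℝ) ^ 3 * C.card *
      ((VV.card : ℝ) ^ Fintype.card α / (VV.card : ℝ) ^ 3) := by
  classical
  have := card_le_of_fix VV hn X hX
    (((Finset.univ : Finset (α × α × α)) ×ˢ C).filter
      (fun i => i.1.1 ≠ i.1.2.1 ∧ i.1.2.2 ≠ i.1.1 ∧ i.1.2.2 ≠ i.1.2.1))
    (fun i => {i.1.1, i.1.2.1, i.1.2.2})
    (fun i a => if a = i.1.1 then i.2.1 else if a = i.1.2.1 then i.2.2 else u) 3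
    (by
      intro i hi
      have h3 := (Finset.mem_filter.1 hi).2
      rw [Finset.card_eq_three]
      exact ⟨_, _, _, h3.1, h3.2.1.symm, h3.2.2.symm, rfl⟩)
    (by
      intro f hf
      obtain ⟨x, y, z, hxy, hzx, hzy, hz, hC⟩ := h f hf
      refine ⟨((x, y, z), (f x, f y)), by simp [hxy, hzx, hzy, hC], ?_⟩
      intro a ha
      simp only [Finset.mem_insert, Finset.mem_singleton] at ha
      rcases ha with rfl | rfl | rfl
      · simp
      · simp [Ne.symm hxy]
      · simp [hzx, hzy, hz])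
  refine this.trans ?_
  refine mul_le_mul_of_nonneg_right ?_ (by positivity)
  have h2 : ((((Finset.univ : Finset (α × α × α)) ×ˢ C).filter
      (fun i => i.1.1 ≠ i.1.2.1 ∧ i.1.2.2 ≠ i.1.1 ∧ i.1.2.2 ≠ i.1.2.1)).card : ℝ)
      ≤ (((Finset.univ : Finset (α × α × α)) ×ˢ C).card : ℝ) := by
    exact_mod_cast Finset.card_filter_le _ _
  refine h2.trans ?_
  rw [Finset.card_product, Finset.card_univ, Fintype.card_prod, Fintype.card_prod]
  push_cast
  apply le_of_eq; ring

/-- Maps through `u`, `v` which hit `Q` and `B` at two further places. -/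
theorem bound4 (VV : Finset P) (hn : 0 < VV.card) (X : Finset (α → P))
    (hX : X ⊆ Fintype.piFinset fun _ => VV) (u v : P) (Q B : Finset P)
    (h : ∀ f ∈ X, ∃ x y z w, x ≠ y ∧ x ≠ z ∧ x ≠ w ∧ y ≠ z ∧ y ≠ w ∧ z ≠ w ∧
      f x = u ∧ f y = v ∧ f z ∈ Q ∧ f w ∈ B) :
    (X.card : ℝ) ≤ (Fintype.card α : ℝ) ^ 4 * (Q.card * B.card) *
      ((VV.card : ℝ) ^ Fintype.card α / (VV.card : ℝ) ^ 4) := by
  classical
  have := card_le_of_fix VV hn X hX
    (((Finset.univ : Finset (α × α × α × α)) ×ˢ (Q ×ˢ B)).filter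
      (fun i => i.1.1 ≠ i.1.2.1 ∧ i.1.1 ≠ i.1.2.2.1 ∧ i.1.1 ≠ i.1.2.2.2 ∧
        i.1.2.1 ≠ i.1.2.2.1 ∧ i.1.2.1 ≠ i.1.2.2.2 ∧ i.1.2.2.1 ≠ i.1.2.2.2))
    (fun i => {i.1.1, i.1.2.1, i.1.2.2.1, i.1.2.2.2})
    (fun i a => if a = i.1.1 then u else if a = i.1.2.1 then v else
      if a = i.1.2.2.1 then i.2.1 else i.2.2) 4
    (by
      intro i hi
      have h3 := (Finset.mem_filter.1 hi).2
      rw [Finset.card_insert_of_notMem, Finset.card_insert_of_notMem, Finset.card_pair]
      · exact h3.2.2.2.2.2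
      · simp only [Finset.mem_insert, Finset.mem_singleton, not_or]
        exact ⟨h3.2.2.2.1, h3.2.2.2.2.1⟩
      · simp only [Finset.mem_insert, Finset.mem_singleton, not_or]
        exact ⟨h3.1, h3.2.1, h3.2.2.1⟩)
    (by
      intro f hf
      obtain ⟨x, y, z, w, h1, h2, h3, h4, h5, h6, hx, hy, hz, hw⟩ := h f hf
      refine ⟨((x, y, z, w), (f z, f w)), by simp [h1, h2, h3, h4, h5, h6, hz, hw], ?_⟩
      intro a ha
      simp only [Finset.mem_insert, Finset.mem_singleton] at ha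
      rcases ha with rfl | rfl | rfl | rfl
      · simp [hx]
      · simp [Ne.symm h1, hy]
      · simp [Ne.symm h2, Ne.symm h4]
      · simp [Ne.symm h3, Ne.symm h5, Ne.symm h6])
  refine this.trans ?_
  refine mul_le_mul_of_nonneg_right ?_ (by positivity)
  have h2 : ((((Finset.univ : Finset (α × α × α × α)) ×ˢ (Q ×ˢ B)).filter
      (fun i => i.1.1 ≠ i.1.2.1 ∧ i.1.1 ≠ i.1.2.2.1 ∧ i.1.1 ≠ i.1.2.2.2 ∧
        i.1.2.1 ≠ i.1.2.2.1 ∧ i.1.2.1 ≠ i.1.2.2.2 ∧ i.1.2.2.1 ≠ i.1.2.2.2)).card : ℝ)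
      ≤ (((Finset.univ : Finset (α × α × α × α)) ×ˢ (Q ×ˢ B)).card : ℝ) := by
    exact_mod_cast Finset.card_filter_le _ _
  refine h2.trans ?_
  rw [Finset.card_product, Finset.card_product, Finset.card_univ, Fintype.card_prod,
    Fintype.card_prod, Fintype.card_prod]
  push_cast
  apply le_of_eq; ring

end Pool.Agent.Helper808_Irr
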