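import Pool.Agent.Helper808_Irr.Macro

namespace Pool.Agent.Helper808_Irr

open Finset Function

variable {α P R : Type} [Fintype α] [DecidableEq α] [DecidableEq P] [DecidableEq R]

theorem ratio_le (n t C k s : ℕ) (ht : 0 < t) (h1 : t ≤ n) (h2 : n ≤ C * t) :
    (n : ℝ) ^ k / (n : ℝ) ^ s ≤ (C : ℝ) ^ k * ((t : ℝ) ^ k / (t : ℝ) ^ s) := by
  have ht0 : (0 : ℝ) < t := by exact_mod_cast ht
  have h1' : (t : ℝ) ≤ n := by exact_mod_cast h1
  have h2' : (n : ℝ) ≤ C * t := by exact_mod_cast h2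
  have hn0 : (0 : ℝ) < n := ht0.trans_le h1'
  rw [← mul_div_assoc, ← mul_pow]
  gcongr

theorem pow_split (t k s : ℕ) (ht : 0 < t) (hs : s ≤ k) :
    (t : ℝ) ^ (k - s) = (t : ℝ) ^ k / (t : ℝ) ^ s := by
  have := pow_sub_real t k s ht hs
  push_cast at this
  exact this

open Classical in
/-- Lower bound for the number of embeddings with values prescribed on `S`. -/
theorem rich_half (A : α → α → Prop) (hA : ∀ x, ¬ A x x) (VV : Finset P) (cl : P → R)
    (RA : R → R → Prop) (E : P → P → Prop) (hEs : ∀ p q, E p q → E q p) (d t : ℕ)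
    (ht : 0 < t) (hd : ∀ p ∈ VV, (VV.filter (fun q => E p q)).card ≤ d)
    (hdt : 2 * (Fintype.card α) ^ 2 * (d + 1) ≤ t)
    (ht' : ∀ v, t ≤ (VV.filter (fun p => cl p = v)).card)
    (h : α → R) (hh : ∀ x y, A x y → RA (h x) (h y)) (S : Finset α) (g : α → P)
    (hg : ∀ x ∈ S, g x ∈ VV ∧ cl (g x) = h x)
    (hginj : ∀ x ∈ S, ∀ y ∈ S, g x = g y → x = y)
    (hgA : ∀ x ∈ S, ∀ y ∈ S, A x y → ¬ E (g x) (g y)) :
    (1 / 2 : ℝ) * ((t : ℝ) ^ Fintype.card α / (t : ℝ) ^ S.card) ≤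
    (((Emb A VV (GE cl RA E)).filter
      (fun f => (∀ x ∈ S, f x = g x) ∧ ∀ x, cl (f x) = h x)).card : ℝ) := by
  have ht0 : (0 : ℝ) < t := by exact_mod_cast ht
  refine le_trans ?_ (rich A hA VV cl RA E hEs d t ht hd ht' h hh S g hg hginj hgA)
  have h1 : (Fintype.card α : ℝ) ^ 2 * (d + 1 : ℕ) / t ≤ 1 / 2 := by
    rw [div_le_iff₀ ht0]
    have : (2 : ℝ) * (Fintype.card α) ^ 2 * ((d + 1 : ℕ) : ℝ) ≤ t := by exact_mod_cast hdt
    linarith
  have h2 : (t : ℝ) ^ Fintype.card α / (t : ℝ) ^ S.card ≤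
      ∏ x ∈ Finset.univ \ S, ((VV.filter (fun p => cl p = h x)).card : ℝ) := by
    rw [← pow_split t _ _ ht (Finset.card_le_univ S)]
    have : Fintype.card α - S.card = (Finset.univ \ S).card := by
      rw [Finset.card_sdiff]; simp
    rw [this, ← Finset.prod_const]
    refine Finset.prod_le_prod (fun _ _ => ht0.le) ?_
    intro x _
    exact_mod_cast ht' _
  have h3 : (0 : ℝ) ≤ (t : ℝ) ^ Fintype.card α / (t : ℝ) ^ S.card := by positivity
  refine mul_le_mul ?_ h2 h3 ?_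
  · linarith
  · linarith

open Classical in
theorem coarse_gap (A : α → α → Prop) (hA : ∀ x, ¬ A x x) (VV : Finset P) (cl : P → R)
    (RA : R → R → Prop) (E E' : P → P → Prop) (hEs : ∀ p q, E p q → E q p)
    (hEs' : ∀ p q, E' p q → E' q p) (d t C : ℕ)
    (ht : 0 < t) (hd : ∀ p ∈ VV, (VV.filter (fun q => E p q)).card ≤ d)
    (hdt : 2 * (Fintype.card α) ^ 2 * (d + 1) ≤ t)
    (ht' : ∀ v, t ≤ (VV.filter (fun p => cl p = v)).card)
    (hn : t ≤ VV.card) (hnC : VV.card ≤ C * t)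
    (h : α → R) (hh : ∀ x y, A x y → RA (h x) (h y)) (x0 x1 : α) (hx : A x0 x1 ∨ A x1 x0)
    (u : P) (hu : u ∈ VV) (hux : cl u = h x0) (Qm Qp : Finset P) (Cp : Finset (P × P))
    (hQm : ∀ q ∈ Qm, q ∈ VV ∧ cl q = h x1 ∧ q ≠ u ∧ ¬ E u q ∧ E' u q)
    (hQp : ∀ q ∈ VV, (RA (cl u) (cl q) ∨ RA (cl q) (cl u)) → E u q → ¬ E' u q → q ∈ Qp)
    (hCp : ∀ p ∈ VV, ∀ q ∈ VV, p ≠ u → q ≠ u → RA (cl p) (cl q) → E p q → ¬ E' p q →
      (p, q) ∈ Cp) :
    ((t : ℝ) ^ Fintype.card α / (t : ℝ) ^ 2) * ((Qm.card : ℝ) / 2 -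
      (Fintype.card α : ℝ) ^ 2 * (C : ℝ) ^ Fintype.card α * Qp.card -
      (Fintype.card α : ℝ) ^ 3 * (C : ℝ) ^ Fintype.card α * Cp.card / t) ≤
      (L A VV (GE cl RA E) u : ℝ) - L A VV (GE cl RA E') u := by
  have ht0 : (0 : ℝ) < t := by exact_mod_cast ht
  have hxne : x0 ≠ x1 := by
    rintro rfl
    rcases hx with hx | hx <;> exact hA _ hx
  let g : P → α → P := fun q x => if x = x0 then u else q
  have g0 : ∀ q, g q x0 = u := by intro q; simp [g]
  have g1 : ∀ q, g q x1 = q := by intro q; simp [g, hxne.symm]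
  let X : P → Finset (α → P) := fun q => (Emb A VV (GE cl RA E)).filter
      (fun f => (∀ x ∈ ({x0, x1} : Finset α), f x = g q x) ∧ ∀ x, cl (f x) = h x)
  have hXval : ∀ q, ∀ f ∈ X q, f x0 = u ∧ f x1 = q ∧ f ∈ Emb A VV (GE cl RA E) := by
    intro q f hf
    obtain ⟨h1, h2, _⟩ := Finset.mem_filter.1 hf
    refine ⟨?_, ?_, h1⟩
    · have := h2 x0 (by simp)
      simpa [g] using this
    · have := h2 x1 (by simp)
      simpa [g, hxne.symm] using this
  have hXcard : ∀ q ∈ Qm, (1 / 2 : ℝ) * ((t : ℝ) ^ Fintype.card α / (t : ℝ) ^ 2) ≤ (X q).card := by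
    intro q hq
    obtain ⟨hqV, hqc, hqu, hqE, hqE'⟩ := hQm q hq
    have := rich_half A hA VV cl RA E hEs d t ht hd hdt ht' h hh {x0, x1} (g q)
      (by
        intro x hx
        simp only [Finset.mem_insert, Finset.mem_singleton] at hx
        rcases hx with rfl | rfl
        · rw [g0]; exact ⟨hu, hux⟩
        · rw [g1]; exact ⟨hqV, hqc⟩)
      (by
        intro x hx y hy hxy
        simp only [Finset.mem_insert, Finset.mem_singleton] at hx hy
        rcases hx with rfl | rfl <;> rcases hy with rfl | rfl <;>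
          simp only [g0, g1] at hxy
        · rfl
        · exact absurd hxy.symm hqu
        · exact absurd hxy hqu
        · rfl)
      (by
        intro x hx y hy hxy
        simp only [Finset.mem_insert, Finset.mem_singleton] at hx hy
        rcases hx with rfl | rfl <;> rcases hy with rfl | rfl <;>
          simp only [g0, g1]
        · exact absurd hxy (hA _)
        · exact hqE
        · exact fun h => hqE (hEs _ _ h)
        · exact absurd hxy (hA _))
    rwa [Finset.card_pair hxne] at this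
  set Am := Qm.biUnion X with hAm
  have hAmc : (Qm.card : ℝ) * ((1 / 2 : ℝ) * ((t : ℝ) ^ Fintype.card α / (t : ℝ) ^ 2)) ≤
      Am.card := by
    rw [hAm, Finset.card_biUnion]
    · push_cast
      rw [← nsmul_eq_mul]
      exact Finset.card_nsmul_le_sum _ _ _ hXcard
    · intro q _ q' _ hne
      change Disjoint (X q) (X q')
      rw [Finset.disjoint_left]
      intro f hf hf'
      exact hne ((hXval q f hf).2.1.symm.trans (hXval q' f hf').2.1)
  have hm := coarse A hA VV (ht.trans_le hn) (GE cl RA E) (GE cl RA E') u Qp Cp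
    (by
      intro q hq hor
      rcases hor with ⟨h1, h2⟩ | ⟨h1, h2⟩
      · refine hQp q hq (Or.inl h1.1) ?_ h1.2
        by_contra hE
        exact h2 ⟨h1.1, hE⟩
      · refine hQp q hq (Or.inr h1.1) ?_ (fun h => h1.2 (hEs' _ _ h))
        by_contra hE
        exact h2 ⟨h1.1, fun h => hE (hEs _ _ h)⟩)
    (by
      intro p hp q hq hpu hqu h1 h2
      refine hCp p hp q hq hpu hqu h1.1 ?_ h1.2
      by_contra hE
      exact h2 ⟨h1.1, hE⟩)
    Am
    (by
      intro f hf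
      obtain ⟨q, _, hfq⟩ := Finset.mem_biUnion.1 hf
      obtain ⟨h1, h2, h3⟩ := hXval q f hfq
      exact mem_EmbAt.2 ⟨h3, x0, h1⟩)
    (by
      intro f hf hf'
      obtain ⟨q, hq, hfq⟩ := Finset.mem_biUnion.1 hf
      obtain ⟨h1, h2, h3⟩ := hXval q f hfq
      obtain ⟨_, _, harc⟩ := mem_Emb.1 hf'
      rcases hx with hx | hx
      · have := (harc _ _ hx).2
        rw [h1, h2] at this
        exact this (hQm q hq).2.2.2.2
      · have := (harc _ _ hx).2
        rw [h1, h2] at this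
        exact this (hEs' _ _ (hQm q hq).2.2.2.2))
  have hr2 := ratio_le VV.card t C (Fintype.card α) 2 ht hn hnC
  have hr3 := ratio_le VV.card t C (Fintype.card α) 3 ht hn hnC
  have e3 : (t : ℝ) ^ Fintype.card α / (t : ℝ) ^ 3 =
      ((t : ℝ) ^ Fintype.card α / (t : ℝ) ^ 2) / t := by
    field_simp
  rw [e3] at hr3
  set τ := (t : ℝ) ^ Fintype.card α / (t : ℝ) ^ 2 with hτ
  have b1 : (Fintype.card α : ℝ) ^ 2 * Qp.card *
        ((VV.card : ℝ) ^ Fintype.card α / (VV.card : ℝ) ^ 2) ≤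
      (Fintype.card α : ℝ) ^ 2 * Qp.card * ((C : ℝ) ^ Fintype.card α * τ) :=
    mul_le_mul_of_nonneg_left hr2 (by positivity)
  have b2 : (Fintype.card α : ℝ) ^ 3 * Cp.card *
        ((VV.card : ℝ) ^ Fintype.card α / (VV.card : ℝ) ^ 3) ≤
      (Fintype.card α : ℝ) ^ 3 * Cp.card * ((C : ℝ) ^ Fintype.card α * (τ / t)) :=
    mul_le_mul_of_nonneg_left hr3 (by positivity)
  have e4 : τ * ((Qm.card : ℝ) / 2 -
      (Fintype.card α : ℝ) ^ 2 * (C : ℝ) ^ Fintype.card α * Qp.card -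
      (Fintype.card α : ℝ) ^ 3 * (C : ℝ) ^ Fintype.card α * Cp.card / t) =
      (Qm.card : ℝ) * ((1 / 2 : ℝ) * τ) -
        ((Fintype.card α : ℝ) ^ 2 * Qp.card * ((C : ℝ) ^ Fintype.card α * τ) +
        (Fintype.card α : ℝ) ^ 3 * Cp.card * ((C : ℝ) ^ Fintype.card α * (τ / t))) := by
    ring
  rw [e4]
  linarith

open Classical in
theorem fine_gap (A : α → α → Prop) (hA : ∀ x, ¬ A x x) (VV : Finset P) (cl : P → R)
    (RA : R → R → Prop) (E E' : P → P → Prop) (hEs : ∀ p q, E p q → E q p)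
    (hEs' : ∀ p q, E' p q → E' q p) (d t C : ℕ)
    (ht : 0 < t) (hd : ∀ p ∈ VV, (VV.filter (fun q => E p q)).card ≤ d)
    (hdt : 2 * (Fintype.card α) ^ 2 * (d + 1) ≤ t)
    (ht' : ∀ v, t ≤ (VV.filter (fun p => cl p = v)).card)
    (hn : t ≤ VV.card) (hnC : VV.card ≤ C * t)
    (h : α → R) (hh : ∀ x y, A x y → RA (h x) (h y)) (x0 x1 x2 : α)
    (hx01 : A x0 x1 ∨ A x1 x0) (hx12 : A x1 x2 ∨ A x2 x1) (hx02 : x0 ≠ x2)
    (u z z' : P) (hu : u ∈ VV) (hz : z ∈ VV) (hux : cl u = h x0) (hzx : cl z = h x1)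
    (hzz : cl z' = cl z) (huz : u ≠ z) (huz' : u ≠ z') (hzz' : z ≠ z') (D D0 Bd : Finset P)
    (h1 : ∀ p ∈ VV, ∀ q ∈ VV, RA (cl p) (cl q) → ¬ E' p q → E p q →
      (p = z' ∧ q ∈ D) ∨ (q = z' ∧ p ∈ D))
    (h2 : E' u z')
    (h3 : ∀ q ∈ VV, q ∉ Bd → q ≠ z → (RA (cl z) (cl q) ∨ RA (cl q) (cl z)) →
      ¬ E' z' q → ¬ E z q)
    (h4 : ∀ q ∈ D, E' z q)
    (hDu : u ∉ D) (hDz : z ∉ D) (hDz' : z' ∉ D) (hBu : u ∉ Bd) (hBz' : z' ∉ Bd)
    (hBD : ∀ q ∈ Bd, q ∉ D) (huzE : ¬ E u z)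
    (hD0 : ∀ q ∈ D0, q ∈ D ∧ q ∈ VV ∧ cl q = h x2 ∧ ¬ E z q ∧ ¬ E u q) :
    ((t : ℝ) ^ Fintype.card α / (t : ℝ) ^ 3) * ((D0.card : ℝ) / 2 -
      (Fintype.card α : ℝ) ^ 4 * (C : ℝ) ^ Fintype.card α * (D.card * (Bd.card + 1 : ℕ)) / t) ≤
      (L A VV (GE cl RA E) u : ℝ) - L A VV (GE cl RA E') u := by
  have ht0 : (0 : ℝ) < t := by exact_mod_cast ht
  have hx01n : x0 ≠ x1 := by
    rintro rfl
    rcases hx01 with hx | hx <;> exact hA _ hx
  have hx12n : x1 ≠ x2 := by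
    rintro rfl
    rcases hx12 with hx | hx <;> exact hA _ hx
  have hcard3 : ({x0, x1, x2} : Finset α).card = 3 :=
    Finset.card_eq_three.2 ⟨x0, x1, x2, hx01n, hx02, hx12n, rfl⟩
  let g : P → α → P := fun q x => if x = x0 then u else if x = x1 then z else q
  have g0 : ∀ q, g q x0 = u := by intro q; simp [g]
  have g1 : ∀ q, g q x1 = z := by intro q; simp [g, hx01n.symm]
  have g2 : ∀ q, g q x2 = q := by intro q; simp [g, hx02.symm, hx12n.symm]
  let X : P → Finset (α → P) := fun q => (Emb A VV (GE cl RA E)).filter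
      (fun f => (∀ x ∈ ({x0, x1, x2} : Finset α), f x = g q x) ∧ ∀ x, cl (f x) = h x)
  have hXval : ∀ q, ∀ f ∈ X q, f x0 = u ∧ f x1 = z ∧ f x2 = q ∧
      f ∈ Emb A VV (GE cl RA E) := by
    intro q f hf
    obtain ⟨h1, h2, _⟩ := Finset.mem_filter.1 hf
    refine ⟨?_, ?_, ?_, h1⟩
    · rw [h2 x0 (by simp), g0]
    · rw [h2 x1 (by simp), g1]
    · rw [h2 x2 (by simp), g2]
  have hXcard : ∀ q ∈ D0, (1 / 2 : ℝ) * ((t : ℝ) ^ Fintype.card α / (t : ℝ) ^ 3) ≤ (X q).card := by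
    intro q hq
    obtain ⟨hqD, hqV, hqc, hqz, hqu⟩ := hD0 q hq
    have hqu' : u ≠ q := by rintro rfl; exact hDu hqD
    have hqz' : z ≠ q := by rintro rfl; exact hDz hqD
    have := rich_half A hA VV cl RA E hEs d t ht hd hdt ht' h hh {x0, x1, x2} (g q)
      (by
        intro x hx
        simp only [Finset.mem_insert, Finset.mem_singleton] at hx
        rcases hx with rfl | rfl | rfl
        · rw [g0]; exact ⟨hu, hux⟩
        · rw [g1]; exact ⟨hz, hzx⟩
        · rw [g2]; exact ⟨hqV, hqc⟩)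
      (by
        intro x hx y hy hxy
        simp only [Finset.mem_insert, Finset.mem_singleton] at hx hy
        rcases hx with rfl | rfl | rfl <;> rcases hy with rfl | rfl | rfl <;>
          simp only [g0, g1, g2] at hxy <;>
          first
          | rfl
          | exact absurd hxy huz
          | exact absurd hxy.symm huz
          | exact absurd hxy hqu'
          | exact absurd hxy.symm hqu'
          | exact absurd hxy hqz'
          | exact absurd hxy.symm hqz')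
      (by
        intro x hx y hy hxy
        simp only [Finset.mem_insert, Finset.mem_singleton] at hx hy
        rcases hx with rfl | rfl | rfl <;> rcases hy with rfl | rfl | rfl <;>
          simp only [g0, g1, g2] <;>
          first
          | exact absurd hxy (hA _)
          | exact huzE
          | exact fun h => huzE (hEs _ _ h)
          | exact hqu
          | exact fun h => hqu (hEs _ _ h)
          | exact hqz
          | exact fun h => hqz (hEs _ _ h))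
    rwa [hcard3] at this
  set Am := D0.biUnion X with hAm
  have hAmc : (D0.card : ℝ) * ((1 / 2 : ℝ) * ((t : ℝ) ^ Fintype.card α / (t : ℝ) ^ 3)) ≤
      Am.card := by
    rw [hAm, Finset.card_biUnion]
    · push_cast
      rw [← nsmul_eq_mul]
      exact Finset.card_nsmul_le_sum _ _ _ hXcard
    · intro q _ q' _ hne
      change Disjoint (X q) (X q')
      rw [Finset.disjoint_left]
      intro f hf hf'
      exact hne ((hXval q f hf).2.2.1.symm.trans (hXval q' f hf').2.2.1)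
  have hm := fine A hA VV (ht.trans_le hn) (GE cl RA E) (GE cl RA E') u z z' hz huz huz' hzz' D Bd
    (by
      intro p hp q hq h5 h6
      refine h1 p hp q hq h5.1 h5.2 ?_
      by_contra hE
      exact h6 ⟨h5.1, hE⟩)
    ⟨fun h => h.2 h2, fun h => h.2 (hEs' _ _ h2)⟩
    (by
      intro q hq hqB hqz
      refine ⟨fun h5 => ?_, fun h5 => ?_⟩
      · unfold GE at h5 ⊢
        rw [hzz] at h5
        exact ⟨h5.1, h3 q hq hqB hqz (Or.inl h5.1) h5.2⟩
      · unfold GE at h5 ⊢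
        rw [hzz] at h5
        exact ⟨h5.1, fun h => h3 q hq hqB hqz (Or.inr h5.1) (fun h' => h5.2 (hEs' _ _ h'))
          (hEs _ _ h)⟩)
    (by
      intro q hq
      exact ⟨fun h => h.2 (h4 q hq), fun h => h.2 (hEs' _ _ (h4 q hq))⟩)
    hDu hDz hDz' hBu hBz' hBD Am
    (by
      intro f hf
      obtain ⟨q, _, hfq⟩ := Finset.mem_biUnion.1 hf
      obtain ⟨e0, _, _, hE⟩ := hXval q f hfq
      exact mem_EmbAt.2 ⟨hE, x0, e0⟩)
    (by
      intro f hf hf'
      obtain ⟨q, hq, hfq⟩ := Finset.mem_biUnion.1 hf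
      obtain ⟨e0, e1, e2, hE⟩ := hXval q f hfq
      obtain ⟨_, _, harc⟩ := mem_Emb.1 hf'
      have := h4 q (hD0 q hq).1
      rcases hx12 with hx | hx
      · have h5 := (harc _ _ hx).2
        rw [e1, e2] at h5
        exact h5 this
      · have h5 := (harc _ _ hx).2
        rw [e1, e2] at h5
        exact h5 (hEs' _ _ this))
    (by
      intro f hf
      obtain ⟨q, hq, hfq⟩ := Finset.mem_biUnion.1 hf
      obtain ⟨e0, e1, _, _⟩ := hXval q f hfq
      exact ⟨x0, x1, hx01, e0, e1⟩)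
  have hr4 := ratio_le VV.card t C (Fintype.card α) 4 ht hn hnC
  have e3 : (t : ℝ) ^ Fintype.card α / (t : ℝ) ^ 4 =
      ((t : ℝ) ^ Fintype.card α / (t : ℝ) ^ 3) / t := by
    field_simp
  rw [e3] at hr4
  set τ := (t : ℝ) ^ Fintype.card α / (t : ℝ) ^ 3 with hτ
  have b1 : (Fintype.card α : ℝ) ^ 4 * (D.card * (Bd.card + 1 : ℕ)) *
        ((VV.card : ℝ) ^ Fintype.card α / (VV.card : ℝ) ^ 4) ≤
      (Fintype.card α : ℝ) ^ 4 * (D.card * (Bd.card + 1 : ℕ)) *
        ((C : ℝ) ^ Fintype.card α * (τ / t)) :=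
    mul_le_mul_of_nonneg_left hr4 (mul_nonneg (by positivity)
      (mul_nonneg (Nat.cast_nonneg _) (Nat.cast_nonneg _)))
  have e4 : τ * ((D0.card : ℝ) / 2 -
      (Fintype.card α : ℝ) ^ 4 * (C : ℝ) ^ Fintype.card α * (D.card * (Bd.card + 1 : ℕ)) / t) =
      (D0.card : ℝ) * ((1 / 2 : ℝ) * τ) -
        (Fintype.card α : ℝ) ^ 4 * (D.card * (Bd.card + 1 : ℕ)) *
          ((C : ℝ) ^ Fintype.card α * (τ / t)) := by
    ring
  rw [e4]
  linarith

open Classical in
/-- Pulling the excluded pairs back along a class preserving permutation. -/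
theorem L_perm (A : α → α → Prop) (VV : Finset P) (cl : P → R)
    (RA : R → R → Prop) (E : P → P → Prop) (ρ : Equiv.Perm P)
    (hρV : ∀ p, ρ p ∈ VV ↔ p ∈ VV) (hρc : ∀ p, cl (ρ p) = cl p) (u : P) :
    L A VV (GE cl RA (fun p q => E (ρ p) (ρ q))) u = L A VV (GE cl RA E) (ρ u) := by
  unfold L
  refine Finset.card_bij' (fun f _ x => ρ (f x)) (fun f _ x => ρ.symm (f x)) ?_ ?_ ?_ ?_
  · intro f hf
    obtain ⟨hE, x, hx⟩ := mem_EmbAt.1 hf
    obtain ⟨hV, hinj, harc⟩ := mem_Emb.1 hE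
    refine mem_EmbAt.2 ⟨mem_Emb.2 ⟨fun y => (hρV _).2 (hV y), ?_, ?_⟩, x, by rw [← hx]⟩
    · intro y y' hy
      exact hinj (ρ.injective hy)
    · intro y y' hy
      have := harc y y' hy
      unfold GE at this ⊢
      rw [hρc, hρc]
      exact this
  · intro f hf
    obtain ⟨hE, x, hx⟩ := mem_EmbAt.1 hf
    obtain ⟨hV, hinj, harc⟩ := mem_Emb.1 hE
    have hcs : ∀ p, cl (ρ.symm p) = cl p := by
      intro p
      have := hρc (ρ.symm p)
      rw [Equiv.apply_symm_apply] at this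
      exact this.symm
    refine mem_EmbAt.2 ⟨mem_Emb.2 ⟨fun y => ?_, ?_, ?_⟩, x, ?_⟩
    · rw [← hρV, Equiv.apply_symm_apply]; exact hV y
    · intro y y' hy
      exact hinj (ρ.symm.injective hy)
    · intro y y' hy
      have := harc y y' hy
      unfold GE at this ⊢
      rw [hcs, hcs]
      simpa using this
    · simp [hx]
  · intro f hf
    funext x; simp
  · intro f hf
    funext x; simp

end Pool.Agent.Helper808_Irr
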