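import Pool.Agent.Helper808_Irr.Gap

namespace Pool.Agent.Helper808_Irr

open Finset Function

variable {R : Type} [Fintype R] [DecidableEq R]

/-- Names of the vertices of the host graph. -/
inductive Pt (R : Type) where
  | typ (v : R) (J j i : ℕ)
  | ch (v : R) (l : ℕ)
  | sp (v : R) (J j s : ℕ)
  deriving DecidableEq

/-- Parameters of the host graph. -/
structure Par (R : Type) where
  a : R → R
  M : R → ℕ
  N : ℕ
  g : ℕ
  H : ℕ
  Ms : ℕ
  C4 : ℕ

namespace Pt

/-- The class of a vertex. -/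
def cl : Pt R → R
  | typ v _ _ _ => v
  | ch v _ => v
  | sp v _ _ _ => v

end Pt

namespace Par

variable (P : Par R)

def S (J j : ℕ) : ℕ := P.H ^ (J * P.Ms + j + 1)

def kap (J j s : ℕ) : ℕ := P.C4 * Nat.pair J (Nat.pair j s)

def Mx (v : R) : ℕ := (Finset.univ.filter (fun b => P.a b = v)).sup P.M

theorem le_Mx {b v : R} (h : P.a b = v) : P.M b ≤ P.Mx v :=
  Finset.le_sup (f := P.M) (by simp [h])

theorem exists_of_lt_Mx {v : R} {j : ℕ} (h : j < P.Mx v) : ∃ b, P.a b = v ∧ j < P.M b := by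
  unfold Mx at h
  rw [Finset.lt_sup_iff] at h
  obtain ⟨b, hb, hj⟩ := h
  exact ⟨b, by simpa using hb, hj⟩

/-- The excluded pairs. -/
def Ex : Pt R → Pt R → Prop
  | .typ _ J _ _, .typ _ J' _ _ => J = J'
  | .ch _ l, .ch _ m => P.g ≤ l + m
  | .ch _ l, .sp _ J j s => P.kap J j s < l
  | .sp _ J j s, .ch _ l => P.kap J j s < l
  | .typ b _ _ i, .ch v l => P.a b = v ∧ l = i
  | .ch v l, .typ b _ _ i => P.a b = v ∧ l = i
  | .typ b J j _, .sp v J' j' _ => P.a b = v ∧ J = J' ∧ j = j'
  | .sp v J' j' _, .typ b J j _ => P.a b = v ∧ J = J' ∧ j = j'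
  | .sp _ _ _ _, .sp _ _ _ _ => False

theorem Ex_symm (p q : Pt R) (h : P.Ex p q) : P.Ex q p := by
  rcases p with ⟨v, J, j, i⟩ | ⟨v, l⟩ | ⟨v, J, j, s⟩ <;>
    rcases q with ⟨v', J', j', i'⟩ | ⟨v', l'⟩ | ⟨v', J', j', s'⟩ <;>
    simp only [Ex] at h ⊢ <;> first | exact h | exact h.symm | omega

/-- All typical vertices of class `v`. -/
def typC (v : R) : Finset (Pt R) :=
  (range P.N ×ˢ (range (P.M v) ×ˢ range P.g)).image (fun x => Pt.typ v x.1 x.2.1 x.2.2)

def chC (v : R) : Finset (Pt R) := (range P.g).image (Pt.ch v)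

def spB (v : R) (J : ℕ) : Finset (Pt R) :=
  (range (P.Mx v)).biUnion (fun j => (range (P.S J j)).image (Pt.sp v J j))

def typAll : Finset (Pt R) := Finset.univ.biUnion P.typC

def chAll : Finset (Pt R) := Finset.univ.biUnion P.chC

def spAll : Finset (Pt R) :=
  Finset.univ.biUnion (fun v => (range P.N).biUnion (fun J => P.spB v J))

/-- The vertex set. -/
def VV : Finset (Pt R) := P.typAll ∪ (P.chAll ∪ P.spAll)

/-- Typical vertices of block `J`. -/
def blk (J : ℕ) : Finset (Pt R) :=
  Finset.univ.biUnion (fun v => (range (P.M v) ×ˢ range P.g).image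
    (fun x => Pt.typ v J x.1 x.2))

/-- Typical vertices with last index `l`. -/
def col (l : ℕ) : Finset (Pt R) :=
  Finset.univ.biUnion (fun v => (range P.N ×ˢ range (P.M v)).image
    (fun x => Pt.typ v x.1 x.2 l))

def W : ℕ := ∑ v, P.M v

@[simp] theorem mem_typ (v : R) (J j i : ℕ) :
    Pt.typ v J j i ∈ P.VV ↔ J < P.N ∧ j < P.M v ∧ i < P.g := by
  simp only [VV, typAll, chAll, spAll, typC, chC, spB, mem_union, mem_biUnion, mem_image,
    mem_product, mem_range, mem_univ, true_and, Prod.exists, Pt.typ.injEq, reduceCtorEq,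
    and_false, exists_false, or_false, false_or]
  constructor
  · rintro ⟨v', a, b, c, ⟨h1, h2, h3⟩, rfl, rfl, rfl, rfl⟩
    exact ⟨h1, h2, h3⟩
  · rintro ⟨h1, h2, h3⟩
    exact ⟨v, J, j, i, ⟨h1, h2, h3⟩, rfl, rfl, rfl, rfl⟩

@[simp] theorem mem_ch (v : R) (l : ℕ) : Pt.ch v l ∈ P.VV ↔ l < P.g := by
  simp only [VV, typAll, chAll, spAll, typC, chC, spB, mem_union, mem_biUnion, mem_image,
    mem_product, mem_range, mem_univ, true_and, Prod.exists, Pt.ch.injEq, reduceCtorEq,
    and_false, exists_false, or_false, false_or]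
  constructor
  · rintro ⟨v', a, h1, rfl, rfl⟩
    exact h1
  · intro h1
    exact ⟨v, l, h1, rfl, rfl⟩

@[simp] theorem mem_sp (v : R) (J j s : ℕ) :
    Pt.sp v J j s ∈ P.VV ↔ J < P.N ∧ j < P.Mx v ∧ s < P.S J j := by
  simp only [VV, typAll, chAll, spAll, typC, chC, spB, mem_union, mem_biUnion, mem_image,
    mem_product, mem_range, mem_univ, true_and, Prod.exists, Pt.sp.injEq, reduceCtorEq,
    and_false, exists_false, or_false, false_or]
  constructor
  · rintro ⟨v', J', h1, j', h2, s', h3, rfl, rfl, rfl, rfl⟩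
    exact ⟨h1, h2, h3⟩
  · rintro ⟨h1, h2, h3⟩
    exact ⟨v, J, h1, j, h2, s, h3, rfl, rfl, rfl, rfl⟩

theorem mem_spAll (v : R) (J j s : ℕ) :
    Pt.sp v J j s ∈ P.spAll ↔ J < P.N ∧ j < P.Mx v ∧ s < P.S J j := by
  simp only [spAll, spB, mem_biUnion, mem_image,
    mem_range, mem_univ, true_and, Pt.sp.injEq]
  constructor
  · rintro ⟨v', J', h1, j', h2, s', h3, rfl, rfl, rfl, rfl⟩
    exact ⟨h1, h2, h3⟩
  · rintro ⟨h1, h2, h3⟩
    exact ⟨v, J, h1, j, h2, s, h3, rfl, rfl, rfl, rfl⟩

theorem mem_chAll (v : R) (l : ℕ) : Pt.ch v l ∈ P.chAll ↔ l < P.g := by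
  simp only [chAll, chC, mem_biUnion, mem_image, mem_range, mem_univ, true_and, Pt.ch.injEq]
  constructor
  · rintro ⟨v', a, h1, rfl, rfl⟩
    exact h1
  · intro h1
    exact ⟨v, l, h1, rfl, rfl⟩

theorem mem_blk (v : R) (J J' j i : ℕ) :
    Pt.typ v J' j i ∈ P.blk J ↔ J' = J ∧ j < P.M v ∧ i < P.g := by
  simp only [blk, mem_biUnion, mem_image, mem_product,
    mem_range, mem_univ, true_and, Prod.exists, Pt.typ.injEq]
  constructor
  · rintro ⟨v', b, c, ⟨h2, h3⟩, rfl, rfl, rfl, rfl⟩
    exact ⟨rfl, h2, h3⟩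
  · rintro ⟨rfl, h2, h3⟩
    exact ⟨v, j, i, ⟨h2, h3⟩, rfl, rfl, rfl, rfl⟩

theorem mem_col (v : R) (J j i l : ℕ) :
    Pt.typ v J j i ∈ P.col l ↔ i = l ∧ J < P.N ∧ j < P.M v := by
  simp only [col, mem_biUnion, mem_image, mem_product,
    mem_range, mem_univ, true_and, Prod.exists, Pt.typ.injEq]
  constructor
  · rintro ⟨v', b, c, ⟨h2, h3⟩, rfl, rfl, rfl, rfl⟩
    exact ⟨rfl, h2, h3⟩
  · rintro ⟨rfl, h2, h3⟩
    exact ⟨v, J, j, ⟨h2, h3⟩, rfl, rfl, rfl, rfl⟩

theorem card_blk (J : ℕ) : (P.blk J).card ≤ P.W * P.g := by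
  unfold blk W
  refine Finset.card_biUnion_le.trans ?_
  rw [Finset.sum_mul]
  refine Finset.sum_le_sum ?_
  intro v _
  refine Finset.card_image_le.trans ?_
  simp

theorem card_col (l : ℕ) : (P.col l).card ≤ P.N * P.W := by
  unfold col W
  refine Finset.card_biUnion_le.trans ?_
  rw [Finset.mul_sum]
  refine Finset.sum_le_sum ?_
  intro v _
  refine Finset.card_image_le.trans ?_
  simp

theorem card_chAll : P.chAll.card ≤ Fintype.card R * P.g := by
  unfold chAll chC
  refine Finset.card_biUnion_le.trans ?_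
  refine (Finset.sum_le_card_nsmul _ _ P.g ?_).trans ?_
  · intro v _
    refine Finset.card_image_le.trans ?_
    simp
  · simp

theorem card_typC (v : R) : (P.typC v).card = P.N * (P.M v * P.g) := by
  unfold typC
  rw [Finset.card_image_of_injective]
  · simp
  · rintro ⟨a, b, c⟩ ⟨a', b', c'⟩ h
    simp only [Pt.typ.injEq] at h
    obtain ⟨_, rfl, rfl, rfl⟩ := h
    rfl

theorem card_VV : P.VV.card ≤ P.N * (P.W * P.g) + Fintype.card R * P.g + P.spAll.card := by
  unfold VV
  refine (Finset.card_union_le _ _).trans ?_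
  have h1 := Finset.card_union_le P.chAll P.spAll
  have h2 := P.card_chAll
  have h3 : P.typAll.card ≤ P.N * (P.W * P.g) := by
    unfold typAll W
    refine Finset.card_biUnion_le.trans ?_
    simp only [card_typC]
    rw [← Finset.mul_sum, Finset.sum_mul]
  omega

theorem class_lower (v : R) :
    P.N * (P.M v * P.g) ≤ (P.VV.filter (fun p => p.cl = v)).card := by
  rw [← P.card_typC v]
  refine Finset.card_le_card ?_
  intro p hp
  unfold typC at hp
  simp only [mem_image, mem_product, mem_range, Prod.exists] at hp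
  obtain ⟨J, j, i, ⟨h1, h2, h3⟩, rfl⟩ := hp
  simp [h1, h2, h3, Pt.cl]

theorem class_upper (v : R) :
    (P.VV.filter (fun p => p.cl = v)).card ≤ P.N * (P.M v * P.g) + P.g + P.spAll.card := by
  have : P.VV.filter (fun p => p.cl = v) ⊆ P.typC v ∪ (P.chC v ∪ P.spAll) := by
    intro p hp
    rw [Finset.mem_filter] at hp
    obtain ⟨h1, h2⟩ := hp
    rcases p with ⟨w, J, j, i⟩ | ⟨w, l⟩ | ⟨w, J, j, s⟩
    · simp only [Pt.cl] at h2; subst h2
      rw [mem_typ] at h1
      refine Finset.mem_union_left _ ?_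
      simp [typC, h1]
    · simp only [Pt.cl] at h2; subst h2
      rw [mem_ch] at h1
      refine Finset.mem_union_right _ (Finset.mem_union_left _ ?_)
      simp [chC, h1]
    · rw [mem_sp, ← mem_spAll] at h1
      exact Finset.mem_union_right _ (Finset.mem_union_right _ h1)
  refine (Finset.card_le_card this).trans ((Finset.card_union_le _ _).trans ?_)
  have h1 := Finset.card_union_le (P.chC v) P.spAll
  have h2 : (P.chC v).card ≤ P.g := by
    unfold chC
    refine Finset.card_image_le.trans ?_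
    simp
  rw [card_typC]
  omega

/-- Bound for the number of pairs excluded at a vertex. -/
def d : ℕ := P.W * P.g + Fintype.card R * P.g + P.spAll.card + P.N * P.W + 1

open Classical in
theorem deg_le (p : Pt R) : (P.VV.filter (fun q => P.Ex p q)).card ≤ P.d := by
  have hb := P.card_blk
  have hc := P.card_col
  have hch := P.card_chAll
  rcases p with ⟨w, J, j, i⟩ | ⟨w, l⟩ | ⟨w, J, j, s⟩
  · have : P.VV.filter (fun q => P.Ex (Pt.typ w J j i) q) ⊆
        P.blk J ∪ ({Pt.ch (P.a w) i} ∪ P.spAll) := by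
      intro q hq
      rw [Finset.mem_filter] at hq
      obtain ⟨h1, h2⟩ := hq
      rcases q with ⟨w', J', j', i'⟩ | ⟨w', l'⟩ | ⟨w', J', j', s'⟩
      · rw [mem_typ] at h1
        simp only [Ex] at h2
        refine Finset.mem_union_left _ ?_
        rw [mem_blk]
        exact ⟨h2.symm, h1.2⟩
      · simp only [Ex] at h2
        refine Finset.mem_union_right _ (Finset.mem_union_left _ ?_)
        rw [Finset.mem_singleton, h2.1, h2.2]
      · rw [mem_sp, ← mem_spAll] at h1
        exact Finset.mem_union_right _ (Finset.mem_union_right _ h1)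
    refine (Finset.card_le_card this).trans ((Finset.card_union_le _ _).trans ?_)
    have h1 := Finset.card_union_le {Pt.ch (P.a w) i} P.spAll
    rw [Finset.card_singleton] at h1
    have := hb J
    unfold d
    omega
  · have : P.VV.filter (fun q => P.Ex (Pt.ch w l) q) ⊆
        P.col l ∪ (P.chAll ∪ P.spAll) := by
      intro q hq
      rw [Finset.mem_filter] at hq
      obtain ⟨h1, h2⟩ := hq
      rcases q with ⟨w', J', j', i'⟩ | ⟨w', l'⟩ | ⟨w', J', j', s'⟩
      · rw [mem_typ] at h1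
        simp only [Ex] at h2
        refine Finset.mem_union_left _ ?_
        rw [mem_col]
        exact ⟨h2.2.symm, h1.1, h1.2.1⟩
      · rw [mem_ch] at h1
        refine Finset.mem_union_right _ (Finset.mem_union_left _ ?_)
        rw [mem_chAll]; exact h1
      · rw [mem_sp, ← mem_spAll] at h1
        exact Finset.mem_union_right _ (Finset.mem_union_right _ h1)
    refine (Finset.card_le_card this).trans ((Finset.card_union_le _ _).trans ?_)
    have h1 := Finset.card_union_le P.chAll P.spAll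
    have := hc l
    unfold d
    omega
  · have : P.VV.filter (fun q => P.Ex (Pt.sp w J j s) q) ⊆ P.blk J ∪ P.chAll := by
      intro q hq
      rw [Finset.mem_filter] at hq
      obtain ⟨h1, h2⟩ := hq
      rcases q with ⟨w', J', j', i'⟩ | ⟨w', l'⟩ | ⟨w', J', j', s'⟩
      · rw [mem_typ] at h1
        simp only [Ex] at h2
        refine Finset.mem_union_left _ ?_
        rw [mem_blk]
        exact ⟨h2.2.1, h1.2⟩
      · rw [mem_ch] at h1
        refine Finset.mem_union_right _ ?_
        rw [mem_chAll]; exact h1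
      · simp only [Ex] at h2
    refine (Finset.card_le_card this).trans ((Finset.card_union_le _ _).trans ?_)
    have := hb J
    unfold d
    omega

end Par

end Pool.Agent.Helper808_Irr
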