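import Pool.Agent.Helper808_Irr.CaseD

namespace Pool.Agent.Helper808_Irr

open Finset Function

variable {α R : Type} [Fintype α] [DecidableEq α] [Fintype R] [DecidableEq R]
variable {A : α → α → Prop} {RA : R → R → Prop} {P : Par R} {t C : ℕ}

/-- Size conditions on the parameters. -/
structure Sizes (k : ℕ) (P : Par R) (t C km : ℕ) : Prop where
  hC4 : 0 < P.C4
  hMs : ∀ v, P.M v ≤ P.Ms
  h1 : 2 * k ^ 4 * C ^ k * (2 * Fintype.card R * (P.N * P.W + 1)) < t
  h2 : 2 * k ^ 3 * C ^ k * (4 * Fintype.card R) < t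
  h3 : ∀ w, 2 * k ^ 3 * C ^ k *
      (Fintype.card R * P.g + P.spAll.card + P.N * P.W + 2) < P.M w * (P.g - 1)
  h4 : ∀ w, 2 * k ^ 3 * C ^ k * (2 * (Fintype.card R * P.g) + 2) < (P.M w - 1) * P.g
  h5 : 2 * k ^ 3 * C ^ k *
      (Fintype.card R * (km + 1) + P.spAll.card + P.N * P.W + 2) < P.g - 1
  h6 : 4 * (2 * k ^ 3 * C ^ k) + 1 ≤ P.H
  h7 : 2 * (2 * k ^ 3 * C ^ k) *
      (8 * (P.W * P.g) * Fintype.card R * P.Ms * P.H ^ P.Ms + 2) < t
  h8 : 2 * k ^ 3 * C ^ k * (Fintype.card R * (km + 1) + 2 * (P.spAll.card * C)) < P.g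
  h9 : km < P.g
  h10 : 2 * k ^ 3 * C ^ k * (2 * (P.spAll.card * C)) < P.C4
  hkm : ∀ v J j s, Pt.sp v J j s ∈ P.spAll → P.kap J j s ≤ km

/-- Within a class all counts are different. -/
theorem same_class (G : Good A RA P t C) {km : ℕ} (Sz : Sizes (Fintype.card α) P t C km)
    (u u' : Pt R) (hu : u ∈ P.VV) (hu' : u' ∈ P.VV) (hc : u.cl = u'.cl) (hne : u ≠ u') :
    LL A RA P u ≠ LL A RA P u' := by
  rcases u with ⟨v, J, j, i⟩ | ⟨v, l⟩ | ⟨v, J, j, s⟩ <;>
    rcases u' with ⟨v', J', j', i'⟩ | ⟨v', l'⟩ | ⟨v', J', j', s'⟩ <;>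
    simp only [Pt.cl] at hc <;> subst hc
  · by_cases hg : J = J' ∧ j = j'
    · obtain ⟨rfl, rfl⟩ := hg
      have hii : i ≠ i' := by rintro rfl; exact hne rfl
      rcases lt_or_gt_of_ne hii with h | h
      · exact (case_fine G Sz.hC4 v J j i i' h hu' Sz.h1).ne
      · exact (case_fine G Sz.hC4 v J j i' i h hu Sz.h1).ne'
    · have hm := hu
      have hm' := hu'
      rw [Par.mem_typ] at hm hm'
      have hj : j < P.Ms := hm.2.1.trans_le (Sz.hMs v)
      have hj' : j' < P.Ms := hm'.2.1.trans_le (Sz.hMs v)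
      rcases lt_trichotomy J J' with h | h | h
      · refine (case_groups G v J j i J' j' i' hu hu' Sz.hMs ?_ h.le Sz.h6 Sz.h7).ne'
        have : (J + 1) * P.Ms ≤ J' * P.Ms := Nat.mul_le_mul_right _ h
        rw [add_mul, one_mul] at this
        omega
      · subst h
        have hjj : j ≠ j' := fun h => hg ⟨rfl, h⟩
        rcases lt_or_gt_of_ne hjj with h | h
        · exact (case_groups G v J j i J j' i' hu hu' Sz.hMs (by omega) le_rfl Sz.h6 Sz.h7).ne'
        · exact (case_groups G v J j' i' J j i hu' hu Sz.hMs (by omega) le_rfl Sz.h6 Sz.h7).ne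
      · refine (case_groups G v J' j' i' J j i hu' hu Sz.hMs ?_ h.le Sz.h6 Sz.h7).ne
        have : (J' + 1) * P.Ms ≤ J * P.Ms := Nat.mul_le_mul_right _ h
        rw [add_mul, one_mul] at this
        omega
  · exact (case_chain_typ G v l' J j i (by rwa [Par.mem_ch] at hu') hu Sz.h3).ne
  · exact (case_sp_typ G v J' j' s' J j i hu' hu Sz.h4).ne
  · exact (case_chain_typ G v l J' j' i' (by rwa [Par.mem_ch] at hu) hu' Sz.h3).ne'
  · rw [Par.mem_ch] at hu hu'
    have hll : l ≠ l' := by rintro rfl; exact hne rfl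
    rcases lt_or_gt_of_ne hll with h | h
    · exact (case_chain G Sz.hC4 v l l' h hu' Sz.h2).ne'
    · exact (case_chain G Sz.hC4 v l' l h hu Sz.h2).ne
  · have hs := hu'
    rw [Par.mem_sp, ← Par.mem_spAll] at hs
    exact (case_chain_sp G v l J' j' s' km (by rwa [Par.mem_ch] at hu) hu'
      (Sz.hkm _ _ _ _ hs) Sz.h5).ne'
  · exact (case_sp_typ G v J j s J' j' i' hu hu' Sz.h4).ne'
  · have hs := hu
    rw [Par.mem_sp, ← Par.mem_spAll] at hs
    exact (case_chain_sp G v l' J j s km (by rwa [Par.mem_ch] at hu') hu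
      (Sz.hkm _ _ _ _ hs) Sz.h5).ne
  · have hs := hu
    have hs' := hu'
    rw [Par.mem_sp, ← Par.mem_spAll] at hs hs'
    exact case_sp G v J j s J' j' s' km hu hu' hne Sz.hC4 (Sz.hkm _ _ _ _ hs)
      (Sz.hkm _ _ _ _ hs') Sz.h8 Sz.h9 Sz.h10

/-- Elementary bound for a power. -/
theorem pow_bound (δ : ℝ) (h0 : 0 ≤ δ) (h1 : δ ≤ 1) (j : ℕ) :
    (1 + δ) ^ j ≤ 1 + (2 ^ j - 1) * δ := by
  induction j with
  | zero => simp
  | succ j ih =>
    have h3 : (1 : ℝ) ≤ 2 ^ j := one_le_pow₀ (by norm_num)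
    have h4 : δ * δ ≤ δ := by nlinarith
    calc (1 + δ) ^ (j + 1) = (1 + δ) ^ j * (1 + δ) := pow_succ _ _
      _ ≤ (1 + (2 ^ j - 1) * δ) * (1 + δ) := mul_le_mul_of_nonneg_right ih (by linarith)
      _ = 1 + 2 ^ j * δ + (2 ^ j - 1) * (δ * δ) := by ring
      _ ≤ 1 + 2 ^ j * δ + (2 ^ j - 1) * δ := by
          have : (0 : ℝ) ≤ 2 ^ j - 1 := by linarith
          have := mul_le_mul_of_nonneg_left h4 this
          linarith
      _ = 1 + (2 ^ (j + 1) - 1) * δ := by rw [pow_succ]; ring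

/-- Size of the pairing code of a special vertex. -/
def codeOf : Pt R → ℕ
  | .sp _ J j s => Nat.pair J (Nat.pair j s)
  | .ch _ _ => 0
  | .typ _ _ _ _ => 0

set_option maxHeartbeats 1600000 in
/-- The host graph has pairwise different counts. -/
theorem template_main (A : α → α → Prop) (hA : ∀ x, ¬ A x x) (RA : R → R → Prop)
    (hRA : ∀ v, ¬ RA v v) [Nonempty R] (a : R → R)
    (hpath : ∀ b, ∃ h : α → R, (∀ x y, A x y → RA (h x) (h y)) ∧ ∃ x0 x1 x2,
      (A x0 x1 ∨ A x1 x0) ∧ (A x1 x2 ∨ A x2 x1) ∧ x0 ≠ x2 ∧ h x0 = b ∧ h x1 = a b)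
    (m : R → ℕ) (hm : ∀ v, 1 ≤ m v) (hG : Function.Injective (Gam A RA m)) (n0 : ℕ) :
    ∃ P : Par R, n0 ≤ P.VV.card ∧
      ∀ u ∈ P.VV, ∀ u' ∈ P.VV, LL A RA P u = LL A RA P u' → u = u' := by
  classical
  obtain ⟨k, hk⟩ : ∃ k, k = Fintype.card α := ⟨_, rfl⟩
  obtain ⟨r, hr⟩ : ∃ r, r = Fintype.card R := ⟨_, rfl⟩
  obtain ⟨mt, hmt⟩ : ∃ mt, mt = ∑ v, m v := ⟨_, rfl⟩
  obtain ⟨C, hC⟩ : ∃ C, C = mt + r + 1 := ⟨_, rfl⟩
  obtain ⟨Z, hZ⟩ : ∃ Z, Z = 2 * k ^ 3 * C ^ k := ⟨_, rfl⟩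
  obtain ⟨Z4, hZ4⟩ : ∃ Z4, Z4 = 2 * k ^ 4 * C ^ k := ⟨_, rfl⟩
  obtain ⟨M0, hM0⟩ : ∃ M0, M0 = Z * (2 * r + 2) + 2 := ⟨_, rfl⟩
  obtain ⟨Ms, hMs⟩ : ∃ Ms, Ms = mt * M0 := ⟨_, rfl⟩
  obtain ⟨H, hH⟩ : ∃ H, H = 4 * Z + 1 := ⟨_, rfl⟩
  obtain ⟨S0, hS0⟩ : ∃ S0, S0 = ∑ v, Gam A RA m v := ⟨_, rfl⟩
  obtain ⟨N, hN⟩ : ∃ N, N = 2 * Z * (8 * mt * r * Ms * H ^ Ms + 2) + 1 + 2 * k ^ 2 * C +
    S0 * (2 ^ (k + 1) + k ^ 2 * C) + 1 := ⟨_, rfl⟩
  obtain ⟨K, hK⟩ : ∃ K, K = (Par.mk a (fun v => m v * M0) N 0 H Ms 0).spAll.card := ⟨_, rfl⟩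
  obtain ⟨C4, hC4⟩ : ∃ C4, C4 = Z * (2 * (K * C)) + 1 := ⟨_, rfl⟩
  obtain ⟨km, hkm⟩ : ∃ km, km = C4 *
    ((Par.mk a (fun v => m v * M0) N 0 H Ms 0).spAll.sup codeOf) := ⟨_, rfl⟩
  obtain ⟨g, hg⟩ : ∃ g, g = Z4 * (2 * r * (N * (mt * M0) + 1)) + Z * (4 * r) +
    (r + K + N * (mt * M0) + 4) + Z * (r * (km + 1) + K + N * (mt * M0) + 2) +
    Z * (r * (km + 1) + 2 * (K * C)) + km + n0 + 2 := ⟨_, rfl⟩
  obtain ⟨t, ht⟩ : ∃ t, t = N * M0 * g := ⟨_, rfl⟩
  set P : Par R := Par.mk a (fun v => m v * M0) N g H Ms C4 with hP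
  have hKP : P.spAll.card = K := hK.symm
  have hW : P.W = mt * M0 := by
    rw [hmt, Finset.sum_mul]; rfl
  have hPN : P.N = N := rfl
  have hPg : P.g = g := rfl
  have hPH : P.H = H := rfl
  have hPMs : P.Ms = Ms := rfl
  have hPC4 : P.C4 = C4 := rfl
  have hPM : ∀ v, P.M v = m v * M0 := fun v => rfl
  have hM0pos : 2 ≤ M0 := by omega
  have hNpos : 1 ≤ N := by omega
  have hgpos : 2 ≤ g := by omega
  have hMg : 1 ≤ M0 * g := Nat.one_le_iff_ne_zero.2 (by positivity)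
  have hNM : 1 ≤ N * M0 := Nat.one_le_iff_ne_zero.2 (by positivity)
  have htg : g ≤ t := by
    rw [ht]; exact Nat.le_mul_of_pos_left g hNM
  have ht0 : 0 < t := by omega
  have hMt : ∀ v, P.N * (P.M v * P.g) = m v * t := by
    intro v
    rw [hPN, hPM, hPg, ht]; ring
  have hd1 : P.d + 1 ≤ C * (M0 * g) := by
    have e1 : P.d + 1 = mt * M0 * g + r * g + K + N * (mt * M0) + 2 := by
      unfold Par.d
      rw [hW, hKP, hPN, hPg, hr]
    have e2 : K + N * (mt * M0) + 2 ≤ g := by omega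
    have e3 : r * g + g ≤ (r + 1) * (M0 * g) := by
      have : g ≤ M0 * g := Nat.le_mul_of_pos_left g (by omega)
      calc r * g + g = (r + 1) * g := by ring
        _ ≤ (r + 1) * (M0 * g) := Nat.mul_le_mul_left _ this
    have e4 : C * (M0 * g) = mt * M0 * g + (r + 1) * (M0 * g) := by rw [hC]; ring
    omega
  have hNC : 2 * k ^ 2 * C ≤ N := by omega
  have hdt : 2 * k ^ 2 * (P.d + 1) ≤ t := by
    calc 2 * k ^ 2 * (P.d + 1) ≤ 2 * k ^ 2 * (C * (M0 * g)) := Nat.mul_le_mul_left _ hd1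
      _ = (2 * k ^ 2 * C) * (M0 * g) := by ring
      _ ≤ N * (M0 * g) := Nat.mul_le_mul_right _ hNC
      _ = t := by rw [ht]; ring
  have hcl : ∀ v, m v * t ≤ (P.VV.filter (fun p => p.cl = v)).card := by
    intro v
    rw [← hMt v]; exact P.class_lower v
  have hcl' : ∀ v, t ≤ (P.VV.filter (fun p => p.cl = v)).card := fun v =>
    (Nat.le_mul_of_pos_left t (hm v)).trans (hcl v)
  have hn : t ≤ P.VV.card := by
    obtain ⟨v⟩ := ‹Nonempty R›
    exact (hcl' v).trans (Finset.card_filter_le _ _)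
  have hnC : P.VV.card ≤ C * t := by
    refine P.card_VV.trans ?_
    rw [hW, hKP, hPN, hPg, ← hr]
    have e1 : N * (mt * M0 * g) = mt * t := by rw [ht]; ring
    have e2 : r * g ≤ r * t := Nat.mul_le_mul_left _ htg
    have e3 : K ≤ t := by omega
    have e4 : C * t = mt * t + r * t + t := by rw [hC]; ring
    omega
  have G : Good A RA P t C :=
    { hA := hA
      hRA := hRA
      hpath := hpath
      ht := ht0
      hdt := by rw [← hk]; exact hdt
      hcl := fun v => by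
        refine le_trans (hcl' v) (le_of_eq ?_)
        congr
      hn := hn
      hnC := hnC }
  have Sz : Sizes (Fintype.card α) P t C km := by
    rw [← hk]
    refine ⟨?_, ?_, ?_, ?_, ?_, ?_, ?_, ?_, ?_, ?_, ?_, ?_, ?_⟩
    · rw [hPC4]; omega
    · intro v
      rw [hPM, hPMs, hMs]
      refine Nat.mul_le_mul_right _ ?_
      rw [hmt]
      exact Finset.single_le_sum (f := m) (fun _ _ => Nat.zero_le _) (Finset.mem_univ v)
    · rw [← hZ4, hPN, hW, ← hr]; omega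
    · rw [← hZ, ← hr]; omega
    · intro w
      rw [← hZ, hKP, hW, hPN, hPg, hPM, ← hr]
      have e1 : M0 ≤ m w * M0 := Nat.le_mul_of_pos_left _ (hm w)
      have e2 : r + K + N * (mt * M0) + 2 ≤ g - 1 := by omega
      calc Z * (r * g + K + N * (mt * M0) + 2)
          = Z * (r * (g - 1) + (r + K + N * (mt * M0) + 2)) := by
            have : g = (g - 1) + 1 := by omega
            conv_lhs => rw [this]
            ring
        _ ≤ Z * (r * (g - 1) + (g - 1)) := by gcongr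
        _ = Z * (r + 1) * (g - 1) := by ring
        _ < M0 * (g - 1) := by
            refine Nat.mul_lt_mul_of_pos_right ?_ (by omega)
            rw [hM0]
            nlinarith
        _ ≤ m w * M0 * (g - 1) := Nat.mul_le_mul_right _ e1
    · intro w
      rw [← hZ, hPg, hPM, ← hr]
      have e1 : M0 ≤ m w * M0 := Nat.le_mul_of_pos_left _ (hm w)
      have e2 : Z * (2 * r + 2) + 1 ≤ m w * M0 - 1 := by omega
      calc Z * (2 * (r * g) + 2) < Z * (2 * (r * g) + 2 * g) + g := by nlinarith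
        _ = (Z * (2 * r + 2) + 1) * g := by ring
        _ ≤ (m w * M0 - 1) * g := Nat.mul_le_mul_right _ e2
    · rw [← hZ, hKP, hW, hPN, hPg, ← hr]; omega
    · rw [← hZ, hPH, hH]
    · rw [← hZ, hW, hPg, hPMs, hPH, ← hr]
      have e1 : 2 * Z * (8 * mt * r * Ms * H ^ Ms + 2) < N := by omega
      calc 2 * Z * (8 * (mt * M0 * g) * r * Ms * H ^ Ms + 2)
          ≤ 2 * Z * (8 * (mt * M0 * g) * r * Ms * H ^ Ms + 2 * (M0 * g)) := by
            gcongr
            omega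
        _ = 2 * Z * (8 * mt * r * Ms * H ^ Ms + 2) * (M0 * g) := by ring
        _ < N * (M0 * g) := Nat.mul_lt_mul_of_pos_right e1 (by omega)
        _ = t := by rw [ht]; ring
    · rw [← hZ, hKP, hPg, ← hr]; omega
    · rw [hPg]; omega
    · rw [← hZ, hKP, hPC4]; omega
    · intro v J j s hs
      have e1 : codeOf (Pt.sp v J j s) ≤
          (Par.mk a (fun v => m v * M0) N 0 H Ms 0).spAll.sup codeOf :=
        Finset.le_sup (f := codeOf) hs
      rw [hkm]
      exact Nat.mul_le_mul_left C4 e1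
  have hcross : ∀ p ∈ P.VV, ∀ q ∈ P.VV, Gam A RA m p.cl < Gam A RA m q.cl →
      LL A RA P p < LL A RA P q := by
    intro p hp q hq hlt
    have hNr : (0 : ℝ) < N := by exact_mod_cast hNpos
    have htr : (0 : ℝ) < t := by exact_mod_cast ht0
    have hgr : (0 : ℝ) < g := by exact_mod_cast (by omega : 0 < g)
    have hMr : (2 : ℝ) ≤ M0 := by exact_mod_cast hM0pos
    have htreal : (t : ℝ) = N * M0 * g := by rw [ht]; push_cast; ring
    refine macro_lt A hA P.VV Pt.cl RA P.Ex P.Ex_symm P.d t ht0 (fun p _ => by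
      refine le_trans (le_of_eq ?_) (P.deg_le p)
      congr) m hm (2 / N) (by positivity) (fun v => by
      refine le_trans (hcl v) (le_of_eq ?_)
      congr) ?_ p q hq hlt ?_
    · intro v
      have e1 : (P.VV.filter (fun p => p.cl = v)).card ≤ m v * t + 2 * g := by
        refine (P.class_upper v).trans ?_
        rw [hMt v, hPg, hKP]
        omega
      have e2 : ((P.VV.filter (fun p => p.cl = v)).card : ℝ) ≤ m v * t + 2 * g := by
        exact_mod_cast e1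
      refine le_trans (le_of_eq ?_) (e2.trans ?_)
      · congr
      · have e4 : (m v : ℝ) * (t * (1 + 2 / N)) = m v * t + 2 * (m v * (M0 * g)) := by
          rw [htreal]; field_simp
        rw [e4]
        have e5 : (1 : ℝ) ≤ m v := by exact_mod_cast hm v
        have e6 : (g : ℝ) ≤ m v * (M0 * g) := by
          have : (1 : ℝ) * (1 * g) ≤ m v * (M0 * g) := by gcongr; linarith
          linarith
        linarith
    · rw [← hk]
      have hGp : (Gam A RA m p.cl : ℝ) + 1 ≤ Gam A RA m q.cl := by exact_mod_cast hlt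
      have hGS : ∀ v, (Gam A RA m v : ℝ) ≤ S0 := by
        intro v
        have : Gam A RA m v ≤ S0 := by
          rw [hS0]
          exact Finset.single_le_sum (f := Gam A RA m) (fun _ _ => Nat.zero_le _)
            (Finset.mem_univ v)
        exact_mod_cast this
      have hδ1 : (2 : ℝ) / N ≤ 1 := by
        rw [div_le_one hNr]
        have : 2 ≤ N := by omega
        exact_mod_cast this
      have e1 := pow_bound (2 / N) (by positivity) hδ1 (k - 1)
      have e2 : ((2 : ℝ) ^ (k - 1) - 1) ≤ 2 ^ k := by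
        have : (2 : ℝ) ^ (k - 1) ≤ 2 ^ k := pow_le_pow_right₀ (by norm_num) (by omega)
        linarith
      have e3 : (1 + 2 / (N : ℝ)) ^ (k - 1) ≤ 1 + 2 ^ (k + 1) / N := by
        refine e1.trans ?_
        have : ((2 : ℝ) ^ (k - 1) - 1) * (2 / N) ≤ 2 ^ k * (2 / N) :=
          mul_le_mul_of_nonneg_right e2 (by positivity)
        have e : (2 : ℝ) ^ (k + 1) / N = 2 ^ k * (2 / N) := by rw [pow_succ]; ring
        rw [e]; linarith
      have e4 : (k : ℝ) ^ 2 * ((P.d + 1 : ℕ) : ℝ) / t ≤ k ^ 2 * C / N := by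
        rw [div_le_div_iff₀ htr hNr]
        have : ((P.d + 1 : ℕ) : ℝ) ≤ C * (M0 * g) := by exact_mod_cast hd1
        rw [htreal]
        calc (k : ℝ) ^ 2 * ((P.d + 1 : ℕ) : ℝ) * (N : ℝ)
            ≤ (k : ℝ) ^ 2 * ((C : ℝ) * ((M0 : ℝ) * (g : ℝ))) * (N : ℝ) := by
              gcongr
          _ = (k : ℝ) ^ 2 * (C : ℝ) * ((N : ℝ) * (M0 : ℝ) * (g : ℝ)) := by ring
      have e5 : (S0 : ℝ) * (2 ^ (k + 1) + k ^ 2 * C) < N := by
        have : S0 * (2 ^ (k + 1) + k ^ 2 * C) < N := by omega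
        exact_mod_cast this
      have e6 : (S0 : ℝ) * (2 ^ (k + 1) / N) + S0 * (k ^ 2 * C / N) < 1 := by
        have : (S0 : ℝ) * (2 ^ (k + 1) / N) + S0 * (k ^ 2 * C / N) =
          S0 * (2 ^ (k + 1) + k ^ 2 * C) / N := by ring
        rw [this, div_lt_one hNr]; exact e5
      have e7 : (Gam A RA m p.cl : ℝ) * (1 + 2 / (N : ℝ)) ^ (k - 1) ≤
          Gam A RA m p.cl + S0 * (2 ^ (k + 1) / N) := by
        calc (Gam A RA m p.cl : ℝ) * (1 + 2 / (N : ℝ)) ^ (k - 1)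
            ≤ Gam A RA m p.cl * (1 + 2 ^ (k + 1) / N) := by gcongr
          _ = Gam A RA m p.cl + Gam A RA m p.cl * (2 ^ (k + 1) / N) := by ring
          _ ≤ Gam A RA m p.cl + S0 * (2 ^ (k + 1) / N) := by
              have := hGS p.cl
              gcongr
      have e8 : (Gam A RA m q.cl : ℝ) - S0 * (k ^ 2 * C / N) ≤
          (1 - (k : ℝ) ^ 2 * ((P.d + 1 : ℕ) : ℝ) / t) * Gam A RA m q.cl := by
        have : (k : ℝ) ^ 2 * ((P.d + 1 : ℕ) : ℝ) / t * Gam A RA m q.cl ≤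
            k ^ 2 * C / N * S0 := by
          have := hGS q.cl
          gcongr
        nlinarith
      linarith
  refine ⟨P, ?_, ?_⟩
  · refine le_trans ?_ hn
    omega
  · intro u hu u' hu' hL
    by_contra hne
    by_cases hc : u.cl = u'.cl
    · exact same_class G Sz u u' hu hu' hc hne hL
    · have hGne : Gam A RA m u.cl ≠ Gam A RA m u'.cl := fun h => hc (hG h)
      rcases lt_or_gt_of_ne hGne with h | h
      · exact (hcross u hu u' hu' h).ne hL
      · exact (hcross u' hu' u hu h).ne' hL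

end Pool.Agent.Helper808_Irr
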