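import Pool.Agent.Helper808_Irr.Rich

namespace Pool.Agent.Helper808_Irr

open Finset Function

variable {α P R : Type} [Fintype α] [DecidableEq α] [DecidableEq P] [DecidableEq R] [Fintype R]

open Classical in
/-- Index set of the macroscopic count at class `v`. -/
noncomputable def Ind (A : α → α → Prop) (RA : R → R → Prop) (v : R) : Finset (α × (α → R)) :=
  Finset.univ.filter (fun i => (∀ x y, A x y → RA (i.2 x) (i.2 y)) ∧ i.2 i.1 = v)

theorem mem_Ind {A : α → α → Prop} {RA : R → R → Prop} {v : R} {i : α × (α → R)} :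
    i ∈ Ind A RA v ↔ (∀ x y, A x y → RA (i.2 x) (i.2 y)) ∧ i.2 i.1 = v := by
  classical
  simp [Ind]

/-- The macroscopic count with class weights `m`. -/
noncomputable def Gam (A : α → α → Prop) (RA : R → R → Prop) (m : R → ℕ) (v : R) : ℕ :=
  ∑ i ∈ Ind A RA v, ∏ y ∈ Finset.univ \ {i.1}, m (i.2 y)

open Classical in
theorem L_le (A : α → α → Prop) (VV : Finset P) (cl : P → R)
    (RA : R → R → Prop) (E : P → P → Prop) (p : P) :
    (L A VV (GE cl RA E) p : ℝ) ≤ ∑ i ∈ Ind A RA (cl p),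
      ∏ y ∈ Finset.univ \ {i.1}, ((VV.filter (fun q => cl q = i.2 y)).card : ℝ) := by
  set X : α × (α → R) → Finset (α → P) := fun i =>
    Fintype.piFinset (fun x => if x = i.1 then {p} else VV.filter (fun q => cl q = i.2 x)) with hX
  have hcov : EmbAt A VV (GE cl RA E) p ⊆ (Ind A RA (cl p)).biUnion X := by
    intro f hf
    obtain ⟨hE, z, hz⟩ := mem_EmbAt.1 hf
    obtain ⟨hV, _, harc⟩ := mem_Emb.1 hE
    refine Finset.mem_biUnion.2 ⟨(z, fun x => cl (f x)), ?_, ?_⟩
    · rw [mem_Ind]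
      exact ⟨fun x y hxy => (harc x y hxy).1, by rw [← hz]⟩
    · rw [hX, Fintype.mem_piFinset]
      intro x
      by_cases hx : x = z
      · subst hx; simp [hz]
      · simp [hx, hV x]
  have h1 : (L A VV (GE cl RA E) p : ℝ) ≤ ∑ i ∈ Ind A RA (cl p), ((X i).card : ℝ) := by
    unfold L
    exact_mod_cast (Finset.card_le_card hcov).trans Finset.card_biUnion_le
  refine h1.trans (le_of_eq (Finset.sum_congr rfl ?_))
  intro i _
  rw [hX, Fintype.card_piFinset]
  push_cast
  rw [← Finset.prod_sdiff (Finset.subset_univ {i.1})]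
  rw [Finset.prod_singleton]
  simp only [if_true, Finset.card_singleton, Nat.cast_one, mul_one]
  refine Finset.prod_congr rfl ?_
  intro x hx
  have : x ≠ i.1 := by simpa using hx
  simp [this]

open Classical in
theorem le_L (A : α → α → Prop) (hA : ∀ x, ¬ A x x) (VV : Finset P) (cl : P → R)
    (RA : R → R → Prop) (E : P → P → Prop) (hEs : ∀ p q, E p q → E q p) (d t : ℕ)
    (ht : 0 < t) (hd : ∀ p ∈ VV, (VV.filter (fun q => E p q)).card ≤ d)
    (ht' : ∀ v, t ≤ (VV.filter (fun p => cl p = v)).card) (p : P) (hp : p ∈ VV) :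
    (1 - (Fintype.card α : ℝ) ^ 2 * (d + 1 : ℕ) / t) * ∑ i ∈ Ind A RA (cl p),
      ∏ y ∈ Finset.univ \ {i.1}, ((VV.filter (fun q => cl q = i.2 y)).card : ℝ) ≤
    (L A VV (GE cl RA E) p : ℝ) := by
  set X : α × (α → R) → Finset (α → P) := fun i =>
    (Emb A VV (GE cl RA E)).filter
      (fun f => (∀ x ∈ ({i.1} : Finset α), f x = (fun _ => p) x) ∧ ∀ x, cl (f x) = i.2 x) with hX
  have hsub : (Ind A RA (cl p)).biUnion X ⊆ EmbAt A VV (GE cl RA E) p := by
    intro f hf
    obtain ⟨i, _, hfi⟩ := Finset.mem_biUnion.1 hf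
    obtain ⟨h1, h2, _⟩ := Finset.mem_filter.1 hfi
    exact mem_EmbAt.2 ⟨h1, i.1, h2 i.1 (Finset.mem_singleton_self _)⟩
  have hdisj : ∀ i ∈ Ind A RA (cl p), ∀ j ∈ Ind A RA (cl p), i ≠ j → Disjoint (X i) (X j) := by
    intro i _ j _ hij
    rw [Finset.disjoint_left]
    intro f hfi hfj
    obtain ⟨h1, h2, h3⟩ := Finset.mem_filter.1 hfi
    obtain ⟨_, h5, h6⟩ := Finset.mem_filter.1 hfj
    apply hij
    have e1 : f i.1 = p := h2 i.1 (Finset.mem_singleton_self _)
    have e2 : f j.1 = p := h5 j.1 (Finset.mem_singleton_self _)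
    have e3 : i.1 = j.1 := (mem_Emb.1 h1).2.1 (e1.trans e2.symm)
    have e4 : i.2 = j.2 := by
      funext x; rw [← h3 x, ← h6 x]
    exact Prod.ext e3 e4
  have h1 : ∑ i ∈ Ind A RA (cl p), ((X i).card : ℝ) ≤ (L A VV (GE cl RA E) p : ℝ) := by
    unfold L
    have := Finset.card_le_card hsub
    rw [Finset.card_biUnion hdisj] at this
    exact_mod_cast this
  refine le_trans ?_ h1
  rw [Finset.mul_sum]
  refine Finset.sum_le_sum ?_
  intro i hi
  obtain ⟨hi1, hi2⟩ := mem_Ind.1 hi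
  exact rich A hA VV cl RA E hEs d t ht hd ht' i.2 hi1 {i.1} (fun _ => p)
    (by intro x hx; rw [Finset.mem_singleton.1 hx]; exact ⟨hp, hi2.symm⟩)
    (by intro x hx y hy _; rw [Finset.mem_singleton.1 hx, Finset.mem_singleton.1 hy])
    (by
      intro x hx y hy hxy
      rw [Finset.mem_singleton.1 hx, Finset.mem_singleton.1 hy] at hxy
      exact absurd hxy (hA _))

theorem prod_weights (m : R → ℕ) (a : ℝ) (z : α) (h : α → R) :
    ∏ y ∈ Finset.univ \ {z}, ((m (h y) : ℝ) * a) =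
      ((∏ y ∈ Finset.univ \ {z}, m (h y) : ℕ) : ℝ) * a ^ (Fintype.card α - 1) := by
  rw [Finset.prod_mul_distrib, Finset.prod_const]
  push_cast
  congr 2
  rw [Finset.card_sdiff]
  simp

open Classical in
/-- Vertices in classes of different macroscopic count have different counts. -/
theorem macro_lt (A : α → α → Prop) (hA : ∀ x, ¬ A x x) (VV : Finset P) (cl : P → R)
    (RA : R → R → Prop) (E : P → P → Prop) (hEs : ∀ p q, E p q → E q p) (d t : ℕ)
    (ht : 0 < t) (hd : ∀ p ∈ VV, (VV.filter (fun q => E p q)).card ≤ d)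
    (m : R → ℕ) (hm : ∀ v, 1 ≤ m v) (δ : ℝ) (hδ : 0 ≤ δ)
    (hlo : ∀ v, m v * t ≤ (VV.filter (fun p => cl p = v)).card)
    (hhi : ∀ v, ((VV.filter (fun p => cl p = v)).card : ℝ) ≤ m v * (t * (1 + δ)))
    (p q : P) (hq : q ∈ VV) (hpq : Gam A RA m (cl p) < Gam A RA m (cl q))
    (hsmall : (Gam A RA m (cl p) : ℝ) * (1 + δ) ^ (Fintype.card α - 1) <
      (1 - (Fintype.card α : ℝ) ^ 2 * (d + 1 : ℕ) / t) * Gam A RA m (cl q)) :
    L A VV (GE cl RA E) p < L A VV (GE cl RA E) q := by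
  have ht0 : (0 : ℝ) < t := by exact_mod_cast ht
  have h1 := L_le A VV cl RA E p
  have h2 := le_L A hA VV cl RA E hEs d t ht hd (fun v => by
    refine le_trans ?_ (hlo v)
    exact Nat.le_mul_of_pos_left t (hm v)) q hq
  have h3 : ∑ i ∈ Ind A RA (cl p),
      ∏ y ∈ Finset.univ \ {i.1}, ((VV.filter (fun q => cl q = i.2 y)).card : ℝ) ≤
      (Gam A RA m (cl p) : ℝ) * (t * (1 + δ)) ^ (Fintype.card α - 1) := by
    unfold Gam
    push_cast
    rw [Finset.sum_mul]
    refine Finset.sum_le_sum ?_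
    intro i _
    have := prod_weights m (t * (1 + δ)) i.1 i.2
    push_cast at this
    rw [← this]
    refine Finset.prod_le_prod (fun _ _ => Nat.cast_nonneg _) ?_
    intro y _
    exact hhi _
  have h4 : (Gam A RA m (cl q) : ℝ) * (t : ℝ) ^ (Fintype.card α - 1) ≤
      ∑ i ∈ Ind A RA (cl q),
      ∏ y ∈ Finset.univ \ {i.1}, ((VV.filter (fun q => cl q = i.2 y)).card : ℝ) := by
    unfold Gam
    push_cast
    rw [Finset.sum_mul]
    refine Finset.sum_le_sum ?_
    intro i _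
    have := prod_weights m t i.1 i.2
    push_cast at this
    rw [← this]
    refine Finset.prod_le_prod (fun _ _ => by positivity) ?_
    intro y _
    exact_mod_cast hlo _
  have hpow : (0 : ℝ) < (t : ℝ) ^ (Fintype.card α - 1) := by positivity
  have h5 : (0 : ℝ) < 1 - (Fintype.card α : ℝ) ^ 2 * (d + 1 : ℕ) / t := by
    by_contra hneg
    push Not at hneg
    have h6 : (1 - (Fintype.card α : ℝ) ^ 2 * (d + 1 : ℕ) / t) * Gam A RA m (cl q) ≤ 0 :=
      mul_nonpos_of_nonpos_of_nonneg hneg (by positivity)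
    have h7 : (0 : ℝ) ≤ (Gam A RA m (cl p) : ℝ) * (1 + δ) ^ (Fintype.card α - 1) := by positivity
    linarith
  have h8 : (L A VV (GE cl RA E) p : ℝ) < L A VV (GE cl RA E) q := by
    calc (L A VV (GE cl RA E) p : ℝ)
        ≤ (Gam A RA m (cl p) : ℝ) * (t * (1 + δ)) ^ (Fintype.card α - 1) := h1.trans h3
      _ = ((Gam A RA m (cl p) : ℝ) * (1 + δ) ^ (Fintype.card α - 1)) *
            (t : ℝ) ^ (Fintype.card α - 1) := by rw [mul_pow]; ring
      _ < ((1 - (Fintype.card α : ℝ) ^ 2 * (d + 1 : ℕ) / t) * Gam A RA m (cl q)) *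
            (t : ℝ) ^ (Fintype.card α - 1) := by
            exact mul_lt_mul_of_pos_right hsmall hpow
      _ = (1 - (Fintype.card α : ℝ) ^ 2 * (d + 1 : ℕ) / t) * (Gam A RA m (cl q) *
            (t : ℝ) ^ (Fintype.card α - 1)) := by ring
      _ ≤ (1 - (Fintype.card α : ℝ) ^ 2 * (d + 1 : ℕ) / t) * ∑ i ∈ Ind A RA (cl q),
            ∏ y ∈ Finset.univ \ {i.1}, ((VV.filter (fun q => cl q = i.2 y)).card : ℝ) :=
            mul_le_mul_of_nonneg_left h4 h5.le
      _ ≤ L A VV (GE cl RA E) q := h2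
  exact_mod_cast h8

end Pool.Agent.Helper808_Irr
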