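import Pool.Agent.Helper808_Irr.Host

namespace Pool.Agent.Helper808_Irr

open Finset Function

variable {R : Type} [Fintype R] [DecidableEq R]

theorem swap_lt {a b n x : ℕ} (ha : a < n) (hb : b < n) : Equiv.swap a b x < n ↔ x < n := by
  by_cases h1 : x = a
  · subst h1; simp [ha, hb]
  · by_cases h2 : x = b
    · subst h2; simp [ha, hb]
    · rw [Equiv.swap_apply_of_ne_of_ne h1 h2]

namespace Par

variable (P : Par R)

/-- Exchange two chain positions of class `a0` and the corresponding typical vertices. -/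
def f1 (a0 : R) (i i' : ℕ) : Pt R → Pt R
  | .typ b J j x => if P.a b = a0 then .typ b J j (Equiv.swap i i' x) else .typ b J j x
  | .ch v l => if v = a0 then .ch v (Equiv.swap i i' l) else .ch v l
  | .sp v J j s => .sp v J j s

theorem f1_inv (a0 : R) (i i' : ℕ) : Involutive (P.f1 a0 i i') := by
  intro p
  rcases p with ⟨v, J, j, x⟩ | ⟨v, l⟩ | ⟨v, J, j, s⟩
  · by_cases h : P.a v = a0 <;> simp [f1, h]
  · by_cases h : v = a0 <;> simp [f1, h]
  · rfl

def s1 (a0 : R) (i i' : ℕ) : Equiv.Perm (Pt R) := (P.f1_inv a0 i i').toPerm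

@[simp] theorem s1_apply (a0 : R) (i i' : ℕ) (p : Pt R) : P.s1 a0 i i' p = P.f1 a0 i i' p := rfl

theorem s1_VV (a0 : R) (i i' : ℕ) (hi : i < P.g) (hi' : i' < P.g) (p : Pt R) :
    P.s1 a0 i i' p ∈ P.VV ↔ p ∈ P.VV := by
  rcases p with ⟨v, J, j, x⟩ | ⟨v, l⟩ | ⟨v, J, j, s⟩
  · by_cases h : P.a v = a0 <;> simp [f1, h, swap_lt hi hi']
  · by_cases h : v = a0 <;> simp [f1, h, swap_lt hi hi']
  · rfl

theorem s1_cl (a0 : R) (i i' : ℕ) (p : Pt R) : (P.s1 a0 i i' p).cl = p.cl := by
  rcases p with ⟨v, J, j, x⟩ | ⟨v, l⟩ | ⟨v, J, j, s⟩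
  · by_cases h : P.a v = a0 <;> simp [f1, h, Pt.cl]
  · by_cases h : v = a0 <;> simp [f1, h, Pt.cl]
  · rfl

/-- Exchange two blocks, and two groups in every block. -/
def f2 (J J' j j' : ℕ) : Pt R → Pt R
  | .typ b J1 j1 x => .typ b (Equiv.swap J J' J1)
      (if j < P.M b ∧ j' < P.M b then Equiv.swap j j' j1 else j1) x
  | .ch v l => .ch v l
  | .sp v J j s => .sp v J j s

theorem f2_inv (J J' j j' : ℕ) : Involutive (P.f2 J J' j j') := by
  intro p
  rcases p with ⟨v, J, j, x⟩ | ⟨v, l⟩ | ⟨v, J, j, s⟩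
  · simp only [f2]
    split_ifs <;> simp
  · rfl
  · rfl

def s2 (J J' j j' : ℕ) : Equiv.Perm (Pt R) := (P.f2_inv J J' j j').toPerm

@[simp] theorem s2_apply (J J' j j' : ℕ) (p : Pt R) : P.s2 J J' j j' p = P.f2 J J' j j' p := rfl

theorem s2_VV (J J' j j' : ℕ) (hJ : J < P.N) (hJ' : J' < P.N) (p : Pt R) :
    P.s2 J J' j j' p ∈ P.VV ↔ p ∈ P.VV := by
  rcases p with ⟨v, J1, j1, x⟩ | ⟨v, l⟩ | ⟨v, J, j, s⟩
  · simp only [s2_apply, f2, mem_typ, swap_lt hJ hJ']
    split_ifs with h
    · rw [swap_lt h.1 h.2]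
    · rfl
  · rfl
  · rfl

theorem s2_cl (J J' j j' : ℕ) (p : Pt R) : (P.s2 J J' j j' p).cl = p.cl := by
  rcases p with ⟨v, J, j, x⟩ | ⟨v, l⟩ | ⟨v, J, j, s⟩ <;> rfl

theorem swap_VV {u u' : Pt R} (hu : u ∈ P.VV) (hu' : u' ∈ P.VV) (p : Pt R) :
    Equiv.swap u u' p ∈ P.VV ↔ p ∈ P.VV := by
  by_cases h1 : p = u
  · subst h1; simp [hu, hu']
  · by_cases h2 : p = u'
    · subst h2; simp [hu, hu']
    · rw [Equiv.swap_apply_of_ne_of_ne h1 h2]

theorem swap_cl {u u' : Pt R} (hc : u.cl = u'.cl) (p : Pt R) :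
    (Equiv.swap u u' p).cl = p.cl := by
  by_cases h1 : p = u
  · subst h1; simp [hc]
  · by_cases h2 : p = u'
    · subst h2; simp [hc]
    · rw [Equiv.swap_apply_of_ne_of_ne h1 h2]

def spIn (i i' : ℕ) : Pt R → Bool
  | .sp _ J j s => decide (i ≤ P.kap J j s ∧ P.kap J j s < i')
  | .ch _ _ => false
  | .typ _ _ _ _ => false

/-- Neighbours of the two exchanged chain vertices which change sides. -/
def Del (a0 : R) (i i' : ℕ) : Finset (Pt R) :=
  ((Finset.univ.erase a0 : Finset R) ×ˢ Finset.Ico (P.g - i') (P.g - i)).image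
      (fun x => Pt.ch x.1 x.2) ∪
    P.spAll.filter (fun p => P.spIn i i' p = true)

theorem mem_Del_ch (a0 : R) (i i' : ℕ) (w : R) (m : ℕ) :
    Pt.ch w m ∈ P.Del a0 i i' ↔ w ≠ a0 ∧ P.g - i' ≤ m ∧ m < P.g - i := by
  simp only [Del, mem_union, mem_image, mem_product, mem_erase, mem_univ, and_true, mem_Ico,
    Prod.exists, Pt.ch.injEq, mem_filter]
  constructor
  · rintro (⟨w', m', ⟨h1, h2⟩, rfl, rfl⟩ | ⟨_, h⟩)
    · exact ⟨h1, h2⟩
    · simp [spIn] at h
  · rintro ⟨h1, h2⟩
    exact Or.inl ⟨w, m, ⟨h1, h2⟩, rfl, rfl⟩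

theorem mem_Del_sp (a0 : R) (i i' : ℕ) (w : R) (J j s : ℕ) :
    Pt.sp w J j s ∈ P.Del a0 i i' ↔ Pt.sp w J j s ∈ P.spAll ∧
      i ≤ P.kap J j s ∧ P.kap J j s < i' := by
  simp only [Del, mem_union, mem_image, mem_product, mem_erase, mem_univ, and_true, mem_Ico,
    Prod.exists, mem_filter, reduceCtorEq, and_false, exists_false, false_or, spIn,
    decide_eq_true_eq]

theorem not_mem_Del_typ (a0 : R) (i i' : ℕ) (w : R) (J j x : ℕ) :
    Pt.typ w J j x ∉ P.Del a0 i i' := by
  simp only [Del, mem_union, mem_image, mem_product, mem_erase, mem_univ, and_true, mem_Ico,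
    Prod.exists, mem_filter, reduceCtorEq, and_false, exists_false, false_or, not_false_eq_true,
    spIn, Bool.false_eq_true]

theorem kap_inj (hC : 0 < P.C4) {J j s J' j' s' : ℕ} (h : P.kap J j s = P.kap J' j' s') :
    J = J' ∧ j = j' ∧ s = s' := by
  unfold kap at h
  have h1 := Nat.eq_of_mul_eq_mul_left hC h
  rw [Nat.pair_eq_pair] at h1
  obtain ⟨h1, h2⟩ := h1
  rw [Nat.pair_eq_pair] at h2
  exact ⟨h1, h2⟩

theorem card_Del (hC : 0 < P.C4) (a0 : R) (i i' : ℕ) (hii : i ≤ i') :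
    (P.Del a0 i i').card ≤ 2 * Fintype.card R * (i' - i) := by
  unfold Del
  refine (Finset.card_union_le _ _).trans ?_
  have h1 : (((Finset.univ.erase a0 : Finset R) ×ˢ Finset.Ico (P.g - i') (P.g - i)).image
      (fun x => Pt.ch x.1 x.2)).card ≤ Fintype.card R * (i' - i) := by
    refine Finset.card_image_le.trans ?_
    rw [Finset.card_product, Nat.card_Ico]
    refine Nat.mul_le_mul (Finset.card_le_univ _) ?_
    omega
  have h2 : (P.spAll.filter (fun p => P.spIn i i' p = true)).card ≤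
      Fintype.card R * (i' - i) := by
    have h3 : ((Finset.univ : Finset R) ×ˢ Finset.Ico i i').card = Fintype.card R * (i' - i) := by
      simp
    rw [← h3]
    refine Finset.card_le_card_of_injOn (fun p => match p with
      | .sp v J j s => (v, P.kap J j s)
      | .ch v _ => (v, 0)
      | .typ v _ _ _ => (v, 0)) ?_ ?_
    · intro p hp
      rw [Finset.mem_coe, Finset.mem_filter] at hp
      rcases p with ⟨v, J, j, x⟩ | ⟨v, l⟩ | ⟨v, J, j, s⟩
      · exact absurd hp.2 (by simp [spIn])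
      · exact absurd hp.2 (by simp [spIn])
      · simpa [spIn] using hp.2
    · intro p hp p' hp' h
      rw [Finset.mem_coe, Finset.mem_filter] at hp hp'
      rcases p with ⟨v, J, j, x⟩ | ⟨v, l⟩ | ⟨v, J, j, s⟩
      · exact absurd hp.2 (by simp [spIn])
      · exact absurd hp.2 (by simp [spIn])
      · rcases p' with ⟨v', J', j', x'⟩ | ⟨v', l'⟩ | ⟨v', J', j', s'⟩
        · exact absurd hp'.2 (by simp [spIn])
        · exact absurd hp'.2 (by simp [spIn])
        · simp only [Prod.mk.injEq] at h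
          obtain ⟨h1, h2⟩ := h
          obtain ⟨e1, e2, e3⟩ := P.kap_inj hC h2
          rw [h1, e1, e2, e3]
  nlinarith [h1, h2]

/-- How the excluded pairs change under `s1`. -/
theorem s1_change (a0 : R) (i i' : ℕ) (hii : i < i') (p q : Pt R)
    (hp : p ∈ P.VV) (hq : q ∈ P.VV) (hc : p.cl ≠ q.cl) (h1 : P.Ex p q)
    (h2 : ¬ P.Ex (P.s1 a0 i i' p) (P.s1 a0 i i' q)) :
    (p = Pt.ch a0 i' ∧ q ∈ P.Del a0 i i') ∨ (q = Pt.ch a0 i' ∧ p ∈ P.Del a0 i i') := by
  have sw : ∀ x : ℕ, Equiv.swap i i' x = if x = i then i' else if x = i' then i else x :=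
    fun x => Equiv.swap_apply_def i i' x
  rcases p with ⟨v, J, j, x⟩ | ⟨v, l⟩ | ⟨v, J, j, s⟩ <;>
    rcases q with ⟨v', J', j', x'⟩ | ⟨v', l'⟩ | ⟨v', J', j', s'⟩
  · exfalso
    apply h2
    simp only [s1_apply, f1]
    split_ifs <;> simpa [Ex] using h1
  · exfalso
    apply h2
    simp only [Ex] at h1
    obtain ⟨h3, h4⟩ := h1
    subst h4
    by_cases h : v' = a0
    · simp [f1, h, h3, Ex]
    · simp [f1, h, h3, Ex]
  · exfalso
    apply h2
    simp only [s1_apply, f1]
    split_ifs <;> simpa [Ex] using h1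
  · exfalso
    apply h2
    simp only [Ex] at h1
    obtain ⟨h3, h4⟩ := h1
    subst h4
    by_cases h : v = a0
    · simp [f1, h, h3, Ex]
    · simp [f1, h, h3, Ex]
  · rw [mem_ch] at hp hq
    simp only [Pt.cl] at hc
    simp only [Ex] at h1
    simp only [s1_apply, f1, sw] at h2
    by_cases h : v = a0
    · subst h
      have hv' : v' ≠ v := Ne.symm hc
      left
      rw [if_pos rfl, if_neg hv'] at h2
      simp only [Ex] at h2
      rw [mem_Del_ch]
      split_ifs at h2 with h3 h4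
      · omega
      · subst h4
        exact ⟨rfl, hv', by omega, by omega⟩
      · omega
    · by_cases h' : v' = a0
      · subst h'
        right
        rw [if_neg h, if_pos rfl] at h2
        simp only [Ex] at h2
        rw [mem_Del_ch]
        split_ifs at h2 with h3 h4
        · omega
        · subst h4
          exact ⟨rfl, h, by omega, by omega⟩
        · omega
      · rw [if_neg h, if_neg h'] at h2
        exact absurd h1 h2
  · rw [mem_ch] at hp
    rw [mem_sp, ← mem_spAll] at hq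
    simp only [Ex] at h1
    simp only [s1_apply, f1, sw] at h2
    by_cases h : v = a0
    · subst h
      left
      rw [if_pos rfl] at h2
      simp only [Ex] at h2
      rw [mem_Del_sp]
      split_ifs at h2 with h3 h4
      · omega
      · subst h4
        exact ⟨rfl, hq, by omega, by omega⟩
      · omega
    · rw [if_neg h] at h2
      exact absurd h1 h2
  · exfalso
    apply h2
    simp only [s1_apply, f1]
    split_ifs <;> simpa [Ex] using h1
  · rw [mem_ch] at hq
    rw [mem_sp, ← mem_spAll] at hp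
    simp only [Ex] at h1
    simp only [s1_apply, f1, sw] at h2
    by_cases h : v' = a0
    · subst h
      right
      rw [if_pos rfl] at h2
      simp only [Ex] at h2
      rw [mem_Del_sp]
      split_ifs at h2 with h3 h4
      · omega
      · subst h4
        exact ⟨rfl, hp, by omega, by omega⟩
      · omega
    · rw [if_neg h] at h2
      exact absurd h1 h2
  · simp only [Ex] at h1

end Par

end Pool.Agent.Helper808_Irr
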