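import Pool.Agent.Helper808_Irr.Compare

namespace Pool.Agent.Helper808_Irr

open Finset Function

variable {α P R : Type} [Fintype α] [DecidableEq α] [DecidableEq P] [DecidableEq R]

open Classical in
theorem card_bad (B : α → Finset P) (x y : α) (hxy : x ≠ y) (W : P → P → Prop) (d : ℕ)
    (hW : ∀ p ∈ B y, ((B x).filter (fun w => W p w)).card ≤ d) :
    ((Fintype.piFinset B).filter (fun f => W (f y) (f x))).card ≤
      d * ∏ z ∈ Finset.univ.erase x, (B z).card := by
  set Bad := (Fintype.piFinset B).filter (fun f => W (f y) (f x)) with hBad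
  rcases Bad.eq_empty_or_nonempty with h0 | ⟨f0, hf0⟩
  · rw [h0]; simp
  set c0 := f0 x
  let φ : (α → P) → (α → P) := fun f => Function.update f x c0
  have h1 := Finset.card_le_mul_card_image (f := φ) Bad d (by
    intro a ha
    obtain ⟨f1, hf1, rfl⟩ := Finset.mem_image.1 ha
    have hf1' := Finset.mem_filter.1 hf1
    have hy : (φ f1) y = f1 y := by simp [φ, Function.update_of_ne hxy.symm]
    have hyB : f1 y ∈ B y := Fintype.mem_piFinset.1 hf1'.1 y
    refine le_trans ?_ (hW (f1 y) hyB)
    refine Finset.card_le_card_of_injOn (fun f => f x) ?_ ?_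
    · intro f hf
      have hf' := Finset.mem_filter.1 hf
      have hf'' := Finset.mem_filter.1 hf'.1
      have : f y = f1 y := by
        have h2 := congrFun hf'.2 y
        simpa [φ, Function.update_of_ne hxy.symm] using h2
      refine Finset.mem_coe.2 (Finset.mem_filter.2 ⟨Fintype.mem_piFinset.1 hf''.1 x, ?_⟩)
      rw [← this]; exact hf''.2
    · intro f hf f' hf' hff
      have hf2 := (Finset.mem_filter.1 hf).2
      have hf2' := (Finset.mem_filter.1 hf').2
      funext z
      by_cases hz : z = x
      · subst hz; exact hff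
      · have := congrFun (hf2.trans hf2'.symm) z
        simpa [φ, Function.update_of_ne hz] using this)
  refine h1.trans (Nat.mul_le_mul_left _ ?_)
  have h2 : Bad.image φ ⊆ Fintype.piFinset (Function.update B x {c0}) := by
    intro a ha
    obtain ⟨f1, hf1, rfl⟩ := Finset.mem_image.1 ha
    have hf1' := (Finset.mem_filter.1 hf1).1
    rw [Fintype.mem_piFinset]
    intro z
    by_cases hz : z = x
    · subst hz; simp [φ]
    · simp only [φ, Function.update_of_ne hz]
      exact Fintype.mem_piFinset.1 hf1' z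
  refine (Finset.card_le_card h2).trans (le_of_eq ?_)
  rw [Fintype.card_piFinset]
  rw [← Finset.mul_prod_erase Finset.univ _ (Finset.mem_univ x)]
  simp only [Function.update_self, Finset.card_singleton, one_mul]
  refine Finset.prod_congr rfl ?_
  intro z hz
  rw [Function.update_of_ne (Finset.ne_of_mem_erase hz)]

/-- The host relation: adjacent classes, minus the excluded pairs. -/
def GE (cl : P → R) (RA : R → R → Prop) (E : P → P → Prop) (p q : P) : Prop :=
  RA (cl p) (cl q) ∧ ¬ E p q

open Classical in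
theorem rich (A : α → α → Prop) (hA : ∀ x, ¬ A x x) (VV : Finset P) (cl : P → R)
    (RA : R → R → Prop) (E : P → P → Prop) (hEs : ∀ p q, E p q → E q p) (d t : ℕ)
    (ht : 0 < t) (hd : ∀ p ∈ VV, (VV.filter (fun q => E p q)).card ≤ d)
    (ht' : ∀ v, t ≤ (VV.filter (fun p => cl p = v)).card)
    (h : α → R) (hh : ∀ x y, A x y → RA (h x) (h y)) (S : Finset α) (g : α → P)
    (hg : ∀ x ∈ S, g x ∈ VV ∧ cl (g x) = h x)
    (hginj : ∀ x ∈ S, ∀ y ∈ S, g x = g y → x = y)
    (hgA : ∀ x ∈ S, ∀ y ∈ S, A x y → ¬ E (g x) (g y)) :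
    (1 - (Fintype.card α : ℝ) ^ 2 * (d + 1 : ℕ) / t) *
      ∏ x ∈ Finset.univ \ S, ((VV.filter (fun p => cl p = h x)).card : ℝ) ≤
    (((Emb A VV (GE cl RA E)).filter
      (fun f => (∀ x ∈ S, f x = g x) ∧ ∀ x, cl (f x) = h x)).card : ℝ) := by
  set B : α → Finset P := fun x => if x ∈ S then {g x} else VV.filter (fun p => cl p = h x)
    with hB
  set Pi := Fintype.piFinset B with hPi
  have hPicard : (Pi.card : ℝ) =
      ∏ x ∈ Finset.univ \ S, ((VV.filter (fun p => cl p = h x)).card : ℝ) := by
    rw [hPi, Fintype.card_piFinset]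
    push_cast
    rw [← Finset.prod_sdiff (Finset.subset_univ S)]
    have h1 : ∏ x ∈ S, ((B x).card : ℝ) = 1 := by
      refine Finset.prod_eq_one ?_
      intro x hx
      simp [hB, hx]
    rw [h1, mul_one]
    refine Finset.prod_congr rfl ?_
    intro x hx
    have : x ∉ S := (Finset.mem_sdiff.1 hx).2
    simp [hB, this]
  set I : Finset (α × α) := (Finset.univ : Finset (α × α)).filter
    (fun i => i.1 ∉ S ∧ i.1 ≠ i.2) with hI
  have hPiV : ∀ f ∈ Pi, (∀ x, f x ∈ VV) ∧ (∀ x ∈ S, f x = g x) ∧ ∀ x, cl (f x) = h x := by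
    intro f hf
    have hf' := Fintype.mem_piFinset.1 hf
    refine ⟨?_, ?_, ?_⟩
    · intro x
      have := hf' x
      by_cases hx : x ∈ S
      · simp only [hB, hx, if_true, Finset.mem_singleton] at this
        rw [this]; exact (hg x hx).1
      · simp only [hB, hx, if_false, Finset.mem_filter] at this
        exact this.1
    · intro x hx
      have := hf' x
      simpa only [hB, hx, if_true, Finset.mem_singleton] using this
    · intro x
      have := hf' x
      by_cases hx : x ∈ S
      · simp only [hB, hx, if_true, Finset.mem_singleton] at this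
        rw [this]; exact (hg x hx).2
      · simp only [hB, hx, if_false, Finset.mem_filter] at this
        exact this.2
  obtain ⟨W, hWd⟩ : ∃ W : P → P → Prop, ∀ p w, W p w ↔ (w = p ∨ E p w) :=
    ⟨fun p w => w = p ∨ E p w, fun _ _ => Iff.rfl⟩
  set BadS : α × α → Finset (α → P) := fun i =>
    Pi.filter (fun f => W (f i.2) (f i.1)) with hBadS
  have hbad : ∀ i ∈ I, ((BadS i).card : ℝ) ≤ ((d + 1 : ℕ) : ℝ) / t * Pi.card := by
    intro i hi
    obtain ⟨hiS, hine⟩ := (Finset.mem_filter.1 hi).2
    have h1 := card_bad B i.1 i.2 hine W (d + 1) (by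
      intro p hp
      have hpV : p ∈ VV := by
        by_cases hx : i.2 ∈ S
        · simp only [hB, hx, if_true, Finset.mem_singleton] at hp
          rw [hp]; exact (hg _ hx).1
        · simp only [hB, hx, if_false, Finset.mem_filter] at hp
          exact hp.1
      refine le_trans (Finset.card_le_card (t := insert p (VV.filter (fun q => E p q))) ?_)
        ((Finset.card_insert_le _ _).trans (Nat.add_le_add_right (hd p hpV) 1))
      intro w hw
      rw [Finset.mem_filter] at hw
      obtain ⟨hw1, hw2⟩ := hw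
      rw [hWd] at hw2
      simp only [hB, hiS, if_false, Finset.mem_filter] at hw1
      rcases hw2 with h | h
      · exact Finset.mem_insert.2 (Or.inl h)
      · exact Finset.mem_insert.2 (Or.inr (Finset.mem_filter.2 ⟨hw1.1, h⟩)))
    have h2 : (Pi.card : ℝ) = (B i.1).card * ∏ z ∈ Finset.univ.erase i.1, ((B z).card : ℝ) := by
      rw [hPi, Fintype.card_piFinset]
      push_cast
      rw [← Finset.mul_prod_erase Finset.univ _ (Finset.mem_univ i.1)]
    have h3 : (t : ℝ) ≤ (B i.1).card := by
      have : B i.1 = VV.filter (fun p => cl p = h i.1) := by simp [hB, hiS]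
      rw [this]
      exact_mod_cast ht' (h i.1)
    have ht0 : (0 : ℝ) < t := by exact_mod_cast ht
    have h4 : ((BadS i).card : ℝ) ≤
        ((d + 1 : ℕ) : ℝ) * ∏ z ∈ Finset.univ.erase i.1, ((B z).card : ℝ) := by
      exact_mod_cast h1
    refine h4.trans ?_
    rw [h2, div_mul_eq_mul_div, le_div_iff₀ ht0, mul_assoc]
    refine mul_le_mul_of_nonneg_left ?_ (by positivity)
    rw [mul_comm]
    exact mul_le_mul_of_nonneg_right h3 (Finset.prod_nonneg fun _ _ => Nat.cast_nonneg _)
  have hcov : Pi ⊆ (Emb A VV (GE cl RA E)).filter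
      (fun f => (∀ x ∈ S, f x = g x) ∧ ∀ x, cl (f x) = h x) ∪ I.biUnion BadS := by
    intro f hf
    by_cases hb : ∃ i ∈ I, f ∈ BadS i
    · obtain ⟨i, hi, hfi⟩ := hb
      exact Finset.mem_union_right _ (Finset.mem_biUnion.2 ⟨i, hi, hfi⟩)
    · push Not at hb
      obtain ⟨hV, hS, hcl⟩ := hPiV f hf
      have hgoodI : ∀ x y, x ∉ S → x ≠ y → ¬ (f x = f y) ∧ ¬ E (f y) (f x) := by
        intro x y hx hxy
        have := hb (x, y) (by simp [hI, hx, hxy])
        simp only [hBadS, Finset.mem_filter, hWd, not_and, not_or] at this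
        exact this hf
      refine Finset.mem_union_left _ (Finset.mem_filter.2 ⟨?_, hS, hcl⟩)
      rw [mem_Emb]
      refine ⟨hV, ?_, ?_⟩
      · intro x y hxy
        by_contra hne
        by_cases hx : x ∈ S
        · by_cases hy : y ∈ S
          · rw [hS x hx, hS y hy] at hxy
            exact hne (hginj x hx y hy hxy)
          · exact (hgoodI y x hy (Ne.symm hne)).1 hxy.symm
        · exact (hgoodI x y hx hne).1 hxy
      · intro x y hxy
        have hne : x ≠ y := by rintro rfl; exact hA _ hxy
        refine ⟨?_, ?_⟩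
        · rw [hcl, hcl]; exact hh x y hxy
        · by_cases hx : x ∈ S
          · by_cases hy : y ∈ S
            · rw [hS x hx, hS y hy]
              exact hgA x hx y hy hxy
            · exact (hgoodI y x hy (Ne.symm hne)).2
          · intro hE
            exact (hgoodI x y hx hne).2 (hEs _ _ hE)
  have hc1 := (Finset.card_le_card hcov).trans (Finset.card_union_le _ _)
  have hc2 : ((I.biUnion BadS).card : ℝ) ≤
      (Fintype.card α : ℝ) ^ 2 * (((d + 1 : ℕ) : ℝ) / t * Pi.card) := by
    have h1 : ((I.biUnion BadS).card : ℝ) ≤ ∑ i ∈ I, ((BadS i).card : ℝ) := by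
      exact_mod_cast Finset.card_biUnion_le
    refine h1.trans ((Finset.sum_le_card_nsmul I _ _ hbad).trans ?_)
    rw [nsmul_eq_mul]
    refine mul_le_mul_of_nonneg_right ?_ (by positivity)
    have : I.card ≤ (Fintype.card α) ^ 2 := by
      refine (Finset.card_le_univ _).trans ?_
      rw [Fintype.card_prod, sq]
    exact_mod_cast this
  have hc1' : (Pi.card : ℝ) ≤ (((Emb A VV (GE cl RA E)).filter
      (fun f => (∀ x ∈ S, f x = g x) ∧ ∀ x, cl (f x) = h x)).card : ℝ) +
        (I.biUnion BadS).card := by exact_mod_cast hc1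
  rw [← hPicard]
  have : (1 - (Fintype.card α : ℝ) ^ 2 * (d + 1 : ℕ) / t) * (Pi.card : ℝ) =
      Pi.card - (Fintype.card α : ℝ) ^ 2 * (((d + 1 : ℕ) : ℝ) / t * Pi.card) := by ring
  rw [this]
  linarith

end Pool.Agent.Helper808_Irr
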