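import Pool.Agent.Helper808_Irr.Perms

namespace Pool.Agent.Helper808_Irr

open Finset Function

variable {α R : Type} [Fintype α] [DecidableEq α] [Fintype R] [DecidableEq R]

open Classical in
/-- Standing assumptions on the pattern, the template and the parameters. -/
structure Good (A : α → α → Prop) (RA : R → R → Prop) (P : Par R) (t C : ℕ) : Prop where
  hA : ∀ x, ¬ A x x
  hRA : ∀ v, ¬ RA v v
  hpath : ∀ b, ∃ h : α → R, (∀ x y, A x y → RA (h x) (h y)) ∧ ∃ x0 x1 x2,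
    (A x0 x1 ∨ A x1 x0) ∧ (A x1 x2 ∨ A x2 x1) ∧ x0 ≠ x2 ∧ h x0 = b ∧ h x1 = P.a b
  ht : 0 < t
  hdt : 2 * (Fintype.card α) ^ 2 * (P.d + 1) ≤ t
  hcl : ∀ v, t ≤ (P.VV.filter (fun p => p.cl = v)).card
  hn : t ≤ P.VV.card
  hnC : P.VV.card ≤ C * t

/-- The number of labelled copies through a vertex of the host graph. -/
noncomputable def LL (A : α → α → Prop) (RA : R → R → Prop) (P : Par R) (p : Pt R) : ℕ :=
  L A P.VV (GE Pt.cl RA P.Ex) p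

variable {A : α → α → Prop} {RA : R → R → Prop} {P : Par R} {t C : ℕ}

theorem Good.kpos (G : Good A RA P t C) (b : R) : 1 ≤ Fintype.card α := by
  obtain ⟨_, _, x0, _⟩ := G.hpath b
  exact Fintype.card_pos_iff.2 ⟨x0⟩

/-- Adjacent classes are different. -/
theorem Good.adj_ne (G : Good A RA P t C) {v w : R} (h : RA v w ∨ RA w v) : v ≠ w := by
  rintro rfl
  rcases h with h | h <;> exact G.hRA _ h

theorem coarse_lt (G : Good A RA P t C) (ρ : Equiv.Perm (Pt R))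
    (hρV : ∀ p, ρ p ∈ P.VV ↔ p ∈ P.VV) (hρc : ∀ p, (ρ p).cl = p.cl)
    (h : α → R) (hh : ∀ x y, A x y → RA (h x) (h y)) (x0 x1 : α) (hx : A x0 x1 ∨ A x1 x0)
    (u u' : Pt R) (hu : u ∈ P.VV) (hρu : ρ u = u') (hux : u.cl = h x0)
    (Qm Qp : Finset (Pt R)) (Cp : Finset (Pt R × Pt R))
    (hQm : ∀ q ∈ Qm, q ∈ P.VV ∧ q.cl = h x1 ∧ q ≠ u ∧ ¬ P.Ex u q ∧ P.Ex u' (ρ q))
    (hQp : ∀ q ∈ P.VV, (RA u.cl q.cl ∨ RA q.cl u.cl) → P.Ex u q → ¬ P.Ex u' (ρ q) → q ∈ Qp)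
    (hCp : ∀ p ∈ P.VV, ∀ q ∈ P.VV, p ≠ u → q ≠ u → RA p.cl q.cl → P.Ex p q →
      ¬ P.Ex (ρ p) (ρ q) → (p, q) ∈ Cp)
    (hlt : 2 * (Fintype.card α) ^ 3 * C ^ Fintype.card α * (Qp.card * t + Cp.card) <
      Qm.card * t) :
    LL A RA P u' < LL A RA P u := by
  classical
  have hk : 1 ≤ Fintype.card α := Fintype.card_pos_iff.2 ⟨x0⟩
  have ht0 : (0 : ℝ) < t := by exact_mod_cast G.ht
  have hm := coarse_gap A G.hA P.VV Pt.cl RA P.Ex (fun p q => P.Ex (ρ p) (ρ q)) P.Ex_symm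
    (fun p q hpq => P.Ex_symm _ _ hpq) P.d t C G.ht (fun p _ => by
      refine le_trans (le_of_eq ?_) (P.deg_le p)
      congr) G.hdt (fun v => by
      refine le_trans (G.hcl v) (le_of_eq ?_)
      congr) G.hn G.hnC
    h hh x0 x1 hx u hu hux Qm Qp Cp (by
      intro q hq
      obtain ⟨h1, h2, h3, h4, h5⟩ := hQm q hq
      exact ⟨h1, h2, h3, h4, by rw [hρu]; exact h5⟩)
    (by
      intro q hq h1 h2 h3
      rw [hρu] at h3
      exact hQp q hq h1 h2 h3) hCp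
  have hp := L_perm A P.VV Pt.cl RA P.Ex ρ hρV hρc u
  rw [hρu] at hp
  rw [hp] at hm
  have hpos : (0 : ℝ) < (Qm.card : ℝ) / 2 -
      (Fintype.card α : ℝ) ^ 2 * (C : ℝ) ^ Fintype.card α * Qp.card -
      (Fintype.card α : ℝ) ^ 3 * (C : ℝ) ^ Fintype.card α * Cp.card / t := by
    have h1 : 2 * (Fintype.card α : ℝ) ^ 3 * (C : ℝ) ^ Fintype.card α *
        (Qp.card * t + Cp.card) < Qm.card * t := by exact_mod_cast hlt
    have hk' : (1 : ℝ) ≤ Fintype.card α := by exact_mod_cast hk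
    have h2 : (Fintype.card α : ℝ) ^ 2 ≤ (Fintype.card α : ℝ) ^ 3 :=
      pow_le_pow_right₀ hk' (by norm_num)
    have h3 : (Fintype.card α : ℝ) ^ 2 * (C : ℝ) ^ Fintype.card α * Qp.card ≤
        (Fintype.card α : ℝ) ^ 3 * (C : ℝ) ^ Fintype.card α * Qp.card := by
      gcongr
    have h4 : (Fintype.card α : ℝ) ^ 3 * (C : ℝ) ^ Fintype.card α * Qp.card +
        (Fintype.card α : ℝ) ^ 3 * (C : ℝ) ^ Fintype.card α * Cp.card / t <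
        (Qm.card : ℝ) / 2 := by
      rw [← mul_lt_mul_iff_left₀ ht0, add_mul, div_mul_cancel₀ _ ht0.ne']
      linarith
    linarith
  have hτ : (0 : ℝ) < (t : ℝ) ^ Fintype.card α / (t : ℝ) ^ 2 := by positivity
  have := mul_pos hτ hpos
  have h5 : (L A P.VV (GE Pt.cl RA P.Ex) u' : ℝ) < L A P.VV (GE Pt.cl RA P.Ex) u := by linarith
  exact_mod_cast h5

theorem fine_lt (G : Good A RA P t C) (ρ : Equiv.Perm (Pt R))
    (hρV : ∀ p, ρ p ∈ P.VV ↔ p ∈ P.VV) (hρc : ∀ p, (ρ p).cl = p.cl)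
    (h : α → R) (hh : ∀ x y, A x y → RA (h x) (h y)) (x0 x1 x2 : α)
    (hx01 : A x0 x1 ∨ A x1 x0) (hx12 : A x1 x2 ∨ A x2 x1) (hx02 : x0 ≠ x2)
    (u u' z z' : Pt R) (hu : u ∈ P.VV) (hz : z ∈ P.VV) (hρu : ρ u = u') (hux : u.cl = h x0)
    (hzx : z.cl = h x1) (hzz : z'.cl = z.cl) (huz : u ≠ z) (huz' : u ≠ z') (hzz' : z ≠ z')
    (D D0 Bd : Finset (Pt R))
    (h1 : ∀ p ∈ P.VV, ∀ q ∈ P.VV, RA p.cl q.cl → ¬ P.Ex (ρ p) (ρ q) → P.Ex p q →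
      (p = z' ∧ q ∈ D) ∨ (q = z' ∧ p ∈ D))
    (h2 : P.Ex (ρ u) (ρ z'))
    (h3 : ∀ q ∈ P.VV, q ∉ Bd → q ≠ z → (RA z.cl q.cl ∨ RA q.cl z.cl) →
      ¬ P.Ex (ρ z') (ρ q) → ¬ P.Ex z q)
    (h4 : ∀ q ∈ D, P.Ex (ρ z) (ρ q))
    (hDu : u ∉ D) (hDz : z ∉ D) (hDz' : z' ∉ D) (hBu : u ∉ Bd) (hBz' : z' ∉ Bd)
    (hBD : ∀ q ∈ Bd, q ∉ D) (huzE : ¬ P.Ex u z)
    (hD0 : ∀ q ∈ D0, q ∈ D ∧ q ∈ P.VV ∧ q.cl = h x2 ∧ ¬ P.Ex z q ∧ ¬ P.Ex u q)
    (hlt : 2 * (Fintype.card α) ^ 4 * C ^ Fintype.card α * (D.card * (Bd.card + 1)) <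
      D0.card * t) :
    LL A RA P u' < LL A RA P u := by
  classical
  have ht0 : (0 : ℝ) < t := by exact_mod_cast G.ht
  have hm := fine_gap A G.hA P.VV Pt.cl RA P.Ex (fun p q => P.Ex (ρ p) (ρ q)) P.Ex_symm
    (fun p q hpq => P.Ex_symm _ _ hpq) P.d t C G.ht (fun p _ => by
      refine le_trans (le_of_eq ?_) (P.deg_le p)
      congr) G.hdt (fun v => by
      refine le_trans (G.hcl v) (le_of_eq ?_)
      congr) G.hn G.hnC
    h hh x0 x1 x2 hx01 hx12 hx02 u z z' hu hz hux hzx hzz huz huz' hzz' D D0 Bd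
    h1 h2 h3 h4 hDu hDz hDz' hBu hBz' hBD huzE hD0
  have hp := L_perm A P.VV Pt.cl RA P.Ex ρ hρV hρc u
  rw [hρu] at hp
  rw [hp] at hm
  have hpos : (0 : ℝ) < (D0.card : ℝ) / 2 -
      (Fintype.card α : ℝ) ^ 4 * (C : ℝ) ^ Fintype.card α *
        (D.card * (Bd.card + 1 : ℕ)) / t := by
    have h1 : 2 * (Fintype.card α : ℝ) ^ 4 * (C : ℝ) ^ Fintype.card α *
        (D.card * ((Bd.card + 1 : ℕ) : ℝ)) < D0.card * t := by exact_mod_cast hlt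
    rw [sub_pos, div_lt_iff₀ ht0]
    linarith
  have hτ : (0 : ℝ) < (t : ℝ) ^ Fintype.card α / (t : ℝ) ^ 3 := by positivity
  have := mul_pos hτ hpos
  have h5 : (L A P.VV (GE Pt.cl RA P.Ex) u' : ℝ) < L A P.VV (GE Pt.cl RA P.Ex) u := by linarith
  exact_mod_cast h5

end Pool.Agent.Helper808_Irr
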