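import Pool.Agent.Helper808_Irr.Template

namespace Pool.Agent.Helper808_Irr

open Finset Function

variable {α : Type} [Fintype α] [DecidableEq α]

/-- Homomorphisms of a star to the directed triangle. -/
def hr (c : α) (pl : α → Prop) [DecidablePred pl] (r : Fin 3) (x : α) : Fin 3 :=
  if x = c then r else if pl x then r + 1 else r + 2

def rr (c : α) (pl : α → Prop) [DecidablePred pl] (v : Fin 3) (z : α) : Fin 3 :=
  if z = c then v else if pl z then v + 2 else v + 1

def mT (T : ℕ) : Fin 3 → ℕ := ![1, T, T ^ 3]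

theorem ite_prod (c : α) (pl : α → Prop) [DecidablePred pl] (a b d : ℕ) :
    ∏ y : α, (if y = c then a else if pl y then b else d) =
      a * (b ^ ((Finset.univ.filter (fun y => y ≠ c ∧ pl y)).card) *
        d ^ ((Finset.univ.filter (fun y => y ≠ c ∧ ¬ pl y)).card)) := by
  rw [Finset.prod_ite, Finset.prod_ite, Finset.prod_const, Finset.prod_const, Finset.prod_const,
    Finset.filter_filter, Finset.filter_filter]
  have : (Finset.univ.filter (fun y : α => y = c)).card = 1 := by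
    rw [Finset.card_eq_one]
    exact ⟨c, by ext; simp⟩
  rw [this, pow_one]

theorem ite_sum (c : α) (pl : α → Prop) [DecidablePred pl] (a b d : ℕ) :
    ∑ y : α, (if y = c then a else if pl y then b else d) =
      a + (((Finset.univ.filter (fun y => y ≠ c ∧ pl y)).card) * b +
        ((Finset.univ.filter (fun y => y ≠ c ∧ ¬ pl y)).card) * d) := by
  rw [Finset.sum_ite, Finset.sum_ite, Finset.sum_const, Finset.sum_const, Finset.sum_const,
    Finset.filter_filter, Finset.filter_filter]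
  have : (Finset.univ.filter (fun y : α => y = c)).card = 1 := by
    rw [Finset.card_eq_one]
    exact ⟨c, by ext; simp⟩
  rw [this]
  simp

theorem card_split (c : α) (pl : α → Prop) [DecidablePred pl] :
    1 + ((Finset.univ.filter (fun y => y ≠ c ∧ pl y)).card +
      (Finset.univ.filter (fun y => y ≠ c ∧ ¬ pl y)).card) = Fintype.card α := by
  have h := ite_sum c pl 1 1 1
  simp only [ite_self, Finset.sum_const, smul_eq_mul, mul_one, Finset.card_univ] at h
  exact h.symm

theorem star_gam (A : α → α → Prop) (RA : Fin 3 → Fin 3 → Prop) (c : α) (pl : α → Prop)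
    [DecidablePred pl]
    (hhom : ∀ h : α → Fin 3, (∀ x y, A x y → RA (h x) (h y)) ↔ h = hr c pl (h c))
    (m : Fin 3 → ℕ) (v : Fin 3) (p q : ℕ)
    (hp : p = (Finset.univ.filter (fun y => y ≠ c ∧ pl y)).card)
    (hq : q = (Finset.univ.filter (fun y => y ≠ c ∧ ¬ pl y)).card) :
    m v * Gam A RA m v =
      (m v * (m (v + 1) ^ p * m (v + 2) ^ q)) +
      (p * (m (v + 2) * (m (v + 2 + 1) ^ p * m (v + 2 + 2) ^ q)) +
       q * (m (v + 1) * (m (v + 1 + 1) ^ p * m (v + 1 + 2) ^ q))) := by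
  classical
  rw [Gam_mul]
  have hself : ∀ r, hr c pl r c = r := fun r => by simp [hr]
  have hhr : ∀ r, ∀ x y, A x y → RA (hr c pl r x) (hr c pl r y) := by
    intro r
    rw [hhom, hself]
  have hI : Ind A RA v = Finset.univ.image (fun z : α => (z, hr c pl (rr c pl v z))) := by
    ext ⟨z, h⟩
    rw [mem_Ind, Finset.mem_image]
    constructor
    · rintro ⟨h1, h2⟩
      refine ⟨z, Finset.mem_univ _, ?_⟩
      simp only at h1 h2
      have h3 := (hhom h).1 h1
      rw [h3]
      have h4 : rr c pl v z = h c := by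
        rw [h3] at h2
        unfold rr
        unfold hr at h2
        split_ifs with h5 h6
        · rw [if_pos h5] at h2; exact h2.symm
        · rw [if_neg h5, if_pos h6] at h2
          rw [← h2]
          generalize h c = x
          revert x
          decide
        · rw [if_neg h5, if_neg h6] at h2
          rw [← h2]
          generalize h c = x
          revert x
          decide
      rw [h4, ← h3]
    · rintro ⟨z', _, h1⟩
      rw [Prod.mk.injEq] at h1
      obtain ⟨rfl, rfl⟩ := h1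
      refine ⟨hhr _, ?_⟩
      simp only [hr, rr]
      split_ifs
      · rfl
      · revert v; decide
      · revert v; decide
  rw [hI, Finset.sum_image (by
    intro z _ z' _ h
    exact (Prod.mk.inj h).1)]
  have hAA : ∀ r, ∏ y, m (hr c pl r y) = m r * (m (r + 1) ^ p * m (r + 2) ^ q) := by
    intro r
    rw [hp, hq, ← ite_prod c pl]
    refine Finset.prod_congr rfl ?_
    intro y _
    unfold hr
    split_ifs <;> rfl
  simp only [hAA]
  set F : Fin 3 → ℕ := fun r => m r * (m (r + 1) ^ p * m (r + 2) ^ q) with hF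
  have hrw : ∀ z : α, F (rr c pl v z) =
      if z = c then F v else if pl z then F (v + 2) else F (v + 1) := by
    intro z
    unfold rr
    split_ifs <;> rfl
  have hsum : ∑ z : α, F (rr c pl v z) = F v + (p * F (v + 2) + q * F (v + 1)) := by
    rw [Finset.sum_congr rfl (fun z _ => hrw z), ite_sum c pl, ← hp, ← hq]
  exact hsum

theorem star_num (Γ0 Γ1 Γ2 F0 F1 F2 p q T k : ℕ) (hk : k = 1 + (p + q)) (hT : T = k + 1)
    (hp : 1 ≤ p) (hk3 : 3 ≤ k) (hF0 : F0 = T ^ p * (T ^ 3) ^ q) (hF1 : F1 = T * (T ^ 3) ^ p)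
    (hF2 : F2 = T ^ 3 * T ^ q)
    (h0 : Γ0 = F0 + (p * F2 + q * F1)) (h1 : T * Γ1 = F1 + (p * F0 + q * F2))
    (h2 : T ^ 3 * Γ2 = F2 + (p * F1 + q * F0)) :
    Γ0 ≠ Γ1 ∧ Γ0 ≠ Γ2 ∧ Γ1 ≠ Γ2 := by
  have hTpos : 0 < T := by omega
  have hF0pos : 0 < F0 := by rw [hF0]; positivity
  have hF1pos : 0 < F1 := by rw [hF1]; positivity
  have hF2pos : 0 < F2 := by rw [hF2]; positivity
  have hT3 : T * T ≤ T ^ 3 := by
    have : T ^ 3 = T * T * T := by ring
    rw [this]
    exact Nat.le_mul_of_pos_right _ hTpos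
  have hG1pos : 0 < Γ1 := by
    by_contra hc
    have : Γ1 = 0 := by omega
    rw [this, mul_zero] at h1
    omega
  rcases Nat.eq_zero_or_pos q with hq | hq
  · subst hq
    have hp2 : 2 ≤ p := by omega
    simp only [pow_zero, mul_one, zero_mul, add_zero] at *
    have hQ : F1 = T ^ (3 * p + 1) := by rw [hF1, ← pow_mul, pow_succ]; ring
    have e1 : T ^ 3 ≤ F1 := by rw [hQ]; exact Nat.pow_le_pow_right hTpos (by omega)
    have e2 : T ^ (p + 4) ≤ F1 := by rw [hQ]; exact Nat.pow_le_pow_right hTpos (by omega)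
    have e3 : T ^ 7 ≤ F1 := by rw [hQ]; exact Nat.pow_le_pow_right hTpos (by omega)
    have e4 : T ^ 3 * Γ2 ≤ k * (T * Γ1) := by
      rw [h2, h1, hk, hF2]
      calc T ^ 3 + p * F1 ≤ F1 + p * F1 := Nat.add_le_add_right e1 _
        _ = (1 + p) * F1 := by ring
        _ ≤ (1 + p) * (F1 + p * F0) := Nat.mul_le_mul_left _ (Nat.le_add_right _ _)
    have e5 : Γ2 < Γ1 := by
      by_contra hc
      push Not at hc
      have f1 : T ^ 3 * Γ1 ≤ T ^ 3 * Γ2 := Nat.mul_le_mul_left _ hc
      have f2 : T * T * Γ1 ≤ T ^ 3 * Γ1 := Nat.mul_le_mul_right _ hT3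
      have f3 : T * (T * Γ1) ≤ k * (T * Γ1) := by
        calc T * (T * Γ1) = T * T * Γ1 := by ring
          _ ≤ _ := f2.trans (f1.trans e4)
      have f4 : 0 < T * Γ1 := Nat.mul_pos hTpos hG1pos
      have f5 : T ≤ k := Nat.le_of_mul_le_mul_right f3 f4
      omega
    have e6 : T * (T ^ 3 * Γ0) ≤ k * F1 := by
      calc T * (T ^ 3 * Γ0) = T ^ (p + 4) + p * T ^ 7 := by rw [h0, hF0, hF2]; ring
        _ ≤ F1 + p * F1 := Nat.add_le_add e2 (Nat.mul_le_mul_left _ e3)
        _ = k * F1 := by rw [hk]; ring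
    have e7 : F1 ≤ T ^ 3 * Γ2 := by
      rw [h2]
      nlinarith
    have e8 : Γ0 < Γ2 := by
      by_contra hc
      push Not at hc
      have f1 : T ^ 3 * Γ2 ≤ T ^ 3 * Γ0 := Nat.mul_le_mul_left _ hc
      have f2 : T * F1 ≤ T * (T ^ 3 * Γ0) := Nat.mul_le_mul_left _ (e7.trans f1)
      have f3 : T ≤ k := Nat.le_of_mul_le_mul_right (f2.trans e6) hF1pos
      omega
    omega
  · have hpk : p ≤ k := by omega
    have hqk : q ≤ k := by omega
    have b0 : F0 + F1 + F2 ≤ Γ0 := by
      rw [h0]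
      nlinarith
    have b1 : F0 + F1 + F2 ≤ T * Γ1 := by
      rw [h1]
      nlinarith
    have u1 : T * Γ1 ≤ k * (F0 + F1 + F2) := by
      rw [h1, hk]
      nlinarith [Nat.zero_le (q * F0), Nat.zero_le (p * F2), Nat.zero_le (p * F1),
        Nat.zero_le (q * F1)]
    have u2 : T ^ 3 * Γ2 ≤ k * (F0 + F1 + F2) := by
      rw [h2, hk]
      nlinarith [Nat.zero_le (q * F1), Nat.zero_le (p * F2), Nat.zero_le (p * F0),
        Nat.zero_le (q * F2)]
    have e1 : Γ1 < Γ0 := by
      by_contra hc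
      push Not at hc
      have f1 : T * Γ1 ≤ k * Γ1 := u1.trans (Nat.mul_le_mul_left _ (b0.trans hc))
      have f2 : T ≤ k := Nat.le_of_mul_le_mul_right f1 hG1pos
      omega
    have e2 : Γ2 < Γ1 := by
      by_contra hc
      push Not at hc
      have f1 : T ^ 3 * Γ1 ≤ T ^ 3 * Γ2 := Nat.mul_le_mul_left _ hc
      have f2 : T * T * Γ1 ≤ T ^ 3 * Γ1 := Nat.mul_le_mul_right _ hT3
      have f3 : T * (T * Γ1) ≤ k * (T * Γ1) := by
        calc T * (T * Γ1) = T * T * Γ1 := by ring
          _ ≤ _ := f2.trans (f1.trans (u2.trans (Nat.mul_le_mul_left _ b1)))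
      have f4 : 0 < T * Γ1 := Nat.mul_pos hTpos hG1pos
      have f5 : T ≤ k := Nat.le_of_mul_le_mul_right f3 f4
      omega
    omega

theorem star_inj (A : α → α → Prop) (RA : Fin 3 → Fin 3 → Prop) (c : α) (pl : α → Prop)
    [DecidablePred pl]
    (hhom : ∀ h : α → Fin 3, (∀ x y, A x y → RA (h x) (h y)) ↔ h = hr c pl (h c))
    (hk : 3 ≤ Fintype.card α) (hpl : ∃ x, x ≠ c ∧ pl x) :
    Injective (Gam A RA (mT (Fintype.card α + 1))) := by
  obtain ⟨p, hp⟩ : ∃ p, p = (Finset.univ.filter (fun y => y ≠ c ∧ pl y)).card := ⟨_, rfl⟩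
  obtain ⟨q, hq⟩ : ∃ q, q = (Finset.univ.filter (fun y => y ≠ c ∧ ¬ pl y)).card := ⟨_, rfl⟩
  have hcard := card_split c pl
  rw [← hp, ← hq] at hcard
  have hp1 : 1 ≤ p := by
    rw [hp, Nat.one_le_iff_ne_zero, Finset.card_ne_zero]
    obtain ⟨x, hx⟩ := hpl
    exact ⟨x, Finset.mem_filter.2 ⟨Finset.mem_univ _, hx⟩⟩
  set T := Fintype.card α + 1 with hT
  have g0 := star_gam A RA c pl hhom (mT T) 0 p q hp hq
  have g1 := star_gam A RA c pl hhom (mT T) 1 p q hp hq
  have g2 := star_gam A RA c pl hhom (mT T) 2 p q hp hq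
  have m0 : mT T 0 = 1 := rfl
  have m1 : mT T 1 = T := rfl
  have m2 : mT T 2 = T ^ 3 := rfl
  have a1 : (1 : Fin 3) + 1 = 2 := rfl
  have a2 : (1 : Fin 3) + 2 = 0 := rfl
  have a3 : (2 : Fin 3) + 1 = 0 := rfl
  have a4 : (2 : Fin 3) + 2 = 1 := rfl
  have a5 : (0 : Fin 3) + 1 = 1 := rfl
  have a6 : (0 : Fin 3) + 2 = 2 := rfl
  simp only [a1, a2, a3, a4, a5, a6, m0, m1, m2, one_pow, one_mul, mul_one] at g0 g1 g2
  obtain ⟨n1, n2, n3⟩ := star_num _ _ _ _ _ _ p q T _ hcard.symm hT hp1 hk rfl rfl rfl g0 g1 g2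
  have key : ∀ G : Fin 3 → ℕ, G 0 ≠ G 1 → G 0 ≠ G 2 → G 1 ≠ G 2 → Injective G := by
    intro G k1 k2 k3 v w h
    fin_cases v <;> fin_cases w
    · rfl
    · exact absurd h k1
    · exact absurd h k2
    · exact absurd h.symm k1
    · rfl
    · exact absurd h k3
    · exact absurd h.symm k2
    · exact absurd h.symm k3
    · rfl
  exact key _ n1 n2 n3

end Pool.Agent.Helper808_Irr
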