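import Pool.Agent.Helper808_Irr.Star

namespace Pool.Agent.Helper808_Irr

open Finset Function

variable {α : Type} [Fintype α] [DecidableEq α]

theorem star_core (A : α → α → Prop) (hA : ∀ x, ¬ A x x) (RA : Fin 3 → Fin 3 → Prop)
    (hRA : ∀ v, ¬ RA v v) (c : α) (pl : α → Prop) [DecidablePred pl]
    (hhom : ∀ h : α → Fin 3, (∀ x y, A x y → RA (h x) (h y)) ↔ h = hr c pl (h c))
    (hk : 3 ≤ Fintype.card α) (l1 : α) (hl1 : l1 ≠ c) (hpl : pl l1)
    (hadj : ∀ x, x ≠ c → A c x ∨ A x c) (n0 : ℕ) :
    ∃ P : Par (Fin 3), n0 ≤ P.VV.card ∧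
      ∀ u ∈ P.VV, ∀ u' ∈ P.VV, LL A RA P u = LL A RA P u' → u = u' := by
  obtain ⟨l2, hl2c, hl2⟩ : ∃ l2, l2 ≠ c ∧ l2 ≠ l1 := by
    by_contra hcon
    push Not at hcon
    have : (Finset.univ : Finset α) ⊆ {c, l1} := by
      intro x _
      rw [Finset.mem_insert, Finset.mem_singleton]
      by_cases hx : x = c
      · exact Or.inl hx
      · exact Or.inr (hcon x hx)
    have h1 := Finset.card_le_card this
    have h2 : ({c, l1} : Finset α).card ≤ 2 := Finset.card_le_two
    rw [Finset.card_univ] at h1
    omega
  refine template_main A hA RA hRA (fun b => b + 2) ?_ (mT (Fintype.card α + 1)) ?_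
    (star_inj A RA c pl hhom hk ⟨l1, hl1, hpl⟩) n0
  · intro b
    refine ⟨hr c pl (b + 2), ?_, l1, c, l2, ?_, ?_, hl2.symm, ?_, ?_⟩
    · rw [hhom]
      simp [hr]
    · exact (hadj l1 hl1).symm
    · exact hadj l2 hl2c
    · simp only [hr, if_neg hl1, if_pos hpl]
      revert b; decide
    · simp [hr]
  · intro v
    fin_cases v
    · exact le_rfl
    · show 1 ≤ Fintype.card α + 1
      omega
    · show 1 ≤ (Fintype.card α + 1) ^ 3
      exact Nat.one_le_pow _ _ (by omega)

/-- Every two vertices are joined by a walk in the underlying undirected graph. -/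
def Conn (A : α → α → Prop) : Prop :=
  ∀ x y, Relation.ReflTransGen (fun a b => A a b ∨ A b a) x y

theorem star_main (A : α → α → Prop) (hA : ∀ x y, A x y → ¬ A y x)
    (hk : 3 ≤ Fintype.card α) (hconn : Conn A) (hns : ¬ NonStar A) (n0 : ℕ) :
    ∃ (RA : Fin 3 → Fin 3 → Prop) (P : Par (Fin 3)),
      (∀ v w, RA v w → ¬ RA w v) ∧ n0 ≤ P.VV.card ∧
      ∀ u ∈ P.VV, ∀ u' ∈ P.VV, LL A RA P u = LL A RA P u' → u = u' := by
  classical
  have hirr : ∀ x, ¬ A x x := fun x hx => hA x x hx hx
  unfold NonStar at hns
  push Not at hns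
  obtain ⟨c, hc⟩ := hns
  have hadj0 : ∀ x, x = c ∨ (A c x ∨ A x c) := by
    intro x
    have := hconn c x
    induction this with
    | refl => exact Or.inl rfl
    | tail _ h ih =>
      rename_i y z _
      rcases ih with rfl | ih
      · exact Or.inr h
      · exact Or.inl (hc _ _ ih h).symm
  have hadj : ∀ x, x ≠ c → A c x ∨ A x c := fun x hx => (hadj0 x).resolve_left hx
  have harc : ∀ x y, A x y → x = c ∨ y = c := by
    intro x y hxy
    by_cases hx : x = c
    · exact Or.inl hx
    · exact Or.inr (hc x y (hadj x hx) (Or.inl hxy)).symm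
  by_cases hpos : ∃ x, A c x
  · obtain ⟨l1, hl1⟩ := hpos
    have hl1c : l1 ≠ c := by
      rintro rfl
      exact hirr _ hl1
    refine ⟨fun v w => w = v + 1, ?_⟩
    have hasym : ∀ v w : Fin 3, w = v + 1 → ¬ v = w + 1 := by decide
    have hhom : ∀ h : α → Fin 3, (∀ x y, A x y → h y = h x + 1) ↔
        h = hr c (fun x => A c x) (h c) := by
      intro h
      constructor
      · intro hh
        funext x
        unfold hr
        split_ifs with h1 h2
        · rw [h1]
        · exact hh c x h2
        · have h3 := hh x c ((hadj x h1).resolve_left h2)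
          rw [h3]
          generalize h x = z
          revert z
          decide
      · intro hh x y hxy
        rcases harc x y hxy with rfl | rfl
        · have hy : y ≠ x := by
            rintro rfl
            exact hirr _ hxy
          have := congrFun hh y
          simp only [hr, if_neg hy, if_pos hxy] at this
          exact this
        · have hx : x ≠ y := by
            rintro rfl
            exact hirr _ hxy
          have := congrFun hh x
          simp only [hr, if_neg hx, if_neg (hA _ _ hxy)] at this
          rw [this]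
          generalize h y = z
          revert z
          decide
    obtain ⟨P, hP1, hP2⟩ := star_core A hirr (fun v w => w = v + 1)
      (fun v hv => hasym v v hv hv) c (fun x => A c x) hhom hk l1 hl1c hl1 hadj n0
    exact ⟨P, hasym, hP1, hP2⟩
  · push Not at hpos
    obtain ⟨l1, hl1c⟩ : ∃ l1, l1 ≠ c := by
      by_contra hcon
      push Not at hcon
      have : (Finset.univ : Finset α) ⊆ {c} := by
        intro x _
        rw [Finset.mem_singleton]
        exact hcon x
      have h1 := Finset.card_le_card this
      rw [Finset.card_univ, Finset.card_singleton] at h1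
      omega
    have hin : ∀ x, x ≠ c → A x c := fun x hx => (hadj x hx).resolve_left (hpos x)
    refine ⟨fun v w => v = w + 1, ?_⟩
    have hasym : ∀ v w : Fin 3, v = w + 1 → ¬ w = v + 1 := by decide
    have hhom : ∀ h : α → Fin 3, (∀ x y, A x y → h x = h y + 1) ↔
        h = hr c (fun x => A x c) (h c) := by
      intro h
      constructor
      · intro hh
        funext x
        unfold hr
        split_ifs with h1 h2
        · rw [h1]
        · exact hh x c h2
        · exact absurd (hin x h1) h2
      · intro hh x y hxy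
        have hy : y = c := by
          rcases harc x y hxy with h1 | h1
          · rw [h1] at hxy
            exact absurd hxy (hpos y)
          · exact h1
        subst hy
        have hx : x ≠ y := by
          rintro rfl
          exact hirr _ hxy
        have := congrFun hh x
        simp only [hr, if_neg hx, if_pos hxy] at this
        exact this
    obtain ⟨P, hP1, hP2⟩ := star_core A hirr (fun v w => v = w + 1)
      (fun v hv => hasym v v hv hv) c (fun x => A x c) hhom hk l1 hl1c (hin l1 hl1c) hadj n0
    exact ⟨P, hasym, hP1, hP2⟩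

theorem all_main (A : α → α → Prop) (hA : ∀ x y, A x y → ¬ A y x)
    (hk : 3 ≤ Fintype.card α) (hconn : Conn A) (n0 : ℕ) :
    ∃ (n : ℕ) (RA : Fin n → Fin n → Prop) (P : Par (Fin n)),
      (∀ v w, RA v w → ¬ RA w v) ∧ n0 ≤ P.VV.card ∧
      ∀ u ∈ P.VV, ∀ u' ∈ P.VV, LL A RA P u = LL A RA P u' → u = u' := by
  have hne : Nonempty α := by
    rw [← Fintype.card_pos_iff]
    omega
  by_cases hns : NonStar A
  · exact nonstar_main A hA hns n0
  · exact ⟨3, star_main A hA hk hconn hns n0⟩

end Pool.Agent.Helper808_Irr
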