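import Pool.Agent.Helper808_Irr.HostMain

namespace Pool.Agent.Helper808_Irr

open Finset Function

variable {α R : Type} [Fintype α] [DecidableEq α] [Fintype R] [DecidableEq R]

theorem Gam_mul (A : α → α → Prop) (RA : R → R → Prop) (m : R → ℕ) (v : R) :
    m v * Gam A RA m v = ∑ i ∈ Ind A RA v, ∏ y, m (i.2 y) := by
  unfold Gam
  rw [Finset.mul_sum]
  refine Finset.sum_congr rfl ?_
  intro i hi
  obtain ⟨_, h2⟩ := mem_Ind.1 hi
  rw [← Finset.prod_sdiff (Finset.subset_univ {i.1}), Finset.prod_singleton, h2, mul_comm]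

open Classical in
/-- Homomorphisms from the pattern to the template. -/
noncomputable def Homs (A : α → α → Prop) (RA : R → R → Prop) : Finset (α → R) :=
  Finset.univ.filter (fun h => ∀ x y, A x y → RA (h x) (h y))

theorem mem_Homs {A : α → α → Prop} {RA : R → R → Prop} {h : α → R} :
    h ∈ Homs A RA ↔ ∀ x y, A x y → RA (h x) (h y) := by
  classical
  simp [Homs]

theorem Gam_lower (A : α → α → Prop) (RA : R → R → Prop) (m : R → ℕ) (v : R)
    (hs : ∀ h ∈ Homs A RA, Surjective h) :
    ∑ h ∈ Homs A RA, ∏ y, m (h y) ≤ m v * Gam A RA m v := by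
  classical
  rw [Gam_mul]
  have hch : ∀ h : α → R, ∃ z : α, h ∈ Homs A RA → h z = v := by
    intro h
    by_cases hh : h ∈ Homs A RA
    · obtain ⟨z, hz⟩ := hs h hh v
      exact ⟨z, fun _ => hz⟩
    · by_cases he : Nonempty α
      · exact ⟨he.some, fun h' => absurd h' hh⟩
      · exfalso
        apply hh
        rw [mem_Homs]
        intro x
        exact absurd ⟨x⟩ he
  choose z hz using hch
  have hinj : Set.InjOn (fun h : α → R => (z h, h)) (Homs A RA) := by
    intro h _ h' _ hhh
    exact (Prod.mk.inj hhh).2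
  have h1 : ∑ h ∈ Homs A RA, ∏ y, m (h y) =
      ∑ i ∈ (Homs A RA).image (fun h => (z h, h)), ∏ y, m (i.2 y) := by
    rw [Finset.sum_image hinj]
  rw [h1]
  refine Finset.sum_le_sum_of_subset ?_
  intro i hi
  rw [Finset.mem_image] at hi
  obtain ⟨h, hh, rfl⟩ := hi
  exact mem_Ind.2 ⟨mem_Homs.1 hh, hz h hh⟩

theorem Gam_upper (A : α → α → Prop) (RA : R → R → Prop) (m : R → ℕ) (v : R) :
    m v * Gam A RA m v ≤ Fintype.card α * ∑ h ∈ Homs A RA, ∏ y, m (h y) := by
  classical
  rw [Gam_mul]
  have h1 : Ind A RA v ⊆ (Finset.univ : Finset α) ×ˢ Homs A RA := by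
    intro i hi
    obtain ⟨h2, _⟩ := mem_Ind.1 hi
    exact Finset.mem_product.2 ⟨Finset.mem_univ _, mem_Homs.2 h2⟩
  refine (Finset.sum_le_sum_of_subset h1).trans ?_
  rw [Finset.sum_product]
  simp

theorem Gam_inj_of_surj (A : α → α → Prop) {n : ℕ} (RA : Fin n → Fin n → Prop)
    (hs : ∀ h ∈ Homs A RA, Surjective h) (hne : (Homs A RA).Nonempty) :
    Injective (Gam A RA (fun v => (Fintype.card α + 1) ^ (v : ℕ))) := by
  set k := Fintype.card α with hk
  set m : Fin n → ℕ := fun v => (k + 1) ^ (v : ℕ) with hm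
  set P0 := ∑ h ∈ Homs A RA, ∏ y, m (h y) with hP0
  have hmpos : ∀ v, 0 < m v := fun v => by simp only [hm]; positivity
  have hP0pos : 0 < P0 := by
    rw [hP0]
    refine Finset.sum_pos ?_ hne
    intro h _
    exact Finset.prod_pos fun y _ => hmpos _
  have key : ∀ v w : Fin n, v < w → Gam A RA m w < Gam A RA m v := by
    intro v w hvw
    have h1 := Gam_lower A RA m v hs
    have h2 := Gam_upper A RA m w
    rw [← hP0] at h1 h2
    rw [← hk] at h2
    have h3 : (k + 1) * m v ≤ m w := by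
      simp only [hm]
      rw [← pow_succ']
      exact Nat.pow_le_pow_right (by omega) hvw
    have hG : 0 < Gam A RA m v := by
      by_contra hcon
      have : Gam A RA m v = 0 := by omega
      rw [this, mul_zero] at h1
      omega
    have h4 : (k + 1) * (m v * Gam A RA m w) ≤ k * (m v * Gam A RA m v) := by
      calc (k + 1) * (m v * Gam A RA m w) = ((k + 1) * m v) * Gam A RA m w := by ring
        _ ≤ m w * Gam A RA m w := Nat.mul_le_mul_right _ h3
        _ ≤ k * P0 := h2
        _ ≤ k * (m v * Gam A RA m v) := Nat.mul_le_mul_left _ h1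
    have hv := hmpos v
    by_contra hcon
    push Not at hcon
    have h5 : m v * Gam A RA m v ≤ m v * Gam A RA m w := Nat.mul_le_mul_left _ hcon
    have h6 : 0 < m v * Gam A RA m v := Nat.mul_pos hv hG
    nlinarith
  intro v w h
  by_contra hne
  rcases lt_or_gt_of_ne hne with hlt | hlt
  · exact absurd h (key v w hlt).ne'
  · exact absurd h (key w v hlt).ne

/-- The image of the arcs has no opposite arcs. -/
def Adm (A : α → α → Prop) {β : Type} (h : α → β) : Prop :=
  ∀ x y z w, A x y → A z w → h x = h w → h y = h z → False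

/-- The pattern has a path with two edges starting at every vertex. -/
def NonStar (A : α → α → Prop) : Prop :=
  ∀ x0, ∃ x1 x2, (A x0 x1 ∨ A x1 x0) ∧ (A x1 x2 ∨ A x2 x1) ∧ x0 ≠ x2

theorem nonstar_main (A : α → α → Prop) (hA : ∀ x y, A x y → ¬ A y x) [Nonempty α]
    (hns : NonStar A) (n0 : ℕ) :
    ∃ (n : ℕ) (RA : Fin n → Fin n → Prop) (P : Par (Fin n)),
      (∀ v w, RA v w → ¬ RA w v) ∧ n0 ≤ P.VV.card ∧
      ∀ u ∈ P.VV, ∀ u' ∈ P.VV, LL A RA P u = LL A RA P u' → u = u' := by
  classical
  have hex : ∃ n, ∃ h : α → Fin n, Adm A h := by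
    refine ⟨Fintype.card α, Fintype.equivFin α, ?_⟩
    intro x y z w h1 h2 h3 h4
    have e1 : x = w := (Fintype.equivFin α).injective h3
    have e2 : y = z := (Fintype.equivFin α).injective h4
    subst e1 e2
    exact hA _ _ h1 h2
  obtain ⟨n, hn⟩ : ∃ n, n = Nat.find hex := ⟨_, rfl⟩
  obtain ⟨h, hh⟩ : ∃ h : α → Fin n, Adm A h := by
    rw [hn]; exact Nat.find_spec hex
  set RA : Fin n → Fin n → Prop := fun v w => ∃ x y, A x y ∧ h x = v ∧ h y = w with hRA
  have hasym : ∀ v w, RA v w → ¬ RA w v := by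
    rintro v w ⟨x, y, h1, h2, h3⟩ ⟨z, u, h4, h5, h6⟩
    exact hh x y z u h1 h4 (h2.trans h6.symm) (h3.trans h5.symm)
  have hsurj : ∀ h' ∈ Homs A RA, Surjective h' := by
    intro h' hh'
    rw [mem_Homs] at hh'
    by_contra hns'
    have hcard : (Finset.univ.image h').card < n := by
      have : Finset.univ.image h' ≠ Finset.univ := by
        intro he
        apply hns'
        intro v
        have : v ∈ Finset.univ.image h' := by rw [he]; exact Finset.mem_univ _
        obtain ⟨x, _, hx⟩ := Finset.mem_image.1 this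
        exact ⟨x, hx⟩
      have := Finset.card_lt_univ_of_notMem (s := Finset.univ.image h')
        (x := (by
          have : ∃ v, v ∉ Finset.univ.image h' := by
            by_contra hc
            push Not at hc
            exact this (Finset.eq_univ_iff_forall.2 hc)
          exact this.choose))
        (by
          have : ∃ v, v ∉ Finset.univ.image h' := by
            by_contra hc
            push Not at hc
            exact this (Finset.eq_univ_iff_forall.2 hc)
          exact this.choose_spec)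
      rwa [Fintype.card_fin] at this
    refine Nat.find_min hex (hn ▸ hcard) ⟨fun x =>
      (Finset.univ.image h').equivFin ⟨h' x, Finset.mem_image_of_mem _ (Finset.mem_univ x)⟩, ?_⟩
    intro x y z w h1 h2 h3 h4
    have e1 := (Finset.univ.image h').equivFin.injective h3
    have e2 := (Finset.univ.image h').equivFin.injective h4
    rw [Subtype.mk.injEq] at e1 e2
    have h5 := hh' _ _ h1
    have h6 := hh' _ _ h2
    rw [← e1, ← e2] at h6
    exact hasym _ _ h5 h6
  have hhom : h ∈ Homs A RA := mem_Homs.2 fun x y hxy => ⟨x, y, hxy, rfl, rfl⟩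
  have hpath0 : ∀ b : Fin n, ∃ x0 x1 x2, (A x0 x1 ∨ A x1 x0) ∧ (A x1 x2 ∨ A x2 x1) ∧
      x0 ≠ x2 ∧ h x0 = b := by
    intro b
    obtain ⟨x0, hx0⟩ := hsurj h hhom b
    obtain ⟨x1, x2, h1, h2, h3⟩ := hns x0
    exact ⟨x0, x1, x2, h1, h2, h3, hx0⟩
  choose y0 y1 y2 hy01 hy12 hy02 hy0 using hpath0
  haveI : Nonempty (Fin n) := ⟨h (Classical.arbitrary α)⟩
  obtain ⟨P, hP1, hP2⟩ := template_main A (fun x hx => hA x x hx hx) RA
    (fun v hv => hasym v v hv hv) (fun b => h (y1 b))
    (fun b => ⟨h, mem_Homs.1 hhom, y0 b, y1 b, y2 b, hy01 b, hy12 b, hy02 b, hy0 b, rfl⟩)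
    (fun v => (Fintype.card α + 1) ^ (v : ℕ)) (fun v => Nat.one_le_pow _ _ (by omega))
    (Gam_inj_of_surj A RA hsurj ⟨h, hhom⟩) n0
  exact ⟨n, RA, P, hasym, hP1, hP2⟩

end Pool.Agent.Helper808_Irr
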